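import Mathlib

/-!
# The ring of integers of an algebraic closure of the `p`-adic numbers
-/

set_option autoImplicit false

namespace Pool.Agent.W451.UGR

variable (p : ℕ) [Fact p.Prime]

/-- An algebraic closure of `ℚ_[p]`. -/
abbrev QBarP : Type := AlgebraicClosure ℚ_[p]

/-- The ring of integers of the algebraic closure of `ℚ_[p]`: the integral closure of `ℤ_[p]`. -/
abbrev ZBarP : Type := integralClosure ℤ_[p] (QBarP p)

/-- The `p`-adic absolute value on the algebraic closure of `ℚ_[p]`. -/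
noncomputable def absP : AbsoluteValue (QBarP p) ℝ where
  toFun x := ‖(x : PadicAlgCl p)‖
  map_mul' x y := norm_mul (α := PadicAlgCl p) x y
  nonneg' x := norm_nonneg (E := PadicAlgCl p) x
  eq_zero' x := norm_eq_zero (E := PadicAlgCl p)
  add_le' x y := norm_add_le (E := PadicAlgCl p) x y

lemma absP_apply (x : QBarP p) : absP p x = ‖(x : PadicAlgCl p)‖ := rfl

lemma absP_add_le (x y : QBarP p) : absP p (x + y) ≤ max (absP p x) (absP p y) :=
  PadicAlgCl.isNonarchimedean p x y

lemma absP_le_one_iff (x : QBarP p) : absP p x ≤ 1 ↔ IsIntegral ℤ_[p] x := by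
  have hx : IsIntegral ℚ_[p] x := (PadicAlgCl.isAlgebraic p).isAlgebraic x |>.isIntegral
  have h1 : absP p x ≤ 1 ↔ ∀ n : ℕ, ‖(minpoly ℚ_[p] x).coeff n‖ ≤ 1 := by
    rw [← spectralValue_le_one_iff (minpoly.monic hx)]
    rfl
  rw [h1]
  constructor
  · intro h
    have h2 : minpoly ℚ_[p] x ∈ Polynomial.lifts (algebraMap ℤ_[p] ℚ_[p]) := by
      rw [Polynomial.lifts_iff_coeff_lifts]
      intro n
      exact ⟨⟨_, h n⟩, rfl⟩
    obtain ⟨q, hq, -, hm⟩ := Polynomial.lifts_and_degree_eq_and_monic h2 (minpoly.monic hx)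
    refine ⟨q, hm, ?_⟩
    have h3 : Polynomial.aeval x (q.map (algebraMap ℤ_[p] ℚ_[p])) = 0 := by
      rw [hq, minpoly.aeval]
    rw [Polynomial.aeval_map_algebraMap] at h3
    exact h3
  · intro h n
    rw [minpoly.isIntegrallyClosed_eq_field_fractions' ℚ_[p] h, Polynomial.coeff_map]
    exact PadicInt.norm_le_one _

lemma absP_le_one_iff' (x : QBarP p) :
    absP p x ≤ 1 ↔ ∃ r : ZBarP p, algebraMap (ZBarP p) (QBarP p) r = x := by
  rw [absP_le_one_iff]
  constructor
  · intro h
    exact ⟨⟨x, h⟩, rfl⟩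
  · rintro ⟨r, rfl⟩
    exact r.2

lemma absP_coe_le_one (r : ZBarP p) : absP p (algebraMap (ZBarP p) (QBarP p) r) ≤ 1 :=
  (absP_le_one_iff' p _).2 ⟨r, rfl⟩

lemma isUnit_iff_absP (r : ZBarP p) :
    IsUnit r ↔ absP p (algebraMap (ZBarP p) (QBarP p) r) = 1 := by
  constructor
  · rintro ⟨u, rfl⟩
    have h1 : absP p (algebraMap (ZBarP p) (QBarP p) u) *
        absP p (algebraMap (ZBarP p) (QBarP p) (u⁻¹ : (ZBarP p)ˣ)) = 1 := by
      rw [← map_mul, ← map_mul, u.mul_inv, map_one, map_one]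
    have h2 := absP_coe_le_one p u
    have h3 := absP_coe_le_one p (u⁻¹ : (ZBarP p)ˣ)
    have h4 := (absP p).nonneg (algebraMap (ZBarP p) (QBarP p) u)
    nlinarith
  · intro h
    have h0 : algebraMap (ZBarP p) (QBarP p) r ≠ 0 := by
      intro h0
      rw [h0, map_zero] at h
      exact zero_ne_one h
    obtain ⟨s, hs⟩ := (absP_le_one_iff' p (algebraMap (ZBarP p) (QBarP p) r)⁻¹).1
      (by rw [map_inv₀, h, inv_one])
    refine IsUnit.of_mul_eq_one s ?_
    apply FaithfulSMul.algebraMap_injective (ZBarP p) (QBarP p)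
    rw [map_mul, hs, mul_inv_cancel₀ h0, map_one]

instance : IsLocalRing (ZBarP p) := by
  refine IsLocalRing.of_isUnit_or_isUnit_one_sub_self fun a => ?_
  by_cases h : IsUnit a
  · exact Or.inl h
  · right
    rw [isUnit_iff_absP] at h ⊢
    have h1 := absP_coe_le_one p a
    have h2 : absP p (algebraMap (ZBarP p) (QBarP p) a) < 1 := lt_of_le_of_ne h1 h
    refine le_antisymm (absP_coe_le_one p _) ?_
    by_contra h3
    push Not at h3
    have h4 := absP_add_le p (algebraMap (ZBarP p) (QBarP p) a)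
      (algebraMap (ZBarP p) (QBarP p) (1 - a))
    rw [← map_add, add_sub_cancel, map_one, map_one] at h4
    exact absurd h4 (not_le.2 (max_lt h2 h3))

/-- The residue field of the ring of integers; it is an algebraic closure of the field with
`p` elements. -/
abbrev FBarP : Type := IsLocalRing.ResidueField (ZBarP p)

lemma algebraMap_FBarP_surjective :
    Function.Surjective (algebraMap (ZBarP p) (FBarP p)) :=
  IsLocalRing.residue_surjective

lemma algebraMap_FBarP_eq_zero (r : ZBarP p) :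
    algebraMap (ZBarP p) (FBarP p) r = 0 ↔ ¬ IsUnit r := by
  rw [IsLocalRing.ResidueField.algebraMap_eq, IsLocalRing.residue_eq_zero_iff,
    IsLocalRing.mem_maximalIdeal, mem_nonunits_iff]

lemma absP_divisible (x : QBarP p) (n : ℕ) (hn : 0 < n) : ∃ y : QBarP p,
    absP p y ^ n = absP p x := by
  obtain ⟨y, hy⟩ := IsAlgClosed.exists_pow_nat_eq x hn
  exact ⟨y, by rw [← map_pow, hy]⟩

lemma absP_nontrivial : ∃ x : QBarP p, x ≠ 0 ∧ absP p x ≠ 1 := by
  have hp : p.Prime := Fact.out
  refine ⟨(p : QBarP p), ?_, ?_⟩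
  · exact_mod_cast hp.ne_zero
  · have h1 : absP p (p : QBarP p) = ‖(p : ℚ_[p])‖ := by
      rw [absP_apply, ← PadicAlgCl.norm_extends]
      simp
    rw [h1, Padic.norm_p]
    intro h
    have h2 : (p : ℝ) = 1 := by rw [← inv_inv (p : ℝ), h, inv_one]
    exact hp.ne_one (by exact_mod_cast h2)

end Pool.Agent.W451.UGR
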