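import Mathlib.CategoryTheory.Monoidal.Linear
import Mathlib.CategoryTheory.Linear.LinearFunctor
import Mathlib.LinearAlgebra.TensorProduct.Tower
import Mathlib.Algebra.Algebra.Bilinear

/-!
# Base change of linear monoidal categories
-/

set_option autoImplicit false
set_option linter.unusedSectionVars false

open CategoryTheory MonoidalCategory TensorProduct

namespace Pool.Agent.W451.UGR

universe w₁ w v u

/-- The base change of the `R`-linear category `C` to the `R`-algebra `S`: it has the same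
objects, and its spaces of morphisms are `S ⊗[R] (X ⟶ Y)`. -/
structure BC (R : Type w₁) (S : Type w) (C : Type u) where
  /-- the underlying object of `C` -/
  as : C

namespace BC

section hom

variable (R : Type w₁) [CommRing R] (S : Type w) [CommRing S] [Algebra R S]
  {C : Type u} [Category.{v} C] [Preadditive C] [Linear R C]

/-- The space of morphisms of the base change: `S ⊗[R] (X ⟶ Y)`. -/
def H (X Y : C) : Type (max w v) := S ⊗[R] (X ⟶ Y)

noncomputable instance instAddCommGroupH (X Y : C) : AddCommGroup (H R S X Y) :=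
  TensorProduct.addCommGroup

noncomputable instance instModuleH (X Y : C) : Module S (H R S X Y) :=
  TensorProduct.leftModule

/-- The morphism `s ⊗ f` of the base change. -/
noncomputable def pt (s : S) {X Y : C} (f : X ⟶ Y) : H R S X Y := s ⊗ₜ[R] f

/-- Composition in the base change: `(s ⊗ f) ≫ (t ⊗ g) = (s * t) ⊗ (f ≫ g)`. -/
noncomputable def comp {X Y Z : C} (f : H R S X Y) (g : H R S Y Z) : H R S X Z :=
  TensorProduct.map₂ (LinearMap.mul R S) (Linear.comp X Y Z) f g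

lemma pt_comp_pt {X Y Z : C} (s t : S) (f : X ⟶ Y) (g : Y ⟶ Z) :
    comp R S (pt R S s f) (pt R S t g) = pt R S (s * t) (f ≫ g) := rfl

lemma add_comp {X Y Z : C} (f f' : H R S X Y) (g : H R S Y Z) :
    comp R S (f + f') g = comp R S f g + comp R S f' g :=
  LinearMap.map_add₂ (TensorProduct.map₂ (LinearMap.mul R S) (Linear.comp X Y Z)) f f' g

lemma comp_add {X Y Z : C} (f : H R S X Y) (g g' : H R S Y Z) :
    comp R S f (g + g') = comp R S f g + comp R S f g' :=
  LinearMap.map_add (TensorProduct.map₂ (LinearMap.mul R S) (Linear.comp X Y Z) f) g g'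

lemma zero_comp {X Y Z : C} (g : H R S Y Z) : comp R S (0 : H R S X Y) g = 0 :=
  LinearMap.map_zero₂ (TensorProduct.map₂ (LinearMap.mul R S) (Linear.comp X Y Z)) g

lemma comp_zero {X Y Z : C} (f : H R S X Y) : comp R S f (0 : H R S Y Z) = 0 :=
  LinearMap.map_zero (TensorProduct.map₂ (LinearMap.mul R S) (Linear.comp X Y Z) f)

lemma smul_pt (r s : S) {X Y : C} (f : X ⟶ Y) : r • pt R S s f = pt R S (r * s) f :=
  TensorProduct.smul_tmul' _ _ _

/-- Induction on morphisms of the base change. -/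
@[elab_as_elim]
lemma H_induction {X Y : C} {P : H R S X Y → Prop} (f : H R S X Y) (zero : P 0)
    (pt : ∀ (s : S) (g : X ⟶ Y), P (pt R S s g)) (add : ∀ f g, P f → P g → P (f + g)) :
    P f :=
  TensorProduct.induction_on (motive := P) f zero pt add

lemma comp_assoc {W X Y Z : C} (f : H R S W X) (g : H R S X Y) (h : H R S Y Z) :
    comp R S (comp R S f g) h = comp R S f (comp R S g h) := by
  induction f using H_induction with
  | zero => rw [zero_comp, zero_comp, zero_comp]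
  | add x y hx hy => rw [add_comp, add_comp, add_comp, hx, hy]
  | pt s f =>
    induction g using H_induction with
    | zero => rw [comp_zero, zero_comp, zero_comp, comp_zero]
    | add x y hx hy => rw [comp_add, add_comp, add_comp, comp_add, hx, hy]
    | pt t g =>
      induction h using H_induction with
      | zero => rw [comp_zero, comp_zero, comp_zero]
      | add x y hx hy => rw [comp_add, comp_add, comp_add, hx, hy]
      | pt r h => rw [pt_comp_pt, pt_comp_pt, pt_comp_pt, pt_comp_pt, mul_assoc, Category.assoc]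

lemma one_comp {X Y : C} (f : H R S X Y) : comp R S (pt R S 1 (𝟙 X)) f = f := by
  induction f using H_induction with
  | zero => rw [comp_zero]
  | add x y hx hy => rw [comp_add, hx, hy]
  | pt s f => rw [pt_comp_pt, one_mul, Category.id_comp]

lemma comp_one {X Y : C} (f : H R S X Y) : comp R S f (pt R S 1 (𝟙 Y)) = f := by
  induction f using H_induction with
  | zero => rw [zero_comp]
  | add x y hx hy => rw [add_comp, hx, hy]
  | pt s f => rw [pt_comp_pt, mul_one, Category.comp_id]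

lemma smul_comp {X Y Z : C} (r : S) (f : H R S X Y) (g : H R S Y Z) :
    comp R S (r • f) g = r • comp R S f g := by
  induction f using H_induction with
  | zero => rw [smul_zero, zero_comp, smul_zero]
  | add x y hx hy => rw [smul_add, add_comp, add_comp, smul_add, hx, hy]
  | pt s f =>
    induction g using H_induction with
    | zero => rw [comp_zero, comp_zero, smul_zero]
    | add x y hx hy => rw [comp_add, comp_add, smul_add, hx, hy]
    | pt t g => rw [smul_pt, pt_comp_pt, pt_comp_pt, smul_pt, mul_assoc]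

lemma comp_smul {X Y Z : C} (f : H R S X Y) (r : S) (g : H R S Y Z) :
    comp R S f (r • g) = r • comp R S f g := by
  induction f using H_induction with
  | zero => rw [zero_comp, zero_comp, smul_zero]
  | add x y hx hy => rw [add_comp, add_comp, smul_add, hx, hy]
  | pt s f =>
    induction g using H_induction with
    | zero => rw [smul_zero, comp_zero, smul_zero]
    | add x y hx hy => rw [smul_add, comp_add, comp_add, smul_add, hx, hy]
    | pt t g => rw [smul_pt, pt_comp_pt, pt_comp_pt, smul_pt, mul_left_comm]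

end hom

section category

variable (R : Type w₁) [CommRing R] (S : Type w) [CommRing S] [Algebra R S]
  (C : Type u) [Category.{v} C] [Preadditive C] [Linear R C]

noncomputable instance instCategoryStruct : CategoryStruct.{max w v} (BC R S C) where
  Hom X Y := H R S X.as Y.as
  id X := pt R S 1 (𝟙 X.as)
  comp f g := comp R S f g

noncomputable instance instCategory : Category.{max w v} (BC R S C) where
  id_comp f := one_comp R S f
  comp_id f := comp_one R S f
  assoc f g h := comp_assoc R S f g h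

noncomputable instance instPreadditive : Preadditive (BC R S C) where
  homGroup X Y := instAddCommGroupH R S X.as Y.as
  add_comp _ _ _ f f' g := add_comp R S f f' g
  comp_add _ _ _ f g g' := comp_add R S f g g'

noncomputable instance instLinear : Linear S (BC R S C) where
  homModule X Y := instModuleH R S X.as Y.as
  smul_comp _ _ _ r f g := smul_comp R S r f g
  comp_smul _ _ _ f r g := comp_smul R S f r g

end category

section lemmas

variable (R : Type w₁) [CommRing R] (S : Type w) [CommRing S] [Algebra R S]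
  {C : Type u} [Category.{v} C] [Preadditive C] [Linear R C]

/-- The morphism `s ⊗ f` of the base change. -/
noncomputable def tm (s : S) {X Y : C} (f : X ⟶ Y) : (⟨X⟩ : BC R S C) ⟶ ⟨Y⟩ := pt R S s f

variable {R S}

lemma tm_comp (s t : S) {X Y Z : C} (f : X ⟶ Y) (g : Y ⟶ Z) :
    tm R S s f ≫ tm R S t g = tm R S (s * t) (f ≫ g) := rfl

lemma id_eq (X : BC R S C) : 𝟙 X = tm R S 1 (𝟙 X.as) := rfl

lemma tm_add (s : S) {X Y : C} (f g : X ⟶ Y) : tm R S s (f + g) = tm R S s f + tm R S s g :=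
  TensorProduct.tmul_add _ _ _

lemma add_tm (s t : S) {X Y : C} (f : X ⟶ Y) : tm R S (s + t) f = tm R S s f + tm R S t f :=
  TensorProduct.add_tmul _ _ _

lemma smul_tm (r s : S) {X Y : C} (f : X ⟶ Y) : r • tm R S s f = tm R S (r * s) f :=
  TensorProduct.smul_tmul' _ _ _

lemma tm_smul (r : R) (s : S) {X Y : C} (f : X ⟶ Y) :
    tm R S s (r • f) = tm R S (algebraMap R S r * s) f := by
  change s ⊗ₜ[R] (r • f) = _
  rw [TensorProduct.tmul_smul, TensorProduct.smul_tmul', Algebra.smul_def]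
  rfl

lemma tm_zero (s : S) {X Y : C} : tm R S s (0 : X ⟶ Y) = 0 := TensorProduct.tmul_zero _ _

/-- Induction on morphisms of the base change. -/
@[elab_as_elim]
lemma hom_induction {X Y : BC R S C} {P : (X ⟶ Y) → Prop} (f : X ⟶ Y) (zero : P 0)
    (tm : ∀ (s : S) (g : X.as ⟶ Y.as), P (tm R S s g)) (add : ∀ f g, P f → P g → P (f + g)) :
    P f :=
  TensorProduct.induction_on (motive := P) f zero tm add

end lemmas

section monoidal

variable (R : Type w₁) [CommRing R] (S : Type w) [CommRing S] [Algebra R S]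
  {C : Type u} [Category.{v} C] [Preadditive C] [Linear R C]
  [MonoidalCategory C] [MonoidalPreadditive C] [MonoidalLinear R C]

/-- The tensor product of morphisms of `C` as a bilinear map. -/
def tensB (X₁ Y₁ X₂ Y₂ : C) :
    (X₁ ⟶ Y₁) →ₗ[R] (X₂ ⟶ Y₂) →ₗ[R] (X₁ ⊗ X₂ ⟶ Y₁ ⊗ Y₂) :=
  LinearMap.mk₂ R (fun f g => f ⊗ₘ g)
    (fun f f' g => by simp [MonoidalCategory.tensorHom_def])
    (fun r f g => by simp [MonoidalCategory.tensorHom_def])
    (fun f g g' => by simp [MonoidalCategory.tensorHom_def])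
    (fun r f g => by simp [MonoidalCategory.tensorHom_def])

/-- The tensor product of morphisms of the base change:
`(s ⊗ f) ⊗ₘ (t ⊗ g) = (s * t) ⊗ (f ⊗ₘ g)`. -/
noncomputable def tensH {X₁ Y₁ X₂ Y₂ : C} (f : H R S X₁ Y₁) (g : H R S X₂ Y₂) :
    H R S (X₁ ⊗ X₂) (Y₁ ⊗ Y₂) :=
  TensorProduct.map₂ (LinearMap.mul R S) (tensB R X₁ Y₁ X₂ Y₂) f g

/-- An isomorphism of `C`, viewed as an isomorphism of the base change. -/
@[simps]
noncomputable def isoOf {X Y : C} (e : X ≅ Y) : (⟨X⟩ : BC R S C) ≅ ⟨Y⟩ where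
  hom := pt R S 1 e.hom
  inv := pt R S 1 e.inv
  hom_inv_id := by
    change comp R S (pt R S 1 e.hom) (pt R S 1 e.inv) = pt R S 1 (𝟙 X)
    rw [pt_comp_pt, Iso.hom_inv_id, one_mul]
  inv_hom_id := by
    change comp R S (pt R S 1 e.inv) (pt R S 1 e.hom) = pt R S 1 (𝟙 Y)
    rw [pt_comp_pt, Iso.inv_hom_id, one_mul]

end monoidal

section monoidalStructure

variable (R : Type w₁) [CommRing R] (S : Type w) [CommRing S] [Algebra R S]
  (C : Type u) [Category.{v} C] [Preadditive C] [Linear R C]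
  [MonoidalCategory C] [MonoidalPreadditive C] [MonoidalLinear R C]

noncomputable instance instMonoidalCategoryStruct : MonoidalCategoryStruct (BC R S C) where
  tensorObj X Y := ⟨X.as ⊗ Y.as⟩
  tensorHom f g := tensH R S f g
  whiskerLeft X _ _ f := tensH R S (pt R S 1 (𝟙 X.as)) f
  whiskerRight f Y := tensH R S f (pt R S 1 (𝟙 Y.as))
  tensorUnit := ⟨𝟙_ C⟩
  associator X Y Z := isoOf R S (α_ X.as Y.as Z.as)
  leftUnitor X := isoOf R S (λ_ X.as)
  rightUnitor X := isoOf R S (ρ_ X.as)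

variable {R S C}

lemma tm_tensor (s t : S) {X₁ Y₁ X₂ Y₂ : C} (f : X₁ ⟶ Y₁) (g : X₂ ⟶ Y₂) :
    (tm R S s f ⊗ₘ tm R S t g) = tm R S (s * t) (f ⊗ₘ g) := rfl

lemma zero_tensor {X₁ Y₁ X₂ Y₂ : BC R S C} (g : X₂ ⟶ Y₂) : (0 : X₁ ⟶ Y₁) ⊗ₘ g = 0 :=
  LinearMap.map_zero₂ (TensorProduct.map₂ (LinearMap.mul R S) (tensB R X₁.as Y₁.as X₂.as Y₂.as)) g

lemma tensor_zero {X₁ Y₁ X₂ Y₂ : BC R S C} (f : X₁ ⟶ Y₁) : f ⊗ₘ (0 : X₂ ⟶ Y₂) = 0 :=
  LinearMap.map_zero (TensorProduct.map₂ (LinearMap.mul R S) (tensB R X₁.as Y₁.as X₂.as Y₂.as) f)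

lemma add_tensor {X₁ Y₁ X₂ Y₂ : BC R S C} (f f' : X₁ ⟶ Y₁) (g : X₂ ⟶ Y₂) :
    (f + f') ⊗ₘ g = f ⊗ₘ g + f' ⊗ₘ g :=
  LinearMap.map_add₂ (TensorProduct.map₂ (LinearMap.mul R S) (tensB R X₁.as Y₁.as X₂.as Y₂.as))
    f f' g

lemma tensor_add {X₁ Y₁ X₂ Y₂ : BC R S C} (f : X₁ ⟶ Y₁) (g g' : X₂ ⟶ Y₂) :
    f ⊗ₘ (g + g') = f ⊗ₘ g + f ⊗ₘ g' :=
  LinearMap.map_add (TensorProduct.map₂ (LinearMap.mul R S) (tensB R X₁.as Y₁.as X₂.as Y₂.as) f)
    g g'

lemma id_tensor_id' (X₁ X₂ : BC R S C) : (𝟙 X₁ ⊗ₘ 𝟙 X₂) = 𝟙 (X₁ ⊗ X₂) := by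
  change tm R S 1 (𝟙 X₁.as) ⊗ₘ tm R S 1 (𝟙 X₂.as) = tm R S 1 (𝟙 (X₁.as ⊗ X₂.as))
  rw [tm_tensor]
  simp

lemma tensor_comp_tensor {X₁ Y₁ Z₁ X₂ Y₂ Z₂ : BC R S C} (f₁ : X₁ ⟶ Y₁) (f₂ : X₂ ⟶ Y₂)
    (g₁ : Y₁ ⟶ Z₁) (g₂ : Y₂ ⟶ Z₂) : (f₁ ⊗ₘ f₂) ≫ (g₁ ⊗ₘ g₂) = (f₁ ≫ g₁) ⊗ₘ (f₂ ≫ g₂) := by
  induction f₁ using hom_induction with
  | zero => simp only [zero_tensor, Limits.zero_comp]
  | add x y hx hy => simp only [add_tensor, Preadditive.add_comp, hx, hy]
  | tm s₁ a₁ =>
  induction f₂ using hom_induction with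
  | zero => simp only [tensor_zero, Limits.zero_comp]
  | add x y hx hy => simp only [tensor_add, Preadditive.add_comp, hx, hy]
  | tm s₂ a₂ =>
  induction g₁ using hom_induction with
  | zero => simp only [zero_tensor, Limits.comp_zero]
  | add x y hx hy => simp only [add_tensor, Preadditive.comp_add, hx, hy]
  | tm t₁ b₁ =>
  induction g₂ using hom_induction with
  | zero => simp only [tensor_zero, Limits.comp_zero]
  | add x y hx hy => simp only [tensor_add, Preadditive.comp_add, hx, hy]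
  | tm t₂ b₂ =>
  change tm R S (s₁ * s₂ * (t₁ * t₂)) ((a₁ ⊗ₘ a₂) ≫ (b₁ ⊗ₘ b₂)) =
    tm R S (s₁ * t₁ * (s₂ * t₂)) ((a₁ ≫ b₁) ⊗ₘ (a₂ ≫ b₂))
  rw [MonoidalCategory.tensorHom_comp_tensorHom, mul_mul_mul_comm]

lemma associator_nat {X₁ X₂ X₃ Y₁ Y₂ Y₃ : BC R S C} (f₁ : X₁ ⟶ Y₁) (f₂ : X₂ ⟶ Y₂)
    (f₃ : X₃ ⟶ Y₃) : ((f₁ ⊗ₘ f₂) ⊗ₘ f₃) ≫ (α_ Y₁ Y₂ Y₃).hom =
      (α_ X₁ X₂ X₃).hom ≫ (f₁ ⊗ₘ (f₂ ⊗ₘ f₃)) := by
  induction f₁ using hom_induction with
  | zero => simp only [zero_tensor, Limits.zero_comp, Limits.comp_zero]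
  | add x y hx hy => simp only [add_tensor, Preadditive.add_comp, Preadditive.comp_add, hx, hy]
  | tm s₁ a₁ =>
  induction f₂ using hom_induction with
  | zero => simp only [tensor_zero, zero_tensor, Limits.zero_comp, Limits.comp_zero]
  | add x y hx hy =>
    simp only [tensor_add, add_tensor, Preadditive.add_comp, Preadditive.comp_add, hx, hy]
  | tm s₂ a₂ =>
  induction f₃ using hom_induction with
  | zero => simp only [tensor_zero, Limits.zero_comp, Limits.comp_zero]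
  | add x y hx hy => simp only [tensor_add, Preadditive.add_comp, Preadditive.comp_add, hx, hy]
  | tm s₃ a₃ =>
  change tm R S (s₁ * s₂ * s₃ * 1) (((a₁ ⊗ₘ a₂) ⊗ₘ a₃) ≫ (α_ _ _ _).hom) =
    tm R S (1 * (s₁ * (s₂ * s₃))) ((α_ _ _ _).hom ≫ (a₁ ⊗ₘ a₂ ⊗ₘ a₃))
  rw [MonoidalCategory.associator_naturality, mul_one, one_mul, mul_assoc]

lemma leftUnitor_nat {X Y : BC R S C} (f : X ⟶ Y) :
    (𝟙 (𝟙_ (BC R S C)) ⊗ₘ f) ≫ (λ_ Y).hom = (λ_ X).hom ≫ f := by
  induction f using hom_induction with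
  | zero => simp only [tensor_zero, Limits.zero_comp, Limits.comp_zero]
  | add x y hx hy => simp only [tensor_add, Preadditive.add_comp, Preadditive.comp_add, hx, hy]
  | tm s a =>
  change tm R S (1 * s * 1) ((𝟙 (𝟙_ C) ⊗ₘ a) ≫ (λ_ _).hom) = tm R S (1 * s) ((λ_ _).hom ≫ a)
  rw [MonoidalCategory.id_tensorHom, MonoidalCategory.leftUnitor_naturality, mul_one]

lemma rightUnitor_nat {X Y : BC R S C} (f : X ⟶ Y) :
    (f ⊗ₘ 𝟙 (𝟙_ (BC R S C))) ≫ (ρ_ Y).hom = (ρ_ X).hom ≫ f := by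
  induction f using hom_induction with
  | zero => simp only [zero_tensor, Limits.zero_comp, Limits.comp_zero]
  | add x y hx hy => simp only [add_tensor, Preadditive.add_comp, Preadditive.comp_add, hx, hy]
  | tm s a =>
  change tm R S (s * 1 * 1) ((a ⊗ₘ 𝟙 (𝟙_ C)) ≫ (ρ_ _).hom) = tm R S (1 * s) ((ρ_ _).hom ≫ a)
  rw [MonoidalCategory.tensorHom_id, MonoidalCategory.rightUnitor_naturality, mul_one,
    mul_one, one_mul]

lemma pentagon' (W X Y Z : BC R S C) :
    ((α_ W X Y).hom ⊗ₘ 𝟙 Z) ≫ (α_ W (X ⊗ Y) Z).hom ≫ (𝟙 W ⊗ₘ (α_ X Y Z).hom) =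
      (α_ (W ⊗ X) Y Z).hom ≫ (α_ W X (Y ⊗ Z)).hom := by
  change tm R S (1 * 1 * (1 * (1 * 1))) (((α_ W.as X.as Y.as).hom ⊗ₘ 𝟙 Z.as) ≫
    (α_ W.as (X.as ⊗ Y.as) Z.as).hom ≫ (𝟙 W.as ⊗ₘ (α_ X.as Y.as Z.as).hom)) =
    tm R S (1 * 1) ((α_ (W.as ⊗ X.as) Y.as Z.as).hom ≫ (α_ W.as X.as (Y.as ⊗ Z.as)).hom)
  simp

lemma triangle' (X Y : BC R S C) :
    (α_ X (𝟙_ (BC R S C)) Y).hom ≫ (𝟙 X ⊗ₘ (λ_ Y).hom) = ((ρ_ X).hom ⊗ₘ 𝟙 Y) := by
  change tm R S (1 * (1 * 1)) ((α_ X.as (𝟙_ C) Y.as).hom ≫ (𝟙 X.as ⊗ₘ (λ_ Y.as).hom)) =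
    tm R S (1 * 1) ((ρ_ X.as).hom ⊗ₘ 𝟙 Y.as)
  simp

variable (R S C)

noncomputable instance instMonoidalCategory : MonoidalCategory (BC R S C) :=
  MonoidalCategory.ofTensorHom
    (id_tensorHom_id := id_tensor_id')
    (id_tensorHom := fun _ _ _ _ => rfl)
    (tensorHom_id := fun _ _ => rfl)
    (tensorHom_comp_tensorHom := tensor_comp_tensor)
    (associator_naturality := associator_nat)
    (leftUnitor_naturality := leftUnitor_nat)
    (rightUnitor_naturality := rightUnitor_nat)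
    (pentagon := pentagon')
    (triangle := triangle')

variable {R S C}

lemma whiskerLeft_eq (X : BC R S C) {Y₁ Y₂ : BC R S C} (f : Y₁ ⟶ Y₂) :
    X ◁ f = tm R S 1 (𝟙 X.as) ⊗ₘ f := rfl

lemma whiskerRight_eq {X₁ X₂ : BC R S C} (f : X₁ ⟶ X₂) (Y : BC R S C) :
    f ▷ Y = f ⊗ₘ tm R S 1 (𝟙 Y.as) := rfl

lemma tm_whiskerLeft (X : C) (s : S) {Y₁ Y₂ : C} (f : Y₁ ⟶ Y₂) :
    (⟨X⟩ : BC R S C) ◁ tm R S s f = tm R S s (X ◁ f) := by
  rw [whiskerLeft_eq]
  change tm R S (1 * s) (𝟙 X ⊗ₘ f) = _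
  rw [one_mul, id_tensorHom]

lemma tm_whiskerRight (s : S) {X₁ X₂ : C} (f : X₁ ⟶ X₂) (Y : C) :
    tm R S s f ▷ (⟨Y⟩ : BC R S C) = tm R S s (f ▷ Y) := by
  rw [whiskerRight_eq]
  change tm R S (s * 1) (f ⊗ₘ 𝟙 Y) = _
  rw [mul_one, tensorHom_id]

variable (R S C)

instance instMonoidalPreadditive : MonoidalPreadditive (BC R S C) where
  whiskerLeft_zero := by intros; rw [whiskerLeft_eq, tensor_zero]
  zero_whiskerRight := by intros; rw [whiskerRight_eq, zero_tensor]
  whiskerLeft_add := by intros; simp only [whiskerLeft_eq, tensor_add]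
  add_whiskerRight := by intros; simp only [whiskerRight_eq, add_tensor]

instance instMonoidalLinear : MonoidalLinear S (BC R S C) where
  whiskerLeft_smul X {Y Z} r f := by
    induction f using hom_induction with
    | zero => rw [smul_zero, MonoidalPreadditive.whiskerLeft_zero, smul_zero]
    | add x y hx hy =>
      rw [smul_add, MonoidalPreadditive.whiskerLeft_add, hx, hy,
        MonoidalPreadditive.whiskerLeft_add, smul_add]
    | tm s a =>
      change X ◁ (r • tm R S s a) = r • (X ◁ tm R S s a)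
      rw [smul_tm]
      exact (tm_whiskerLeft X.as (r * s) a).trans
        ((smul_tm r s (X.as ◁ a)).symm.trans (congrArg (r • ·) (tm_whiskerLeft X.as s a).symm))
  smul_whiskerRight r {Y Z} f X := by
    induction f using hom_induction with
    | zero => rw [smul_zero, MonoidalPreadditive.zero_whiskerRight, smul_zero]
    | add x y hx hy =>
      rw [smul_add, MonoidalPreadditive.add_whiskerRight, hx, hy,
        MonoidalPreadditive.add_whiskerRight, smul_add]
    | tm s a =>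
      change (r • tm R S s a) ▷ X = r • (tm R S s a ▷ X)
      rw [smul_tm]
      exact (tm_whiskerRight (r * s) a X.as).trans
        ((smul_tm r s (a ▷ X.as)).symm.trans (congrArg (r • ·) (tm_whiskerRight s a X.as).symm))

end monoidalStructure

end BC

end Pool.Agent.W451.UGR
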