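import Mathlib
import Pool.Agent.W451.UGR.BC

/-!
# The functor to the base change
-/

set_option autoImplicit false
set_option linter.unusedSectionVars false

open CategoryTheory MonoidalCategory TensorProduct

namespace Pool.Agent.W451.UGR

universe w₁ w v u

namespace BC

section Monoidal

variable (R : Type w₁) [CommRing R] (S : Type w) [CommRing S] [Algebra R S]
  (C : Type u) [Category.{v} C] [Preadditive C] [Linear R C]
  [MonoidalCategory C] [MonoidalPreadditive C] [MonoidalLinear R C]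

/-- The functor from a category to its base change. -/
noncomputable def incl (R : Type w₁) [CommRing R] (S : Type w) [CommRing S] [Algebra R S]
    (C : Type u) [Category.{v} C] [Preadditive C] [Linear R C] : C ⥤ BC R S C where
  obj X := ⟨X⟩
  map f := tm R S 1 f
  map_id X := rfl
  map_comp f g := by rw [tm_comp, one_mul]

instance : (incl R S C).Additive where
  map_add {_ _ f g} := tm_add 1 f g

lemma incl_smul {X Y : C} (r : R) (f : X ⟶ Y) :
    (incl R S C).map (r • f) = algebraMap R S r • (incl R S C).map f := by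
  change tm R S 1 (r • f) = algebraMap R S r • tm R S 1 f
  rw [tm_smul, smul_tm]

noncomputable instance : (incl R S C).Monoidal :=
  Functor.CoreMonoidal.toMonoidal
    { εIso := Iso.refl _
      μIso := fun X Y => Iso.refl _
      μIso_hom_natural_left := fun {X Y} f X' => by
        change tm R S 1 f ▷ (⟨X'⟩ : BC R S C) ≫ 𝟙 _ = 𝟙 _ ≫ tm R S 1 (f ▷ X')
        rw [tm_whiskerRight, Category.comp_id, Category.id_comp]
      μIso_hom_natural_right := fun {X Y} X' f => by
        change (⟨X'⟩ : BC R S C) ◁ tm R S 1 f ≫ 𝟙 _ = 𝟙 _ ≫ tm R S 1 (X' ◁ f)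
        rw [tm_whiskerLeft, Category.comp_id, Category.id_comp]
      associativity := fun X Y Z => by
        change 𝟙 (⟨X ⊗ Y⟩ : BC R S C) ▷ (⟨Z⟩ : BC R S C) ≫ 𝟙 (⟨(X ⊗ Y) ⊗ Z⟩ : BC R S C) ≫
          tm R S 1 (α_ X Y Z).hom = tm R S 1 (α_ X Y Z).hom ≫
          (⟨X⟩ : BC R S C) ◁ 𝟙 (⟨Y ⊗ Z⟩ : BC R S C) ≫ 𝟙 (⟨X ⊗ Y ⊗ Z⟩ : BC R S C)
        rw [id_whiskerRight, MonoidalCategory.whiskerLeft_id]
        have h1 : ∀ {A B : BC R S C} (a : A ⟶ B), 𝟙 A ≫ 𝟙 A ≫ a = a ≫ 𝟙 B ≫ 𝟙 B := by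
          intros; simp
        exact h1 _
      left_unitality := fun X => by
        change tm R S 1 (λ_ X).hom = 𝟙 (𝟙_ (BC R S C)) ▷ (⟨X⟩ : BC R S C) ≫
          𝟙 (⟨𝟙_ C ⊗ X⟩ : BC R S C) ≫ tm R S 1 (λ_ X).hom
        rw [id_whiskerRight, Category.id_comp]
        exact (Category.id_comp _).symm
      right_unitality := fun X => by
        change tm R S 1 (ρ_ X).hom = (⟨X⟩ : BC R S C) ◁ 𝟙 (𝟙_ (BC R S C)) ≫
          𝟙 (⟨X ⊗ 𝟙_ C⟩ : BC R S C) ≫ tm R S 1 (ρ_ X).hom
        rw [MonoidalCategory.whiskerLeft_id, Category.id_comp]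
        exact (Category.id_comp _).symm }

end Monoidal

end BC

end Pool.Agent.W451.UGR
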