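import Pool.Agent.W451.UGR.BCIncl

/-!
# Functoriality of the base change
-/

set_option autoImplicit false
set_option linter.unusedSectionVars false

open CategoryTheory MonoidalCategory TensorProduct

namespace Pool.Agent.W451.UGR

universe w₁ w v u v' u'

namespace BC

variable (R : Type w₁) [CommRing R] (S : Type w) [CommRing S] [Algebra R S]
  {C : Type u} [Category.{v} C] [Preadditive C] [Linear R C]
  {D : Type u'} [Category.{v'} D] [Preadditive D] [Linear R D]

section

variable (F : C ⥤ D) [F.Additive] [F.Linear R]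

/-- The map on morphisms of the base change of a linear functor. -/
noncomputable def mapL (X Y : C) : (S ⊗[R] (X ⟶ Y)) →ₗ[S] (S ⊗[R] (F.obj X ⟶ F.obj Y)) :=
  (F.mapLinearMap R (X := X) (Y := Y)).baseChange S

/-- The map on morphisms of the base change of a linear functor. -/
noncomputable def mapH {X Y : C} (f : H R S X Y) : H R S (F.obj X) (F.obj Y) := mapL R S F X Y f

lemma mapH_pt {X Y : C} (s : S) (f : X ⟶ Y) : mapH R S F (pt R S s f) = pt R S s (F.map f) :=
  rfl

lemma mapH_add {X Y : C} (f g : H R S X Y) :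
    mapH R S F (f + g) = mapH R S F f + mapH R S F g :=
  map_add (mapL R S F X Y) f g

lemma mapH_zero {X Y : C} : mapH R S F (0 : H R S X Y) = 0 :=
  map_zero (mapL R S F X Y)

lemma mapH_comp {X Y Z : C} (f : H R S X Y) (g : H R S Y Z) :
    mapH R S F (comp R S f g) = comp R S (mapH R S F f) (mapH R S F g) := by
  induction f using H_induction with
  | zero => rw [zero_comp, mapH_zero, mapH_zero, zero_comp]
  | add x y hx hy => rw [add_comp, mapH_add, mapH_add, add_comp, hx, hy]
  | pt s a =>
    induction g using H_induction with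
    | zero => rw [comp_zero, mapH_zero, mapH_zero, comp_zero]
    | add x y hx hy => rw [comp_add, mapH_add, mapH_add, comp_add, hx, hy]
    | pt t b => rw [pt_comp_pt, mapH_pt, mapH_pt, mapH_pt, pt_comp_pt, F.map_comp]

/-- The base change of a linear functor. -/
noncomputable def map : BC R S C ⥤ BC R S D where
  obj X := ⟨F.obj X.as⟩
  map {X Y} f := mapH R S F f
  map_id X := by
    change mapH R S F (pt R S 1 (𝟙 X.as)) = pt R S 1 (𝟙 (F.obj X.as))
    rw [mapH_pt, F.map_id]
  map_comp {X Y Z} f g := mapH_comp R S F f g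

lemma map_map_tm {X Y : C} (s : S) (f : X ⟶ Y) :
    (map R S F).map (tm R S s f) = tm R S s (F.map f) := rfl

instance : (map R S F).Additive where
  map_add {X Y f g} := map_add (mapL R S F X.as Y.as) f g

instance : (map R S F).Linear S where
  map_smul {X Y} f r := map_smul (mapL R S F X.as Y.as) r f

instance [F.IsEquivalence] : (map R S F).IsEquivalence where
  faithful :=
    { map_injective := fun {X Y} f g h => by
        let e : (X.as ⟶ Y.as) ≃ₗ[R] (F.obj X.as ⟶ F.obj Y.as) :=
          LinearEquiv.ofBijective (F.mapLinearMap R) ⟨F.map_injective, F.map_surjective⟩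
        exact (LinearEquiv.baseChange R S _ _ e).injective h }
  full :=
    { map_surjective := fun {X Y} f => by
        let e : (X.as ⟶ Y.as) ≃ₗ[R] (F.obj X.as ⟶ F.obj Y.as) :=
          LinearEquiv.ofBijective (F.mapLinearMap R) ⟨F.map_injective, F.map_surjective⟩
        exact (LinearEquiv.baseChange R S _ _ e).surjective f }
  essSurj :=
    { mem_essImage := fun Y => ⟨⟨F.objPreimage Y.as⟩,
        ⟨(incl R S D).mapIso (F.objObjPreimageIso Y.as)⟩⟩ }

end

section Monoidal

variable [MonoidalCategory C] [MonoidalPreadditive C] [MonoidalLinear R C]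
  [MonoidalCategory D] [MonoidalPreadditive D] [MonoidalLinear R D]
  (F : C ⥤ D) [F.Additive] [F.Linear R] [F.Monoidal]

open Functor.LaxMonoidal Functor.OplaxMonoidal

noncomputable instance : (map R S F).Monoidal :=
  Functor.CoreMonoidal.toMonoidal
    { εIso := (incl R S D).mapIso (Functor.Monoidal.εIso F)
      μIso := fun X Y => (incl R S D).mapIso (Functor.Monoidal.μIso F X.as Y.as)
      μIso_hom_natural_left := fun {X Y} f X' => by
        induction f using hom_induction with
        | zero => simp only [Functor.map_zero, MonoidalPreadditive.zero_whiskerRight,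
            Limits.zero_comp, Limits.comp_zero]
        | add x y hx hy =>
          simp only [Functor.map_add, MonoidalPreadditive.add_whiskerRight,
            Preadditive.add_comp, Preadditive.comp_add, hx, hy]
        | tm s a =>
        change tm R S s (F.map a) ▷ (⟨F.obj X'.as⟩ : BC R S D) ≫ tm R S 1 (μ F _ _) =
          tm R S 1 (μ F _ _) ≫ (map R S F).map (tm R S s a ▷ (⟨X'.as⟩ : BC R S C))
        rw [tm_whiskerRight, tm_whiskerRight, map_map_tm]
        change tm R S (s * 1) (F.map a ▷ F.obj X'.as ≫ μ F _ _) =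
          tm R S (1 * s) (μ F _ _ ≫ F.map (a ▷ X'.as))
        rw [mul_one, one_mul, μ_natural_left]
      μIso_hom_natural_right := fun {X Y} X' f => by
        induction f using hom_induction with
        | zero => simp only [Functor.map_zero, MonoidalPreadditive.whiskerLeft_zero,
            Limits.zero_comp, Limits.comp_zero]
        | add x y hx hy =>
          simp only [Functor.map_add, MonoidalPreadditive.whiskerLeft_add,
            Preadditive.add_comp, Preadditive.comp_add, hx, hy]
        | tm s a =>
        change (⟨F.obj X'.as⟩ : BC R S D) ◁ tm R S s (F.map a) ≫ tm R S 1 (μ F _ _) =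
          tm R S 1 (μ F _ _) ≫ (map R S F).map ((⟨X'.as⟩ : BC R S C) ◁ tm R S s a)
        rw [tm_whiskerLeft, tm_whiskerLeft, map_map_tm]
        change tm R S (s * 1) (F.obj X'.as ◁ F.map a ≫ μ F _ _) =
          tm R S (1 * s) (μ F _ _ ≫ F.map (X'.as ◁ a))
        rw [mul_one, one_mul, μ_natural_right]
      associativity := fun X Y Z => by
        change tm R S 1 (μ F X.as Y.as) ▷ (⟨F.obj Z.as⟩ : BC R S D) ≫
          tm R S 1 (μ F (X.as ⊗ Y.as) Z.as) ≫ tm R S 1 (F.map (α_ X.as Y.as Z.as).hom) =
          tm R S 1 (α_ (F.obj X.as) (F.obj Y.as) (F.obj Z.as)).hom ≫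
          (⟨F.obj X.as⟩ : BC R S D) ◁ tm R S 1 (μ F Y.as Z.as) ≫
          tm R S 1 (μ F X.as (Y.as ⊗ Z.as))
        rw [tm_whiskerLeft, tm_whiskerRight]
        change tm R S (1 * (1 * 1)) (_ ≫ _ ≫ _) = tm R S (1 * (1 * 1)) (_ ≫ _ ≫ _)
        rw [Functor.LaxMonoidal.associativity]
      left_unitality := fun X => by
        change tm R S 1 (λ_ (F.obj X.as)).hom = tm R S 1 (ε F) ▷ (⟨F.obj X.as⟩ : BC R S D) ≫
          tm R S 1 (μ F (𝟙_ C) X.as) ≫ tm R S 1 (F.map (λ_ X.as).hom)
        rw [tm_whiskerRight]
        change _ = tm R S (1 * (1 * 1)) (_ ≫ _ ≫ _)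
        rw [← Functor.LaxMonoidal.left_unitality, one_mul, one_mul]
      right_unitality := fun X => by
        change tm R S 1 (ρ_ (F.obj X.as)).hom = (⟨F.obj X.as⟩ : BC R S D) ◁ tm R S 1 (ε F) ≫
          tm R S 1 (μ F X.as (𝟙_ C)) ≫ tm R S 1 (F.map (ρ_ X.as).hom)
        rw [tm_whiskerLeft]
        change _ = tm R S (1 * (1 * 1)) (_ ≫ _ ≫ _)
        rw [← Functor.LaxMonoidal.right_unitality, one_mul, one_mul] }

end Monoidal

end BC

end Pool.Agent.W451.UGR
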