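import Mathlib

/-!
# Value groups
-/

set_option autoImplicit false

namespace Pool.Agent.W451.UGR

variable {K : Type*} [Field K] (v : AbsoluteValue K ℝ)

/-- The additive value group of a field with divisible value group. -/
noncomputable def valueSpace (hdiv : ∀ x : K, x ≠ 0 → ∀ n : ℕ, 0 < n → ∃ y : K, v y ^ n = v x) :
    Submodule ℚ ℝ where
  carrier := {r | ∃ x : K, x ≠ 0 ∧ Real.log (v x) = r}
  zero_mem' := ⟨1, one_ne_zero, by simp⟩
  add_mem' := by
    rintro a b ⟨x, hx, rfl⟩ ⟨y, hy, rfl⟩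
    refine ⟨x * y, mul_ne_zero hx hy, ?_⟩
    rw [map_mul, Real.log_mul (v.ne_zero hx) (v.ne_zero hy)]
  smul_mem' := by
    rintro q r ⟨x, hx, rfl⟩
    obtain ⟨y, hy⟩ := hdiv x hx q.den q.den_pos
    have hy0 : y ≠ 0 := by
      rintro rfl
      rw [v.map_zero, zero_pow q.den_pos.ne'] at hy
      exact v.ne_zero hx hy.symm
    have hlog : (q.den : ℝ) * Real.log (v y) = Real.log (v x) := by
      rw [← hy, Real.log_pow]
    refine ⟨y ^ q.num, zpow_ne_zero _ hy0, ?_⟩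
    rw [map_zpow₀, Real.log_zpow, Rat.smul_def, ← hlog]
    have h1 : (q : ℝ) = (q.num : ℝ) / (q.den : ℝ) := by
      exact_mod_cast (Rat.num_div_den q).symm
    rw [h1]
    have h2 : (q.den : ℝ) ≠ 0 := by exact_mod_cast q.den_pos.ne'
    field_simp

lemma mem_valueSpace {hdiv : ∀ x : K, x ≠ 0 → ∀ n : ℕ, 0 < n → ∃ y : K, v y ^ n = v x} {r : ℝ} :
    r ∈ valueSpace v hdiv ↔ ∃ x : K, x ≠ 0 ∧ Real.log (v x) = r := Iff.rfl

lemma dense_valueSpace (hdiv : ∀ x : K, x ≠ 0 → ∀ n : ℕ, 0 < n → ∃ y : K, v y ^ n = v x)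
    (hnt : ∃ x : K, x ≠ 0 ∧ v x ≠ 1) : Dense (valueSpace v hdiv : Set ℝ) := by
  obtain ⟨x, hx, hx1⟩ := hnt
  have hg : Real.log (v x) ≠ 0 := by
    intro h
    rcases Real.log_eq_zero.1 h with h | h | h
    · exact v.ne_zero hx h
    · exact hx1 h
    · have := v.nonneg x
      linarith
  have h1 : DenseRange (fun q : ℚ => (q : ℝ) * Real.log (v x)) :=
    (Homeomorph.mulRight₀ _ hg).surjective.denseRange.comp Rat.denseRange_cast
      (Homeomorph.mulRight₀ _ hg).continuous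
  refine Dense.mono ?_ h1
  rintro _ ⟨q, rfl⟩
  have h2 := (valueSpace v hdiv).smul_mem q (show Real.log (v x) ∈ valueSpace v hdiv from
    ⟨x, hx, rfl⟩)
  rwa [Rat.smul_def] at h2

end Pool.Agent.W451.UGR
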