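import Mathlib

/-!
# An optimization argument
-/

set_option autoImplicit false

namespace Pool.Agent.W451.UGR

/-- Approximation of a real vector by one with coordinates in a dense rational subspace, keeping
the relations with values in that subspace. -/
lemma exists_approx {I : Type*} [Fintype I] (Γ : Submodule ℚ ℝ) (hΓ : Dense (Γ : Set ℝ))
    (x : I → ℝ) (O : Set (I → ℝ)) (hO : IsOpen O) (hx : x ∈ O) :
    ∃ y ∈ O, (∀ i, y i ∈ Γ) ∧ (∀ i, x i ∈ Γ → y i = x i) ∧
      ∀ i j l, x i + x j - x l ∈ Γ → y i + y j - y l = x i + x j - x l := by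
  obtain ⟨g, hg⟩ := LinearMap.exists_leftInverse_of_injective Γ.subtype
    (by rw [Submodule.ker_subtype])
  have hg' : ∀ r ∈ Γ, ((g r : Γ) : ℝ) = r := by
    intro r hr
    have := congrArg (fun f => ((f ⟨r, hr⟩ : Γ) : ℝ)) hg
    simpa using this
  let z : I → ℝ := fun i => x i - (g (x i) : ℝ)
  let V : Submodule ℚ ℝ := Submodule.span ℚ (Set.range z)
  have hV : Module.Finite ℚ V := Module.Finite.span_of_finite ℚ (Set.finite_range z)
  have hz : ∀ i, z i ∈ V := fun i => Submodule.subset_span ⟨i, rfl⟩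
  let u := Module.finBasis ℚ V
  let n := Module.finrank ℚ V
  let q : I → Fin n → ℚ := fun i r => u.repr ⟨z i, hz i⟩ r
  let Y : (Fin n → ℝ) → I → ℝ := fun γ i => (g (x i) : ℝ) + ∑ r, (q i r : ℝ) * γ r
  have hYc : Continuous Y := by
    refine continuous_pi fun i => continuous_const.add ?_
    exact continuous_finsetSum _ fun r _ => continuous_const.mul (continuous_apply r)
  have hsum : ∀ i, z i = ∑ r, (q i r : ℝ) * (u r : ℝ) := by
    intro i
    have h1 := congrArg (fun v : V => (v : ℝ)) (u.sum_repr ⟨z i, hz i⟩)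
    simp only [AddSubmonoidClass.coe_finsetSum, Submodule.coe_smul] at h1
    rw [← h1]
    refine Finset.sum_congr rfl fun r _ => ?_
    exact Rat.smul_def _ _
  have hYu : Y (fun r => (u r : ℝ)) = x := by
    ext i
    simp only [Y]
    rw [← hsum i]
    simp [z]
  have hd : Dense {γ : Fin n → ℝ | ∀ r, γ r ∈ Γ} := by
    have := dense_pi (Set.univ : Set (Fin n)) (s := fun _ => (Γ : Set ℝ)) (fun _ _ => hΓ)
    convert this using 1
    ext γ; simp
  obtain ⟨γ, hγ1, hγ2⟩ := hd.exists_mem_open (hO.preimage hYc)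
    ⟨fun r => (u r : ℝ), by rw [Set.mem_preimage, hYu]; exact hx⟩
  have hmul : ∀ (a : ℚ) (r : ℝ), r ∈ Γ → (a : ℝ) * r ∈ Γ := by
    intro a r hr
    have := Γ.smul_mem a hr
    rwa [Rat.smul_def] at this
  refine ⟨Y γ, hγ2, ?_, ?_, ?_⟩
  · intro i
    exact Γ.add_mem (g (x i)).2 (Γ.sum_mem fun r _ => hmul _ _ (hγ1 r))
  · intro i hi
    have h1 : z i = 0 := by simp only [z]; rw [hg' _ hi]; ring
    have h2 : ∀ r, q i r = 0 := by
      intro r
      have : (⟨z i, hz i⟩ : V) = 0 := Subtype.ext h1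
      simp only [q]
      rw [this]; simp
    simp only [Y, h2]
    rw [hg' _ hi]; simp
  · intro i j l h
    have h1 : z i + z j - z l = 0 := by
      have h2 := hg' _ h
      rw [map_sub, map_add] at h2
      simp only [z]
      push_cast at h2
      linarith
    have h2 : ∀ r, q i r + q j r - q l r = 0 := by
      intro r
      have h3 : (⟨z i, hz i⟩ + ⟨z j, hz j⟩ - ⟨z l, hz l⟩ : V) = 0 := Subtype.ext h1
      have h4 : u.repr (⟨z i, hz i⟩ + ⟨z j, hz j⟩ - ⟨z l, hz l⟩ : V) r = 0 := by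
        rw [h3]; simp
      rw [map_sub, map_add] at h4
      exact h4
    have h5 : (g (x i) : ℝ) + (g (x j) : ℝ) - (g (x l) : ℝ) = x i + x j - x l := by
      have h2 := hg' _ h
      rw [map_sub, map_add] at h2
      push_cast at h2
      exact h2
    have h6 : ∑ r, (q i r : ℝ) * γ r + ∑ r, (q j r : ℝ) * γ r - ∑ r, (q l r : ℝ) * γ r = 0 := by
      rw [← Finset.sum_add_distrib, ← Finset.sum_sub_distrib]
      refine Finset.sum_eq_zero fun r _ => ?_
      have : ((q i r : ℝ) + q j r - q l r) = 0 := by exact_mod_cast h2 r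
      linear_combination (γ r) * this
    simp only [Y]
    linear_combination h5 + h6

theorem optimize {I : Type*} [Fintype I] [DecidableEq I] (i₀ : I) {τ : Type*} [Fintype τ]
    (a b c : τ → I) (m : τ → ℝ) (Γ : Submodule ℚ ℝ) (hΓ : Dense (Γ : Set ℝ))
    (hm : ∀ t, m t ∈ Γ)
    (hfeas : ∃ x : I → ℝ, x i₀ = 0 ∧ ∀ t, m t ≤ x (a t) + x (b t) - x (c t))
    (hb : ∀ i, ∃ t, a t = i ∧ c t = i₀)
    (himp : ∀ x : I → ℝ, (∀ i, x i ∈ Γ) → x i₀ = 0 →
      (∀ t, m t ≤ x (a t) + x (b t) - x (c t)) →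
      ∃ w : I → ℝ, w i₀ = 0 ∧ (∀ i, 0 ≤ w i) ∧ (∃ i, 0 < w i) ∧
        ∀ t, x (a t) + x (b t) - x (c t) = m t → w (a t) + w (b t) ≤ w (c t)) : False := by
  classical
  let L : τ → (I → ℝ) → ℝ := fun t x => x (a t) + x (b t) - x (c t)
  have hL : ∀ t, Continuous (L t) := by
    intro t
    change Continuous fun x : I → ℝ => x (a t) + x (b t) - x (c t)
    fun_prop
  let F : Set (I → ℝ) := {x | x i₀ = 0 ∧ ∀ t, m t ≤ L t x}
  have hF : IsClosed F := by
    have : F = {x | x i₀ = 0} ∩ ⋂ t, {x | m t ≤ L t x} := by ext x; simp [F]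
    rw [this]
    exact (isClosed_eq (continuous_apply _) continuous_const).inter
      (isClosed_iInter fun t => isClosed_le continuous_const (hL t))
  let f : (I → ℝ) → ℝ := fun x => ∑ i, Real.exp (x i)
  have hf : Continuous f := continuous_finsetSum _ fun i _ =>
    Real.continuous_exp.comp (continuous_apply i)
  obtain ⟨x0, hx0⟩ := hfeas
  have hK : IsCompact (F ∩ {x | f x ≤ f x0}) := by
    have hb1 : ∀ x ∈ F ∩ {x | f x ≤ f x0}, ∀ i, x i ≤ Real.log (f x0) := by
      rintro x ⟨-, hx⟩ i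
      have h1 : Real.exp (x i) ≤ f x :=
        Finset.single_le_sum (f := fun i => Real.exp (x i)) (fun i _ => (Real.exp_pos _).le)
          (Finset.mem_univ i)
      have h2 : Real.exp (x i) ≤ f x0 := h1.trans hx
      rwa [Real.le_log_iff_exp_le ((Real.exp_pos _).trans_le h2)]
    have hsub : F ∩ {x | f x ≤ f x0} ⊆
        Set.Icc (fun _ => -(∑ t, |m t|) - Real.log (f x0)) (fun _ => Real.log (f x0)) := by
      intro x hx
      refine ⟨fun i => ?_, fun i => hb1 x hx i⟩
      obtain ⟨t, ht1, ht2⟩ := hb i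
      have h1 := hx.1.2 t
      simp only [L] at h1
      rw [ht1, ht2, hx.1.1] at h1
      have h2 := hb1 x hx (b t)
      have h3 : |m t| ≤ ∑ t, |m t| :=
        Finset.single_le_sum (f := fun t => |m t|) (fun _ _ => abs_nonneg _) (Finset.mem_univ t)
      have h4 := neg_abs_le (m t)
      linarith
    exact isCompact_Icc.of_isClosed_subset (hF.inter (isClosed_le hf continuous_const)) hsub
  obtain ⟨x, hxK, hmin⟩ := hK.exists_isMinOn ⟨x0, hx0, le_refl (f x0)⟩ hf.continuousOn
  have hmin' : ∀ y ∈ F, f x ≤ f y := by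
    intro y hy
    by_cases h : f y ≤ f x0
    · exact hmin ⟨hy, h⟩
    · exact hxK.2.trans (le_of_not_ge h)
  let O : Set (I → ℝ) := ⋂ t ∈ Finset.univ.filter (fun t => m t < L t x), {y | m t < L t y}
  have hO : IsOpen O := isOpen_biInter_finset fun t _ => isOpen_lt continuous_const (hL t)
  have hxO : x ∈ O := by
    simp only [O, Set.mem_iInter]
    intro t ht
    exact (Finset.mem_filter.1 ht).2
  have hOmem : ∀ y ∈ O, ∀ t, m t < L t x → m t < L t y := by
    intro y hy t ht
    simp only [O, Set.mem_iInter] at hy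
    exact hy t (Finset.mem_filter.2 ⟨Finset.mem_univ _, ht⟩)
  obtain ⟨y, hyO, hyΓ, hy0, hyeq⟩ := exists_approx Γ hΓ x O hO hxO
  have hy_tight : ∀ t, L t x = m t → L t y = m t := by
    intro t ht
    have h1 : x (a t) + x (b t) - x (c t) ∈ Γ := by
      have : x (a t) + x (b t) - x (c t) = m t := ht
      rw [this]; exact hm t
    have h2 := hyeq _ _ _ h1
    simp only [L]
    rw [h2]; exact ht
  have hy00 : y i₀ = 0 := by
    rw [hy0 i₀ (by rw [hxK.1.1]; exact Γ.zero_mem), hxK.1.1]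
  have hyF : ∀ t, m t ≤ L t y := by
    intro t
    rcases (hxK.1.2 t).lt_or_eq with h | h
    · exact (hOmem y hyO t h).le
    · exact (hy_tight t h.symm).ge
  obtain ⟨w, hw0, hwn, ⟨i1, hi1⟩, hwt⟩ := himp y hyΓ hy00 hyF
  -- move in the direction of `-w`
  let P : ℝ → I → ℝ := fun ε i => x i - ε * w i
  have hP : Continuous P := continuous_pi fun i => continuous_const.sub
    (continuous_id.mul continuous_const)
  have hP0 : P 0 = x := by ext i; simp [P]
  have hev : ∀ᶠ ε in nhds (0 : ℝ), P ε ∈ O := by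
    have h1 : P ⁻¹' O ∈ nhds (0 : ℝ) := (hO.preimage hP).mem_nhds (by
      rw [Set.mem_preimage, hP0]; exact hxO)
    exact h1
  obtain ⟨ε, hε1, hε2⟩ := ((hev.filter_mono nhdsWithin_le_nhds).and
    (self_mem_nhdsWithin : Set.Ioi (0 : ℝ) ∈ nhdsWithin 0 (Set.Ioi 0))).exists
  have hε : 0 < ε := hε2
  have hPF : P ε ∈ F := by
    refine ⟨by simp [P, hxK.1.1, hw0], fun t => ?_⟩
    rcases (hxK.1.2 t).lt_or_eq with h | h
    · exact (hOmem _ hε1 t h).le
    · have h1 := hwt t (hy_tight t h.symm)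
      have h2 : L t (P ε) = L t x - ε * (w (a t) + w (b t) - w (c t)) := by
        simp only [L, P]; ring
      rw [h2, ← h]
      have h3 : ε * (w (a t) + w (b t) - w (c t)) ≤ 0 :=
        mul_nonpos_of_nonneg_of_nonpos hε.le (by linarith)
      linarith
  have hlt : f (P ε) < f x := by
    refine Finset.sum_lt_sum (fun i _ => ?_) ⟨i1, Finset.mem_univ _, ?_⟩
    · rw [Real.exp_le_exp]
      simp only [P]
      have := mul_nonneg hε.le (hwn i)
      linarith
    · rw [Real.exp_lt_exp]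
      simp only [P]
      have := mul_pos hε hi1
      linarith
  exact absurd (hmin' _ hPF) (not_le.2 hlt)

end Pool.Agent.W451.UGR
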