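import Pool.Agent.W451.UGR.Weights
import Pool.Agent.W451.UGR.Opt
import Pool.Agent.W451.UGR.Gamma

/-!
# Choosing the comparison isomorphisms
-/

set_option autoImplicit false
set_option linter.unusedSectionVars false

open CategoryTheory MonoidalCategory TensorProduct

namespace Pool.Agent.W451.UGR

universe v u v₁ u₁ v₂ u₂

section fin

variable {O : Type*} [CommRing O]
  {B : Type u₂} [Category.{v₂} B] [Preadditive B] [Linear O B] {I : Type*} {Y : I → B}

lemma fg_simple (hY : SimpleFam O Y) (i j : I) : Module.Finite O (Y i ⟶ Y j) := by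
  classical
  by_cases h : i = j
  · subst h
    refine Module.Finite.of_surjective (LinearMap.toSpanSingleton O (Y i ⟶ Y i) (𝟙 (Y i))) ?_
    intro f
    obtain ⟨r, hr⟩ := hY.scal f
    exact ⟨r, by rw [hr]; rfl⟩
  · have : Subsingleton (Y i ⟶ Y j) := ⟨fun f g => by rw [hY.zero h f, hY.zero h g]⟩
    infer_instance

lemma fg_hom (hY : SimpleFam O Y) {U V : B} (dU : Dec Y U) (dV : Dec Y V) :
    Module.Finite O (U ⟶ V) := by
  have := fg_simple hY
  let L : (∀ b : Fin dU.n, ∀ c : Fin dV.n, (Y (dU.t b) ⟶ Y (dV.t c))) →ₗ[O] (U ⟶ V) :=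
    { toFun := fun f => ∑ b, ∑ c, dU.prj b ≫ f b c ≫ dV.inc c
      map_add' := fun f g => by
        simp only [Pi.add_apply, Preadditive.add_comp, Preadditive.comp_add,
          Finset.sum_add_distrib]
      map_smul' := fun r f => by
        simp only [Pi.smul_apply, Linear.smul_comp, Linear.comp_smul, Finset.smul_sum,
          RingHom.id_apply] }
  refine Module.Finite.of_surjective L fun g => ⟨fun b c => dU.inc b ≫ g ≫ dV.prj c, ?_⟩
  change ∑ b, ∑ c, dU.prj b ≫ (dU.inc b ≫ g ≫ dV.prj c) ≫ dV.inc c = g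
  have h1 : ∀ b, ∑ c, dU.prj b ≫ (dU.inc b ≫ g ≫ dV.prj c) ≫ dV.inc c =
      dU.prj b ≫ dU.inc b ≫ g := by
    intro b
    conv_rhs => rw [dV.expand_right g, Preadditive.comp_sum, Preadditive.comp_sum]
    refine Finset.sum_congr rfl fun c _ => ?_
    simp only [Category.assoc]
  simp_rw [h1]
  exact (dU.expand_left g).symm

/-- A finite generating set. -/
lemma exists_gens (O : Type*) [CommRing O] (M : Type*) [AddCommGroup M] [Module O M]
    [Module.Finite O M] : ∃ S : Finset M, Submodule.span O (S : Set M) = ⊤ :=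
  Module.Finite.fg_top

end fin

/-- Rescaling an isomorphism. -/
@[simps]
def smulIso {K : Type*} [Field K] {E : Type*} [Category E] [Preadditive E] [Linear K E]
    {U V : E} (c : K) (hc : c ≠ 0) (e : U ≅ V) : U ≅ V where
  hom := c • e.hom
  inv := c⁻¹ • e.inv
  hom_inv_id := by
    rw [Linear.smul_comp, Linear.comp_smul, smul_smul, mul_inv_cancel₀ hc, one_smul,
      e.hom_inv_id]
  inv_hom_id := by
    rw [Linear.smul_comp, Linear.comp_smul, smul_smul, inv_mul_cancel₀ hc, one_smul,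
      e.inv_hom_id]

variable {O K : Type*} [CommRing O] [Field K] [Algebra O K]
  {A : Type u₁} [Category.{v₁} A] [Preadditive A] [Linear O A]
  {B : Type u₂} [Category.{v₂} B] [Preadditive B] [Linear O B]
  {E : Type u} [Category.{v} E] [Preadditive E] [Linear K E]
  {I : Type*}
  [MonoidalCategory A] [MonoidalPreadditive A] [MonoidalLinear O A]
  [MonoidalCategory B] [MonoidalPreadditive B] [MonoidalLinear O B]
  [MonoidalCategory E] [MonoidalPreadditive E] [MonoidalLinear K E]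
  {F : A ⥤ E} [F.Additive] [F.Monoidal] {G : B ⥤ E} [G.Additive] [G.Monoidal]
  {X : I → A} {Y : I → B}
  (fA : Form O K F X) (fB : Form O K G Y) (θ : ∀ i, G.obj (Y i) ≅ F.obj (X i))

include fA fB in
/-- Integrality needs to be checked on generators only. -/
lemma feas_of_gens (SB : ∀ i j l : I, Set (Y l ⟶ Y i ⊗ Y j)) (SA : ∀ i j l : I,
    Set (X i ⊗ X j ⟶ X l)) (hB : ∀ i j l, Submodule.span O (SB i j l) = ⊤)
    (hA : ∀ i j l, Submodule.span O (SA i j l) = ⊤)
    (h : ∀ i j l, ∀ q ∈ SB i j l, ∀ p ∈ SA i j l,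
      ∃ r : O, G.map q ≫ tens G F (θ i).hom (θ j).hom ≫ F.map p =
        algebraMap O K r • (θ l).hom) : Feas (K := K) O θ := by
  intro i j l q p
  have hq : q ∈ Submodule.span O (SB i j l) := by rw [hB]; trivial
  have hp : p ∈ Submodule.span O (SA i j l) := by rw [hA]; trivial
  induction hq using Submodule.span_induction with
  | zero => exact ⟨0, by simp⟩
  | add q q' _ _ h1 h2 =>
    obtain ⟨r, hr⟩ := h1
    obtain ⟨r', hr'⟩ := h2
    exact ⟨r + r', by rw [G.map_add, Preadditive.add_comp, hr, hr', map_add, add_smul]⟩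
  | smul a q _ h1 =>
    obtain ⟨r, hr⟩ := h1
    exact ⟨a * r, by rw [fB.smul, Linear.smul_comp, hr, smul_smul, map_mul]⟩
  | mem q hq =>
    induction hp using Submodule.span_induction with
    | zero => exact ⟨0, by simp⟩
    | add q q' _ _ h1 h2 =>
      obtain ⟨r, hr⟩ := h1
      obtain ⟨r', hr'⟩ := h2
      exact ⟨r + r', by
        rw [F.map_add, Preadditive.comp_add, Preadditive.comp_add, hr, hr', map_add, add_smul]⟩
    | smul a q _ h1 =>
      obtain ⟨r, hr⟩ := h1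
      exact ⟨a * r, by
        rw [fA.smul, Linear.comp_smul, Linear.comp_smul, hr, smul_smul, map_mul]⟩
    | mem p hp => exact h i j l q hq p hp

include fA fB in
/-- A nonvanishing pair of generators. -/
lemma exists_gens_ne_zero {i j l : I} (SB : Set (Y l ⟶ Y i ⊗ Y j)) (SA : Set (X i ⊗ X j ⟶ X l))
    (hB : Submodule.span O SB = ⊤) (hA : Submodule.span O SA = ⊤)
    (q : Y l ⟶ Y i ⊗ Y j) (p : X i ⊗ X j ⟶ X l)
    (h : G.map q ≫ tens G F (θ i).hom (θ j).hom ≫ F.map p ≠ 0) :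
    ∃ q ∈ SB, ∃ p ∈ SA, G.map q ≫ tens G F (θ i).hom (θ j).hom ≫ F.map p ≠ 0 := by
  by_contra hcon
  push Not at hcon
  apply h
  have hq : q ∈ Submodule.span O SB := by rw [hB]; trivial
  have hp : p ∈ Submodule.span O SA := by rw [hA]; trivial
  clear h
  induction hq using Submodule.span_induction with
  | zero => simp
  | add q q' _ _ h1 h2 => rw [G.map_add, Preadditive.add_comp, h1, h2, add_zero]
  | smul a q _ h1 => rw [fB.smul, Linear.smul_comp, h1, smul_zero]
  | mem q hq =>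
    induction hp using Submodule.span_induction with
    | zero => simp
    | add q q' _ _ h1 h2 =>
      rw [F.map_add, Preadditive.comp_add, Preadditive.comp_add, h1, h2, add_zero]
    | smul a q _ h1 => rw [fA.smul, Linear.comp_smul, Linear.comp_smul, h1, smul_zero]
    | mem p hp => exact hcon q hq p hp

section

variable {i₀ : I} (eA : X i₀ ≅ 𝟙_ A) (eB : Y i₀ ≅ 𝟙_ B)
  (hθ : G.map eB.hom ≫ uu G F = (θ i₀).hom ≫ F.map eA.hom)

include fA fB hθ in
lemma unit_left_scalar {j l : I} (q : Y l ⟶ Y i₀ ⊗ Y j) (p : X i₀ ⊗ X j ⟶ X l)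
    (hne : G.map q ≫ tens G F (θ i₀).hom (θ j).hom ≫ F.map p ≠ 0) :
    j = l ∧ ∃ r : O, G.map q ≫ tens G F (θ i₀).hom (θ j).hom ≫ F.map p =
      algebraMap O K r • (θ l).hom := by
  have h1 : tens G F (θ i₀).hom (θ j).hom =
      G.map (eB.hom ▷ Y j ≫ (λ_ (Y j)).hom) ≫ (θ j).hom ≫
        F.map ((λ_ (X j)).inv ≫ eA.inv ▷ X j) := by
    rw [G.map_comp, Category.assoc, ← uu_tens_assoc, map_whiskerRight_tens_assoc, hθ,
      ← tens_map_whiskerRight_assoc, ← F.map_comp, ← F.map_comp]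
    simp
  have h2 : G.map q ≫ tens G F (θ i₀).hom (θ j).hom ≫ F.map p =
      G.map (q ≫ eB.hom ▷ Y j ≫ (λ_ (Y j)).hom) ≫ (θ j).hom ≫
        F.map (((λ_ (X j)).inv ≫ eA.inv ▷ X j) ≫ p) := by
    rw [h1, G.map_comp q, F.map_comp ((λ_ (X j)).inv ≫ eA.inv ▷ X j)]
    simp only [Category.assoc]
  rw [h2] at hne ⊢
  generalize q ≫ eB.hom ▷ Y j ≫ (λ_ (Y j)).hom = q' at hne ⊢
  generalize ((λ_ (X j)).inv ≫ eA.inv ▷ X j) ≫ p = p' at hne ⊢
  by_cases hjl : j = l
  · subst hjl
    refine ⟨rfl, ?_⟩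
    obtain ⟨r, rfl⟩ := fB.simple.scal q'
    obtain ⟨s, rfl⟩ := fA.simple.scal p'
    refine ⟨r * s, ?_⟩
    rw [fB.smul, fA.smul, G.map_id, F.map_id, Linear.smul_comp, Linear.comp_smul,
      Linear.comp_smul, smul_smul, Category.id_comp, Category.comp_id, map_mul]
  · exfalso
    apply hne
    rw [fA.simple.zero hjl p', F.map_zero, Limits.comp_zero, Limits.comp_zero]

include fA fB hθ in
lemma unit_right_scalar {j l : I} (q : Y l ⟶ Y j ⊗ Y i₀) (p : X j ⊗ X i₀ ⟶ X l)
    (hne : G.map q ≫ tens G F (θ j).hom (θ i₀).hom ≫ F.map p ≠ 0) :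
    j = l ∧ ∃ r : O, G.map q ≫ tens G F (θ j).hom (θ i₀).hom ≫ F.map p =
      algebraMap O K r • (θ l).hom := by
  have h1 : tens G F (θ j).hom (θ i₀).hom =
      G.map (Y j ◁ eB.hom ≫ (ρ_ (Y j)).hom) ≫ (θ j).hom ≫
        F.map ((ρ_ (X j)).inv ≫ X j ◁ eA.inv) := by
    rw [G.map_comp, Category.assoc, ← tens_uu_assoc, map_whiskerLeft_tens_assoc, hθ,
      ← tens_map_whiskerLeft_assoc, ← F.map_comp, ← F.map_comp]
    simp
  have h2 : G.map q ≫ tens G F (θ j).hom (θ i₀).hom ≫ F.map p =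
      G.map (q ≫ Y j ◁ eB.hom ≫ (ρ_ (Y j)).hom) ≫ (θ j).hom ≫
        F.map (((ρ_ (X j)).inv ≫ X j ◁ eA.inv) ≫ p) := by
    rw [h1, G.map_comp q, F.map_comp ((ρ_ (X j)).inv ≫ X j ◁ eA.inv)]
    simp only [Category.assoc]
  rw [h2] at hne ⊢
  generalize q ≫ Y j ◁ eB.hom ≫ (ρ_ (Y j)).hom = q' at hne ⊢
  generalize ((ρ_ (X j)).inv ≫ X j ◁ eA.inv) ≫ p = p' at hne ⊢
  by_cases hjl : j = l
  · subst hjl
    refine ⟨rfl, ?_⟩
    obtain ⟨r, rfl⟩ := fB.simple.scal q'
    obtain ⟨s, rfl⟩ := fA.simple.scal p'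
    refine ⟨r * s, ?_⟩
    rw [fB.smul, fA.smul, G.map_id, F.map_id, Linear.smul_comp, Linear.comp_smul,
      Linear.comp_smul, smul_smul, Category.id_comp, Category.comp_id, map_mul]
  · exfalso
    apply hne
    rw [fA.simple.zero hjl p', F.map_zero, Limits.comp_zero, Limits.comp_zero]

variable {st : I → I} [∀ i, ExactPairing (Y i) (Y (st i))]

include fA fB eB in
/-- The unit occurs in the tensor product of an object and its dual. -/
lemma exists_dual_ne_zero [Nontrivial O] (hinj : Function.Injective (algebraMap O K)) (i : I) :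
    ∃ (q : Y i₀ ⟶ Y i ⊗ Y (st i)) (p : X i ⊗ X (st i) ⟶ X i₀),
      G.map q ≫ tens G F (θ i).hom (θ (st i)).hom ≫ F.map p ≠ 0 := by
  by_contra hcon
  push Not at hcon
  let φ := G.map (eB.hom ≫ η_ (Y i) (Y (st i))) ≫ tens G F (θ i).hom (θ (st i)).hom
  have hφ : φ = 0 := by
    let d := fA.dec (X i ⊗ X (st i))
    have h1 : φ = ∑ b, (φ ≫ F.map (d.prj b)) ≫ F.map (d.inc b) := by
      have : ∀ b, (φ ≫ F.map (d.prj b)) ≫ F.map (d.inc b) = φ ≫ F.map (d.prj b ≫ d.inc b) := by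
        intro b; simp
      simp_rw [this]
      rw [← Preadditive.comp_sum, ← F.map_sum, d.sum, F.map_id, Category.comp_id]
    rw [h1]
    refine Finset.sum_eq_zero fun b _ => ?_
    have h2 : ∀ (l : I) (p : X i ⊗ X (st i) ⟶ X l), φ ≫ F.map p = 0 := by
      intro l p
      by_cases hl : i₀ = l
      · subst hl
        have := hcon (eB.hom ≫ η_ (Y i) (Y (st i))) p
        simpa [φ] using this
      · exact hom_zero fA θ hl _
    rw [h2, Limits.zero_comp]
  have h2 : G.map (eB.hom ≫ η_ (Y i) (Y (st i))) = 0 := by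
    have h3 := congrArg (· ≫ (tensIso G F (θ i) (θ (st i))).inv) hφ
    simp only [Limits.zero_comp] at h3
    have h4 : φ ≫ (tensIso G F (θ i) (θ (st i))).inv =
        G.map (eB.hom ≫ η_ (Y i) (Y (st i))) := by
      change (G.map (eB.hom ≫ η_ (Y i) (Y (st i))) ≫ (tensIso G F (θ i) (θ (st i))).hom) ≫
        (tensIso G F (θ i) (θ (st i))).inv = _
      rw [Category.assoc, Iso.hom_inv_id, Category.comp_id]
    exact h4.symm.trans h3
  have h3 : eB.hom ≫ η_ (Y i) (Y (st i)) = 0 := fB.faithful hinj (by rw [h2, G.map_zero])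
  have h4 : η_ (Y i) (Y (st i)) = 0 := by
    rw [← cancel_epi eB.hom, h3, Limits.comp_zero]
  have h5 : (λ_ (Y i)).hom ≫ (ρ_ (Y i)).inv = 0 := by
    rw [← ExactPairing.evaluation_coevaluation (Y i) (Y (st i)), h4]; simp
  have h6 : 𝟙 (Y i) = 0 := by
    have : 𝟙 (Y i) = (λ_ (Y i)).inv ≫ ((λ_ (Y i)).hom ≫ (ρ_ (Y i)).inv) ≫
        (ρ_ (Y i)).hom := by simp
    rw [this, h5]; simp
  exact one_ne_zero (fB.simple.inj (i := i) (1 : O) (by rw [one_smul, h6]))

end


section main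

variable [Fintype I] [DecidableEq I] {i₀ : I} (eA : X i₀ ≅ 𝟙_ A) (eB : Y i₀ ≅ 𝟙_ B)
  {st : I → I} [∀ i, ExactPairing (X i) (X (st i))] [∀ i, ExactPairing (Y i) (Y (st i))]
  (v : AbsoluteValue K ℝ)
  {k : Type*} [Field k] [Algebra O k]

include fA fB in
/-- The comparison isomorphisms can be rescaled such that they are compatible with the tensor
products and with the dualities. -/
theorem exists_unimodular [Nontrivial O] (hinj : Function.Injective (algebraMap O K))
    (hsurj : Function.Surjective (algebraMap O k))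
    (hk : ∀ r : O, algebraMap O k r = 0 ↔ ¬ IsUnit r)
    (hv : ∀ x : K, v x ≤ 1 ↔ ∃ r : O, algebraMap O K r = x)
    (hvu : ∀ r : O, IsUnit r ↔ v (algebraMap O K r) = 1)
    (hdiv : ∀ x : K, x ≠ 0 → ∀ n : ℕ, 0 < n → ∃ y : K, v y ^ n = v x)
    (hnt : ∃ x : K, x ≠ 0 ∧ v x ≠ 1)
    (hθ : G.map eB.hom ≫ uu G F = (θ i₀).hom ≫ F.map eA.hom) :
    ∃ θ' : ∀ i, G.obj (Y i) ≅ F.obj (X i),
      G.map eB.hom ≫ uu G F = (θ' i₀).hom ≫ F.map eA.hom ∧ Feas (K := K) O θ' ∧
      ∀ i, ∃ a : O, IsUnit a ∧ IsScal G F θ' st i (algebraMap O K a) := by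
  classical
  by_contra hcon
  push Not at hcon
  -- generators
  have hfB : ∀ i j l, Module.Finite O (Y l ⟶ Y i ⊗ Y j) := fun i j l =>
    fg_hom fB.simple (fB.dec _) (fB.dec _)
  have hfA : ∀ i j l, Module.Finite O (X i ⊗ X j ⟶ X l) := fun i j l =>
    fg_hom fA.simple (fA.dec _) (fA.dec _)
  choose SB hSB using fun i j l => exists_gens O (Y l ⟶ Y i ⊗ Y j)
  choose SA hSA using fun i j l => exists_gens O (X i ⊗ X j ⟶ X l)
  -- the scalars
  choose c hc using fun (i j l : I) (q : Y l ⟶ Y i ⊗ Y j) (p : X i ⊗ X j ⟶ X l) =>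
    hom_scalar fA θ (G.map q ≫ tens G F (θ i).hom (θ j).hom ≫ F.map p)
  let τ := {s : Σ ijl : I × I × I, (SB ijl.1 ijl.2.1 ijl.2.2) × (SA ijl.1 ijl.2.1 ijl.2.2) //
    c s.1.1 s.1.2.1 s.1.2.2 s.2.1.1 s.2.2.1 ≠ 0}
  let a : τ → I := fun t => t.1.1.1
  let b : τ → I := fun t => t.1.1.2.1
  let d : τ → I := fun t => t.1.1.2.2
  let m : τ → ℝ := fun t => Real.log (v (c _ _ _ t.1.2.1.1 t.1.2.2.1))
  have hcne : ∀ {i j l : I} (q : Y l ⟶ Y i ⊗ Y j) (p : X i ⊗ X j ⟶ X l),
      c i j l q p ≠ 0 ↔ G.map q ≫ tens G F (θ i).hom (θ j).hom ≫ F.map p ≠ 0 := by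
    intro i j l q p
    rw [hc]
    constructor
    · intro h1 h2
      exact h1 (scalar_eq_zero fA θ h2)
    · intro h1 h2
      rw [h2, zero_smul] at h1
      exact h1 rfl
  have hm_unit : ∀ t : τ, (a t = i₀ → b t = d t ∧ m t ≤ 0) ∧ (b t = i₀ → a t = d t ∧ m t ≤ 0) := by
    rintro ⟨⟨⟨i, j, l⟩, ⟨q, hq⟩, ⟨p, hp⟩⟩, hne⟩
    have hne' : c i j l q p ≠ 0 := hne
    have hlog : ∀ r : O, c i j l q p = algebraMap O K r → Real.log (v (c i j l q p)) ≤ 0 := by
      intro r hr
      refine Real.log_nonpos (v.nonneg _) ((hv _).2 ⟨r, hr.symm⟩)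
    constructor
    · intro hi
      change i = i₀ at hi
      subst hi
      obtain ⟨h1, r, hr⟩ := unit_left_scalar fA fB θ eA eB hθ q p ((hcne q p).1 hne')
      refine ⟨h1, hlog r ?_⟩
      rw [hc, ← sub_eq_zero, ← sub_smul] at hr
      exact sub_eq_zero.1 (scalar_eq_zero fA θ hr)
    · intro hi
      change j = i₀ at hi
      subst hi
      obtain ⟨h1, r, hr⟩ := unit_right_scalar fA fB θ eA eB hθ q p ((hcne q p).1 hne')
      refine ⟨h1, hlog r ?_⟩
      rw [hc, ← sub_eq_zero, ← sub_smul] at hr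
      exact sub_eq_zero.1 (scalar_eq_zero fA θ hr)
  refine optimize i₀ a b d m (valueSpace v hdiv) (dense_valueSpace v hdiv hnt)
    (fun t => ⟨_, t.2, rfl⟩) ?_ ?_ ?_
  · -- a feasible point
    let L : ℝ := ∑ t, |m t|
    have hL : ∀ t, m t ≤ L := fun t => (le_abs_self _).trans
      (Finset.single_le_sum (f := fun t => |m t|) (fun _ _ => abs_nonneg _) (Finset.mem_univ t))
    have hL0 : 0 ≤ L := Finset.sum_nonneg fun _ _ => abs_nonneg _
    refine ⟨fun i => if i = i₀ then 0 else L, by simp, fun t => ?_⟩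
    obtain ⟨h1, h2⟩ := hm_unit t
    have h3 := hL t
    by_cases ha : a t = i₀
    · obtain ⟨h4, h5⟩ := h1 ha
      rw [ha, h4]
      simp only [if_true]
      linarith
    · by_cases hb : b t = i₀
      · obtain ⟨h4, h5⟩ := h2 hb
        rw [hb, h4]
        simp only [if_true]
        linarith
      · simp only [if_neg ha, if_neg hb]
        split_ifs <;> linarith
  · intro i
    obtain ⟨q, p, hqp⟩ := exists_dual_ne_zero (st := st) fA fB θ eB hinj i
    obtain ⟨q', hq', p', hp', hne⟩ := exists_gens_ne_zero fA fB θ _ _ (hSB i (st i) i₀)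
      (hSA i (st i) i₀) q p hqp
    exact ⟨⟨⟨⟨i, st i, i₀⟩, ⟨q', hq'⟩, ⟨p', hp'⟩⟩, (hcne q' p').2 hne⟩, rfl, rfl⟩
  · intro x hxΓ hx0 hx
    -- rescaled isomorphisms
    have hlam : ∀ i, ∃ z : K, z ≠ 0 ∧ Real.log (v z) = - x i ∧ (i = i₀ → z = 1) := by
      intro i
      by_cases hi : i = i₀
      · exact ⟨1, one_ne_zero, by rw [hi, hx0]; simp, fun _ => rfl⟩
      · obtain ⟨z, hz, hz'⟩ := (valueSpace v hdiv).neg_mem (hxΓ i)
        exact ⟨z, hz, hz', fun h => absurd h hi⟩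
    choose z hz0 hzlog hz1 using hlam
    let θ' : ∀ i, G.obj (Y i) ≅ F.obj (X i) := fun i => smulIso (z i) (hz0 i) (θ i)
    have hθ' : G.map eB.hom ≫ uu G F = (θ' i₀).hom ≫ F.map eA.hom := by
      rw [hθ]
      change _ = (z i₀ • (θ i₀).hom) ≫ F.map eA.hom
      rw [hz1 i₀ rfl, one_smul]
    have hscal : ∀ {i j l : I} (q : Y l ⟶ Y i ⊗ Y j) (p : X i ⊗ X j ⟶ X l),
        G.map q ≫ tens G F (θ' i).hom (θ' j).hom ≫ F.map p =
          (z i * z j * c i j l q p * (z l)⁻¹) • (θ' l).hom := by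
      intro i j l q p
      change G.map q ≫ tens G F (z i • (θ i).hom) (z j • (θ j).hom) ≫ F.map p =
        (z i * z j * c i j l q p * (z l)⁻¹) • (z l • (θ l).hom)
      rw [smul_tens, tens_smul, smul_smul, Linear.smul_comp, Linear.comp_smul, hc, smul_smul,
        smul_smul, mul_assoc _ (z l)⁻¹, inv_mul_cancel₀ (hz0 l), mul_one]
    have hval : ∀ t : τ, Real.log (v (z (a t) * z (b t) * c _ _ _ t.1.2.1.1 t.1.2.2.1 *
        (z (d t))⁻¹)) = m t - (x (a t) + x (b t) - x (d t)) := by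
      intro t
      rw [map_mul, map_mul, map_mul, map_inv₀, Real.log_mul, Real.log_mul, Real.log_mul,
        Real.log_inv, hzlog, hzlog, hzlog]
      · ring
      · exact v.ne_zero (hz0 _)
      · exact v.ne_zero (hz0 _)
      · exact mul_ne_zero (v.ne_zero (hz0 _)) (v.ne_zero (hz0 _))
      · exact v.ne_zero t.2
      · exact mul_ne_zero (mul_ne_zero (v.ne_zero (hz0 _)) (v.ne_zero (hz0 _))) (v.ne_zero t.2)
      · exact inv_ne_zero (v.ne_zero (hz0 _))
    have hne0 : ∀ t : τ, z (a t) * z (b t) * c _ _ _ t.1.2.1.1 t.1.2.2.1 * (z (d t))⁻¹ ≠ 0 :=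
      fun t => mul_ne_zero (mul_ne_zero (mul_ne_zero (hz0 _) (hz0 _)) t.2) (inv_ne_zero (hz0 _))
    have hfeas : Feas (K := K) O θ' := by
      refine feas_of_gens fA fB θ' (fun i j l => SB i j l) (fun i j l => SA i j l) hSB hSA ?_
      intro i j l q hq p hp
      by_cases h0 : c i j l q p = 0
      · refine ⟨0, ?_⟩
        rw [hscal, h0]
        simp
      · let t : τ := ⟨⟨⟨i, j, l⟩, ⟨q, hq⟩, ⟨p, hp⟩⟩, h0⟩
        have h1 := hval t
        have h2 := hx t
        have h3 : v (z i * z j * c i j l q p * (z l)⁻¹) ≤ 1 := by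
          rw [← Real.log_nonpos_iff (v.nonneg _)]
          have : Real.log (v (z i * z j * c i j l q p * (z l)⁻¹)) =
            m t - (x (a t) + x (b t) - x (d t)) := h1
          rw [this]
          linarith
        obtain ⟨r, hr⟩ := (hv _).1 h3
        exact ⟨r, by rw [hscal, hr]⟩
    -- the scalars of the dualities
    choose s hs using fun i => exists_scalars fA fB hfeas eA eB hθ' (st := st) i
    have hsc : ∀ i, IsScal G F θ' st i (algebraMap O K (s i)) := hs
    obtain ⟨i1, hi1⟩ := hcon θ' hθ' hfeas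
    have hi1' : ¬ IsUnit (s i1) := fun hu => hi1 (s i1) hu (hsc i1)
    have hle1 : ∀ i, v (algebraMap O K (s i)) ≤ 1 := fun i => (hv _).2 ⟨s i, rfl⟩
    obtain ⟨i2, -, hi2⟩ := Finset.exists_min_image Finset.univ
      (fun i => v (algebraMap O K (s i))) ⟨i₀, Finset.mem_univ _⟩
    have hlt : v (algebraMap O K (s i2)) < 1 := by
      refine lt_of_le_of_lt (hi2 i1 (Finset.mem_univ _)) (lt_of_le_of_ne (hle1 i1) ?_)
      intro h1
      exact hi1' ((hvu _).2 h1)
    have hdvd : ∀ {r r' : O}, r ∣ r' → v (algebraMap O K r') ≤ v (algebraMap O K r) := by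
      rintro r r' ⟨r'', rfl⟩
      rw [map_mul, map_mul]
      have h1 : v (algebraMap O K r'') ≤ 1 := (hv _).2 ⟨r'', rfl⟩
      exact mul_le_of_le_one_right (v.nonneg _) h1
    let Q : Finset I := Finset.univ.filter fun i =>
      v (algebraMap O K (s i)) ≤ v (algebraMap O K (s i2))
    have h0 : i₀ ∉ Q := by
      intro hmem
      have h1 := (Finset.mem_filter.1 hmem).2
      have h2 : IsUnit (s i₀) := scal_unit fA fB eA eB hθ' hinj (hsc i₀).2
      rw [(hvu _).1 h2] at h1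
      linarith
    have hQ : ∀ i j l, (i ∈ Q ∨ j ∈ Q) → Tight (K := K) O θ' i j l → l ∈ Q := by
      intro i j l hij ht
      refine Finset.mem_filter.2 ⟨Finset.mem_univ _, ?_⟩
      rcases hij with h1 | h1
      · exact (hdvd (tight_left fA fB hfeas hinj ht (hsc i) (hsc l))).trans
          (Finset.mem_filter.1 h1).2
      · exact (hdvd (tight_right fA fB hfeas hinj ht (hsc j) (hsc l))).trans
          (Finset.mem_filter.1 h1).2
    obtain ⟨w, hw0, hw1, hw⟩ := exists_weights (k := k) (st := st) fA fB hfeas hinj hsurj hk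
      eA eB hθ' Q h0 hQ
    refine ⟨fun i => (w i : ℝ), ?_, fun i => Nat.cast_nonneg _, ⟨i2, ?_⟩, ?_⟩
    · change (w i₀ : ℝ) = 0
      rw [hw0 i₀ h0]; simp
    · have h1 := hw1 i2 (Finset.mem_filter.2 ⟨Finset.mem_univ _, le_rfl⟩)
      change (0 : ℝ) < (w i2 : ℝ)
      exact_mod_cast h1
    · intro t ht
      have h1 := hval t
      rw [ht, sub_self] at h1
      have h2 : v (z (a t) * z (b t) * c _ _ _ t.1.2.1.1 t.1.2.2.1 * (z (d t))⁻¹) = 1 := by
        rcases Real.log_eq_zero.1 h1 with h | h | h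
        · exact absurd h (v.ne_zero (hne0 t))
        · exact h
        · have := v.nonneg (z (a t) * z (b t) * c _ _ _ t.1.2.1.1 t.1.2.2.1 * (z (d t))⁻¹)
          linarith
      obtain ⟨r, hr⟩ := (hv _).1 h2.le
      have h3 : Tight (K := K) O θ' (a t) (b t) (d t) := by
        refine ⟨t.1.2.1.1, t.1.2.2.1, r, ?_, ?_⟩
        · rw [hvu, hr, h2]
        · rw [hr]
          exact hscal _ _
      have h4 := hw _ _ _ h3
      change (w (a t) : ℝ) + (w (b t) : ℝ) ≤ (w (d t) : ℝ)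
      exact_mod_cast h4

end main

end Pool.Agent.W451.UGR
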