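import Mathlib

/-!
# Consequences of exact pairings
-/

set_option autoImplicit false

open CategoryTheory MonoidalCategory

namespace Pool.Agent.W451.UGR

universe v u

variable {C : Type u} [Category.{v} C] [MonoidalCategory C]

/-- Every morphism from the unit to `X ⊗ W` factors through the coevaluation. -/
lemma exists_coev_comp (X Y : C) [ExactPairing X Y] {W : C} (g : 𝟙_ C ⟶ X ⊗ W) :
    ∃ h : Y ⟶ W, g = η_ X Y ≫ X ◁ h := by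
  refine ⟨(ρ_ Y).inv ≫ (tensorLeftHomEquiv (𝟙_ C) X Y W).symm g, ?_⟩
  conv_lhs => rw [← (tensorLeftHomEquiv (𝟙_ C) X Y W).apply_symm_apply g]
  generalize (tensorLeftHomEquiv (𝟙_ C) X Y W).symm g = f
  change (λ_ _).inv ≫ η_ _ _ ▷ _ ≫ (α_ _ _ _).hom ≫ _ ◁ f = _
  rw [MonoidalCategory.whiskerLeft_comp]
  have : (λ_ (𝟙_ C)).inv ≫ η_ X Y ▷ (𝟙_ C) ≫ (α_ X Y (𝟙_ C)).hom = η_ X Y ≫ X ◁ (ρ_ Y).inv := by
    have h1 : (λ_ (𝟙_ C)).inv ≫ η_ X Y ▷ (𝟙_ C) = η_ X Y ≫ (ρ_ (X ⊗ Y)).inv := by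
      rw [unitors_inv_equal, ← rightUnitor_inv_naturality]
    rw [reassoc_of% h1]
    simp
  rw [reassoc_of% this]

/-- Every morphism from `W ⊗ X` to the unit factors through the evaluation. -/
lemma exists_comp_ev (X Y : C) [ExactPairing X Y] {W : C} (g : W ⊗ X ⟶ 𝟙_ C) :
    ∃ h : W ⟶ Y, g = h ▷ X ≫ ε_ X Y := by
  refine ⟨tensorRightHomEquiv W X Y (𝟙_ C) g ≫ (λ_ Y).hom, ?_⟩
  conv_lhs => rw [← (tensorRightHomEquiv W X Y (𝟙_ C)).symm_apply_apply g]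
  generalize tensorRightHomEquiv W X Y (𝟙_ C) g = f
  change f ▷ _ ≫ (α_ _ _ _).hom ≫ _ ◁ ε_ _ _ ≫ (ρ_ _).hom = _
  rw [comp_whiskerRight, Category.assoc]
  congr 1
  have h1 : (𝟙_ C) ◁ ε_ X Y ≫ (ρ_ (𝟙_ C)).hom = (λ_ (Y ⊗ X)).hom ≫ ε_ X Y := by
    rw [← unitors_equal, leftUnitor_naturality]
  rw [h1]
  simp

/-- Transposition of a morphism along an exact pairing. -/
lemma exists_transpose (X Y : C) [ExactPairing X Y] {Z W : C} (n : Z ⟶ X ⊗ W) :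
    ∃ m : Y ⊗ Z ⟶ W, (λ_ Z).inv ≫ η_ X Y ▷ Z ≫ (α_ X Y Z).hom ≫ X ◁ m = n :=
  ⟨(tensorLeftHomEquiv Z X Y W).symm n, (tensorLeftHomEquiv Z X Y W).apply_symm_apply n⟩

end Pool.Agent.W451.UGR
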