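import Mathlib

/-!
# Tensor products of morphisms between the values of monoidal functors
-/

set_option autoImplicit false
set_option linter.unusedSectionVars false

open CategoryTheory MonoidalCategory Functor.LaxMonoidal Functor.OplaxMonoidal

namespace Pool.Agent.W451.UGR

universe v u v₁ u₁ v₂ u₂ v₃ u₃

variable {E : Type u} [Category.{v} E] [MonoidalCategory E]
  {A : Type u₁} [Category.{v₁} A] [MonoidalCategory A]
  {B : Type u₂} [Category.{v₂} B] [MonoidalCategory B]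
  {C : Type u₃} [Category.{v₃} C] [MonoidalCategory C]

section

variable (F : A ⥤ E) (G : B ⥤ E) (H : C ⥤ E) [F.Monoidal] [G.Monoidal] [H.Monoidal]

/-- The tensor product of morphisms from the values of `F` to the values of `G`. -/
def tens {X X' : A} {Y Y' : B} (f : F.obj X ⟶ G.obj Y) (f' : F.obj X' ⟶ G.obj Y') :
    F.obj (X ⊗ X') ⟶ G.obj (Y ⊗ Y') :=
  δ F X X' ≫ (f ⊗ₘ f') ≫ μ G Y Y'

/-- The canonical morphism between the values on the units. -/
def uu : F.obj (𝟙_ A) ⟶ G.obj (𝟙_ B) := η F ≫ ε G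

@[reassoc]
lemma tens_comp {X X' : A} {Y Y' : B} {Z Z' : C} (f : F.obj X ⟶ G.obj Y)
    (f' : F.obj X' ⟶ G.obj Y') (g : G.obj Y ⟶ H.obj Z) (g' : G.obj Y' ⟶ H.obj Z') :
    tens F G f f' ≫ tens G H g g' = tens F H (f ≫ g) (f' ≫ g') := by
  simp [tens]

lemma tens_map {X X' Y Y' : A} (f : X ⟶ Y) (f' : X' ⟶ Y') :
    tens F F (F.map f) (F.map f') = F.map (f ⊗ₘ f') := by
  simp [tens]

lemma tens_id (X X' : A) : tens F F (𝟙 (F.obj X)) (𝟙 (F.obj X')) = 𝟙 _ := by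
  simp [tens]

@[reassoc]
lemma map_tens {X X' Y Y' : A} {Z Z' : B} (a : X ⟶ Y) (a' : X' ⟶ Y')
    (f : F.obj Y ⟶ G.obj Z) (f' : F.obj Y' ⟶ G.obj Z') :
    F.map (a ⊗ₘ a') ≫ tens F G f f' = tens F G (F.map a ≫ f) (F.map a' ≫ f') := by
  rw [← tens_map, tens_comp]

@[reassoc]
lemma tens_map_right {X X' : A} {Y Y' Z Z' : B} (f : F.obj X ⟶ G.obj Y)
    (f' : F.obj X' ⟶ G.obj Y') (b : Y ⟶ Z) (b' : Y' ⟶ Z') :
    tens F G f f' ≫ G.map (b ⊗ₘ b') = tens F G (f ≫ G.map b) (f' ≫ G.map b') := by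
  rw [← tens_map, tens_comp]

@[reassoc]
lemma map_whiskerRight_tens {X X' Y : A} {Z Z' : B} (a : X ⟶ Y)
    (f : F.obj Y ⟶ G.obj Z) (f' : F.obj X' ⟶ G.obj Z') :
    F.map (a ▷ X') ≫ tens F G f f' = tens F G (F.map a ≫ f) f' := by
  rw [← tensorHom_id, map_tens, F.map_id, Category.id_comp]

@[reassoc]
lemma map_whiskerLeft_tens {X X' Y : A} {Z Z' : B} (a : X' ⟶ Y)
    (f : F.obj X ⟶ G.obj Z) (f' : F.obj Y ⟶ G.obj Z') :
    F.map (X ◁ a) ≫ tens F G f f' = tens F G f (F.map a ≫ f') := by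
  rw [← id_tensorHom, map_tens, F.map_id, Category.id_comp]

@[reassoc]
lemma tens_map_whiskerRight {X X' : A} {Y Y' Z : B} (f : F.obj X ⟶ G.obj Y)
    (f' : F.obj X' ⟶ G.obj Y') (b : Y ⟶ Z) :
    tens F G f f' ≫ G.map (b ▷ Y') = tens F G (f ≫ G.map b) f' := by
  rw [← tensorHom_id, tens_map_right, G.map_id, Category.comp_id]

@[reassoc]
lemma tens_map_whiskerLeft {X X' : A} {Y Y' Z : B} (f : F.obj X ⟶ G.obj Y)
    (f' : F.obj X' ⟶ G.obj Y') (b : Y' ⟶ Z) :
    tens F G f f' ≫ G.map (Y ◁ b) = tens F G f (f' ≫ G.map b) := by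
  rw [← id_tensorHom, tens_map_right, G.map_id, Category.comp_id]

@[reassoc]
lemma tens_assoc {X X' X'' : A} {Y Y' Y'' : B} (f : F.obj X ⟶ G.obj Y)
    (f' : F.obj X' ⟶ G.obj Y') (f'' : F.obj X'' ⟶ G.obj Y'') :
    F.map (α_ X X' X'').hom ≫ tens F G f (tens F G f' f'') =
      tens F G (tens F G f f') f'' ≫ G.map (α_ Y Y' Y'').hom := by
  simp only [tens]
  have h1 : (f ⊗ₘ δ F X' X'' ≫ (f' ⊗ₘ f'') ≫ μ G Y' Y'') =
      F.obj X ◁ δ F X' X'' ≫ (f ⊗ₘ (f' ⊗ₘ f'')) ≫ G.obj Y ◁ μ G Y' Y'' := by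
    rw [← id_tensorHom, ← id_tensorHom, tensorHom_comp_tensorHom, tensorHom_comp_tensorHom,
      Category.comp_id, Category.id_comp]
  have h2 : ((δ F X X' ≫ (f ⊗ₘ f') ≫ μ G Y Y') ⊗ₘ f'') =
      δ F X X' ▷ F.obj X'' ≫ ((f ⊗ₘ f') ⊗ₘ f'') ≫ μ G Y Y' ▷ G.obj Y'' := by
    rw [← tensorHom_id, ← tensorHom_id, tensorHom_comp_tensorHom, tensorHom_comp_tensorHom,
      Category.comp_id, Category.id_comp]
  rw [h1, h2]
  simp only [Category.assoc]
  rw [Functor.LaxMonoidal.associativity, MonoidalCategory.associator_naturality_assoc,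
    Functor.OplaxMonoidal.associativity_assoc]

@[reassoc]
lemma tens_assoc_inv {X X' X'' : A} {Y Y' Y'' : B} (f : F.obj X ⟶ G.obj Y)
    (f' : F.obj X' ⟶ G.obj Y') (f'' : F.obj X'' ⟶ G.obj Y'') :
    F.map (α_ X X' X'').inv ≫ tens F G (tens F G f f') f'' =
      tens F G f (tens F G f' f'') ≫ G.map (α_ Y Y' Y'').inv := by
  rw [← cancel_epi (F.map (α_ X X' X'').hom), ← cancel_mono (G.map (α_ Y Y' Y'').hom)]
  simp only [Category.assoc, ← F.map_comp_assoc, ← G.map_comp, Iso.hom_inv_id, Iso.inv_hom_id,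
    F.map_id, G.map_id, Category.comp_id, Category.id_comp]
  rw [tens_assoc]

@[reassoc]
lemma uu_tens {X : A} {Y : B} (f : F.obj X ⟶ G.obj Y) :
    tens F G (uu F G) f ≫ G.map (λ_ Y).hom = F.map (λ_ X).hom ≫ f := by
  simp only [tens, uu]
  have h1 : (η F ≫ ε G ⊗ₘ f) = η F ▷ F.obj X ≫ (𝟙_ E) ◁ f ≫ ε G ▷ G.obj Y := by
    rw [← tensorHom_id, ← tensorHom_id, ← id_tensorHom, tensorHom_comp_tensorHom,
      tensorHom_comp_tensorHom, Category.comp_id, Category.id_comp, Category.id_comp]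
  rw [h1]
  simp only [Category.assoc]
  rw [← Functor.LaxMonoidal.left_unitality, MonoidalCategory.leftUnitor_naturality,
    Functor.OplaxMonoidal.left_unitality_hom_assoc]

@[reassoc]
lemma tens_uu {X : A} {Y : B} (f : F.obj X ⟶ G.obj Y) :
    tens F G f (uu F G) ≫ G.map (ρ_ Y).hom = F.map (ρ_ X).hom ≫ f := by
  simp only [tens, uu]
  have h1 : (f ⊗ₘ η F ≫ ε G) = F.obj X ◁ η F ≫ f ▷ (𝟙_ E) ≫ G.obj Y ◁ ε G := by
    rw [← tensorHom_id, ← id_tensorHom, ← id_tensorHom, tensorHom_comp_tensorHom,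
      tensorHom_comp_tensorHom, Category.comp_id, Category.id_comp, Category.id_comp]
  rw [h1]
  simp only [Category.assoc]
  rw [← Functor.LaxMonoidal.right_unitality, MonoidalCategory.rightUnitor_naturality,
    Functor.OplaxMonoidal.right_unitality_hom_assoc]

@[reassoc]
lemma tens_uu' {X : A} {Y : B} (f : F.obj X ⟶ G.obj Y) :
    F.map (ρ_ X).inv ≫ tens F G f (uu F G) = f ≫ G.map (ρ_ Y).inv := by
  rw [← cancel_epi (F.map (ρ_ X).hom), ← cancel_mono (G.map (ρ_ Y).hom)]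
  simp only [Category.assoc, ← F.map_comp_assoc, ← G.map_comp, Iso.hom_inv_id, Iso.inv_hom_id,
    F.map_id, G.map_id, Category.comp_id, Category.id_comp]
  rw [tens_uu]

@[reassoc]
lemma uu_tens' {X : A} {Y : B} (f : F.obj X ⟶ G.obj Y) :
    F.map (λ_ X).inv ≫ tens F G (uu F G) f = f ≫ G.map (λ_ Y).inv := by
  rw [← cancel_epi (F.map (λ_ X).hom), ← cancel_mono (G.map (λ_ Y).hom)]
  simp only [Category.assoc, ← F.map_comp_assoc, ← G.map_comp, Iso.hom_inv_id, Iso.inv_hom_id,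
    F.map_id, G.map_id, Category.comp_id, Category.id_comp]
  rw [uu_tens]

lemma uu_comp : uu F G ≫ uu G H = uu F H := by
  simp [uu]

lemma uu_self : uu F F = 𝟙 _ := by
  simp [uu]

/-- The tensor product of isomorphisms. -/
@[simps]
def tensIso {X X' : A} {Y Y' : B} (f : F.obj X ≅ G.obj Y) (f' : F.obj X' ≅ G.obj Y') :
    F.obj (X ⊗ X') ≅ G.obj (Y ⊗ Y') where
  hom := tens F G f.hom f'.hom
  inv := tens G F f.inv f'.inv
  hom_inv_id := by rw [tens_comp, f.hom_inv_id, f'.hom_inv_id, tens_id]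
  inv_hom_id := by rw [tens_comp, f.inv_hom_id, f'.inv_hom_id, tens_id]

/-- The canonical isomorphism between the values on the units. -/
@[simps]
def uuIso : F.obj (𝟙_ A) ≅ G.obj (𝟙_ B) where
  hom := uu F G
  inv := uu G F
  hom_inv_id := by rw [uu_comp, uu_self]
  inv_hom_id := by rw [uu_comp, uu_self]

end

section linear

variable (F : A ⥤ E) (G : B ⥤ E) [F.Monoidal] [G.Monoidal] [Preadditive E]
  [MonoidalPreadditive E]

lemma add_tens {X X' : A} {Y Y' : B} (f g : F.obj X ⟶ G.obj Y) (f' : F.obj X' ⟶ G.obj Y') :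
    tens F G (f + g) f' = tens F G f f' + tens F G g f' := by
  simp [tens, MonoidalCategory.tensorHom_def]

lemma tens_add {X X' : A} {Y Y' : B} (f : F.obj X ⟶ G.obj Y) (f' g' : F.obj X' ⟶ G.obj Y') :
    tens F G f (f' + g') = tens F G f f' + tens F G f g' := by
  simp [tens, MonoidalCategory.tensorHom_def]

lemma zero_tens {X X' : A} {Y Y' : B} (f' : F.obj X' ⟶ G.obj Y') :
    tens F G (0 : F.obj X ⟶ G.obj Y) f' = 0 := by
  simp [tens, MonoidalCategory.tensorHom_def]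

lemma tens_zero {X X' : A} {Y Y' : B} (f : F.obj X ⟶ G.obj Y) :
    tens F G f (0 : F.obj X' ⟶ G.obj Y') = 0 := by
  simp [tens, MonoidalCategory.tensorHom_def]

variable {K : Type*} [CommRing K] [Linear K E] [MonoidalLinear K E]

lemma smul_tens {X X' : A} {Y Y' : B} (r : K) (f : F.obj X ⟶ G.obj Y)
    (f' : F.obj X' ⟶ G.obj Y') : tens F G (r • f) f' = r • tens F G f f' := by
  simp [tens, MonoidalCategory.tensorHom_def]

lemma tens_smul {X X' : A} {Y Y' : B} (r : K) (f : F.obj X ⟶ G.obj Y)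
    (f' : F.obj X' ⟶ G.obj Y') : tens F G f (r • f') = r • tens F G f f' := by
  simp [tens, MonoidalCategory.tensorHom_def]

end linear

end Pool.Agent.W451.UGR
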