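import Pool.Agent.W451.UGR.Dec
import Pool.Agent.W451.UGR.Prof
import Pool.Agent.W451.UGR.Dual

/-!
# Comparison of two integral forms
-/

set_option autoImplicit false
set_option linter.unusedSectionVars false

open CategoryTheory MonoidalCategory

namespace Pool.Agent.W451.UGR

universe v u v₁ u₁ v₂ u₂

variable {O K : Type*} [CommRing O] [Field K] [Algebra O K]
  {A : Type u₁} [Category.{v₁} A] [Preadditive A] [Linear O A]
  {B : Type u₂} [Category.{v₂} B] [Preadditive B] [Linear O B]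
  {E : Type u} [Category.{v} E] [Preadditive E] [Linear K E]
  {I : Type*}

/-- The functor `F` from the `O`-linear category `A` with the simple objects `X i` behaves like
an extension of scalars to `K`. -/
structure Form (O K : Type*) [CommRing O] [Field K] [Algebra O K]
    {A : Type u₁} [Category.{v₁} A] [Preadditive A] [Linear O A]
    {E : Type u} [Category.{v} E] [Preadditive E] [Linear K E]
    {I : Type*} (F : A ⥤ E) [F.Additive] (X : I → A) where
  smul : ∀ {U V : A} (r : O) (f : U ⟶ V), F.map (r • f) = algebraMap O K r • F.map f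
  simple : SimpleFam O X
  simpleK : SimpleFam K (fun i => F.obj (X i))
  /-- the decompositions -/
  dec : ∀ U : A, Dec X U

section lifts

variable {F : A ⥤ E} [F.Additive] {G : B ⥤ E} [G.Additive] {X : I → A} {Y : I → B}
  (fA : Form O K F X) (fB : Form O K G Y) (θ : ∀ i, G.obj (Y i) ≅ F.obj (X i))

include fA in
lemma Form.faithful : Function.Injective (algebraMap O K) → ∀ {U V : A} {f g : U ⟶ V},
    F.map f = F.map g → f = g := by
  intro hinj U V f g h
  refine (fA.dec U).ext_left fun b => (fA.dec V).ext_right fun c => ?_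
  have h1 : F.map ((fA.dec U).inc b ≫ f ≫ (fA.dec V).prj c) =
      F.map ((fA.dec U).inc b ≫ g ≫ (fA.dec V).prj c) := by
    simp [h]
  rw [Category.assoc, Category.assoc]
  generalize (fA.dec U).inc b ≫ f ≫ (fA.dec V).prj c = a at h1
  generalize (fA.dec U).inc b ≫ g ≫ (fA.dec V).prj c = a' at h1
  generalize (fA.dec U).t b = i at a a'
  generalize (fA.dec V).t c = j at a a'
  by_cases hij : i = j
  · subst hij
    obtain ⟨r, rfl⟩ := fA.simple.scal a
    obtain ⟨s, rfl⟩ := fA.simple.scal a'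
    rw [fA.smul, fA.smul, F.map_id, ← sub_eq_zero, ← sub_smul] at h1
    have := fA.simpleK.inj (i := i) _ h1
    rw [hinj (sub_eq_zero.1 this)]
  · rw [fA.simple.zero hij a, fA.simple.zero hij a']

include fA θ in
lemma hom_zero {i l : I} (h : i ≠ l) (φ : G.obj (Y i) ⟶ F.obj (X l)) : φ = 0 := by
  have h1 : (θ i).inv ≫ φ = 0 := fA.simpleK.zero h _
  rw [← cancel_epi (θ i).inv, h1, Limits.comp_zero]

include fA in
lemma hom_scalar {i : I} (φ : G.obj (Y i) ⟶ F.obj (X i)) : ∃ c : K, φ = c • (θ i).hom := by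
  obtain ⟨c, hc⟩ := fA.simpleK.scal ((θ i).inv ≫ φ)
  refine ⟨c, ?_⟩
  rw [← cancel_epi (θ i).inv, hc]
  simp

include fA in
lemma scalar_eq_zero {i : I} {c : K} (h : c • (θ i).hom = 0) : c = 0 := by
  refine fA.simpleK.inj (i := i) c ?_
  have : c • 𝟙 (F.obj (X i)) = (θ i).inv ≫ (c • (θ i).hom) := by simp
  rw [this, h, Limits.comp_zero]

include fA fB in
/-- Lifting of a morphism to a simple object. -/
lemma lift_left {Z : B} {l : I} (φ : G.obj Z ⟶ F.obj (X l))
    (h : ∀ q : Y l ⟶ Z, ∃ r : O, G.map q ≫ φ = algebraMap O K r • (θ l).hom) :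
    ∃ m : Z ⟶ Y l, G.map m ≫ (θ l).hom = φ := by
  have h1 : ∀ (k : I) (q : Y k ⟶ Z), ∃ m : Y k ⟶ Y l, G.map m ≫ (θ l).hom = G.map q ≫ φ := by
    intro k q
    by_cases hk : k = l
    · subst hk
      obtain ⟨r, hr⟩ := h q
      refine ⟨r • 𝟙 _, ?_⟩
      rw [fB.smul, G.map_id, Linear.smul_comp, Category.id_comp, hr]
    · refine ⟨0, ?_⟩
      rw [G.map_zero, Limits.zero_comp]
      exact (hom_zero fA θ hk _).symm
  let d := fB.dec Z
  choose m hm using fun b => h1 _ (d.inc b)
  refine ⟨∑ b, d.prj b ≫ m b, ?_⟩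
  rw [G.map_sum, Preadditive.sum_comp]
  have h2 : ∀ b, G.map (d.prj b ≫ m b) ≫ (θ l).hom = G.map (d.prj b ≫ d.inc b) ≫ φ := by
    intro b
    rw [G.map_comp, Category.assoc, hm b, G.map_comp, Category.assoc]
  simp_rw [h2]
  rw [← Preadditive.sum_comp, ← G.map_sum, d.sum, G.map_id, Category.id_comp]

include fA in
/-- Lifting of a morphism from a simple object. -/
lemma lift_right {W : A} {l : I} (φ : G.obj (Y l) ⟶ F.obj W)
    (h : ∀ p : W ⟶ X l, ∃ r : O, φ ≫ F.map p = algebraMap O K r • (θ l).hom) :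
    ∃ n : X l ⟶ W, (θ l).hom ≫ F.map n = φ := by
  have h1 : ∀ (k : I) (p : W ⟶ X k), ∃ n : X l ⟶ X k, (θ l).hom ≫ F.map n = φ ≫ F.map p := by
    intro k p
    by_cases hk : l = k
    · subst hk
      obtain ⟨r, hr⟩ := h p
      refine ⟨r • 𝟙 _, ?_⟩
      rw [fA.smul, F.map_id, Linear.comp_smul, Category.comp_id, hr]
    · refine ⟨0, ?_⟩
      rw [F.map_zero, Limits.comp_zero]
      exact (hom_zero fA θ hk _).symm
  let d := fA.dec W
  choose n hn using fun b => h1 _ (d.prj b)
  refine ⟨∑ b, n b ≫ d.inc b, ?_⟩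
  rw [F.map_sum, Preadditive.comp_sum]
  have h2 : ∀ b, (θ l).hom ≫ F.map (n b ≫ d.inc b) = φ ≫ F.map (d.prj b ≫ d.inc b) := by
    intro b
    rw [F.map_comp, ← Category.assoc, hn b, F.map_comp, Category.assoc]
  simp_rw [h2]
  rw [← Preadditive.comp_sum, ← F.map_sum, d.sum, F.map_id, Category.comp_id]

end lifts

section feas

variable [MonoidalCategory A] [MonoidalPreadditive A] [MonoidalLinear O A]
  [MonoidalCategory B] [MonoidalPreadditive B] [MonoidalLinear O B]
  [MonoidalCategory E] [MonoidalPreadditive E] [MonoidalLinear K E]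
  {F : A ⥤ E} [F.Additive] [F.Monoidal] {G : B ⥤ E} [G.Additive] [G.Monoidal]
  {X : I → A} {Y : I → B}

/-- The comparison isomorphisms are compatible with tensor products up to integral scalars. -/
def Feas (O : Type*) {K : Type*} [CommRing O] [Field K] [Algebra O K]
    {A : Type u₁} [Category.{v₁} A] {B : Type u₂} [Category.{v₂} B]
    {E : Type u} [Category.{v} E] [Preadditive E] [Linear K E] {I : Type*}
    [MonoidalCategory A] [MonoidalCategory B] [MonoidalCategory E]
    {F : A ⥤ E} [F.Monoidal] {G : B ⥤ E} [G.Monoidal] {X : I → A} {Y : I → B}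
    (θ : ∀ i, G.obj (Y i) ≅ F.obj (X i)) : Prop :=
  ∀ (i j l : I) (q : Y l ⟶ Y i ⊗ Y j) (p : X i ⊗ X j ⟶ X l),
    ∃ r : O, G.map q ≫ tens G F (θ i).hom (θ j).hom ≫ F.map p = algebraMap O K r • (θ l).hom

variable (fA : Form O K F X) (fB : Form O K G Y) {θ : ∀ i, G.obj (Y i) ≅ F.obj (X i)}

include fA fB in
lemma Feas.left (h : Feas (K := K) O θ) {i j l : I} (p : X i ⊗ X j ⟶ X l) :
    ∃ m : Y i ⊗ Y j ⟶ Y l, G.map m ≫ (θ l).hom = tens G F (θ i).hom (θ j).hom ≫ F.map p :=
  lift_left fA fB θ _ fun q => h i j l q p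

include fA in
lemma Feas.right (h : Feas (K := K) O θ) {i j l : I} (q : Y l ⟶ Y i ⊗ Y j) :
    ∃ n : X l ⟶ X i ⊗ X j, (θ l).hom ≫ F.map n = G.map q ≫ tens G F (θ i).hom (θ j).hom := by
  refine lift_right fA θ _ fun p => ?_
  obtain ⟨r, hr⟩ := h i j l q p
  exact ⟨r, by rw [← hr, Category.assoc]⟩

end feas

end Pool.Agent.W451.UGR
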