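import Pool.Agent.W451.UGR.Core1

/-!
# The scalars comparing the dualities
-/

set_option autoImplicit false
set_option linter.unusedSectionVars false

open CategoryTheory MonoidalCategory

namespace Pool.Agent.W451.UGR

universe v u v₁ u₁ v₂ u₂

variable {O K : Type*} [CommRing O] [Field K] [Algebra O K]
  {A : Type u₁} [Category.{v₁} A] [Preadditive A] [Linear O A]
  {B : Type u₂} [Category.{v₂} B] [Preadditive B] [Linear O B]
  {E : Type u} [Category.{v} E] [Preadditive E] [Linear K E]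
  {I : Type*}
  [MonoidalCategory A] [MonoidalPreadditive A] [MonoidalLinear O A]
  [MonoidalCategory B] [MonoidalPreadditive B] [MonoidalLinear O B]
  [MonoidalCategory E] [MonoidalPreadditive E] [MonoidalLinear K E]
  {F : A ⥤ E} [F.Additive] [F.Monoidal] {G : B ⥤ E} [G.Additive] [G.Monoidal]
  {X : I → A} {Y : I → B}
  (fA : Form O K F X) (fB : Form O K G Y) {θ : ∀ i, G.obj (Y i) ≅ F.obj (X i)}
  (h : Feas (K := K) O θ)
  {i₀ : I} (eA : X i₀ ≅ 𝟙_ A) (eB : Y i₀ ≅ 𝟙_ B)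
  (hθ : G.map eB.hom ≫ uu G F = (θ i₀).hom ≫ F.map eA.hom)

section dualR

variable {R : Type*} [CommRing R] {C : Type*} [Category C] [Preadditive C] [Linear R C]
  [MonoidalCategory C] [MonoidalPreadditive C] [MonoidalLinear R C] {T : I → C}
  (hT : SimpleFam R T)

include hT in
lemma eq_smul_ev (i j : I) [ExactPairing (T i) (T j)] (m : T j ⊗ T i ⟶ 𝟙_ C) :
    ∃ r : R, m = r • ε_ (T i) (T j) := by
  obtain ⟨g, hg⟩ := exists_comp_ev (T i) (T j) m
  obtain ⟨r, rfl⟩ := hT.scal g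
  exact ⟨r, by rw [hg]; simp⟩

include hT in
lemma eq_smul_coev (i j : I) [ExactPairing (T i) (T j)] (m : 𝟙_ C ⟶ T i ⊗ T j) :
    ∃ r : R, m = r • η_ (T i) (T j) := by
  obtain ⟨g, hg⟩ := exists_coev_comp (T i) (T j) m
  obtain ⟨r, rfl⟩ := hT.scal g
  exact ⟨r, by rw [hg]; simp⟩

end dualR

include hθ in
lemma uu_eq : uu G F ≫ F.map eA.inv = G.map eB.inv ≫ (θ i₀).hom := by
  rw [← cancel_epi (G.map eB.hom), reassoc_of% hθ, ← F.map_comp, eA.hom_inv_id, F.map_id,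
    ← G.map_comp_assoc, eB.hom_inv_id, G.map_id, Category.comp_id, Category.id_comp]

include fA fB h hθ in
lemma Feas.left_unit {i j : I} (p : X i ⊗ X j ⟶ 𝟙_ A) :
    ∃ m : Y i ⊗ Y j ⟶ 𝟙_ B, G.map m ≫ uu G F = tens G F (θ i).hom (θ j).hom ≫ F.map p := by
  obtain ⟨m, hm⟩ := h.left fA fB (p ≫ eA.inv)
  refine ⟨m ≫ eB.hom, ?_⟩
  rw [G.map_comp, Category.assoc, hθ, reassoc_of% hm, ← F.map_comp, Category.assoc,
    eA.inv_hom_id, Category.comp_id]

include fA h hθ in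
lemma Feas.right_unit {i j : I} (q : 𝟙_ B ⟶ Y i ⊗ Y j) :
    ∃ n : 𝟙_ A ⟶ X i ⊗ X j, uu G F ≫ F.map n = G.map q ≫ tens G F (θ i).hom (θ j).hom := by
  obtain ⟨n, hn⟩ := h.right fA (eB.hom ≫ q)
  refine ⟨eA.inv ≫ n, ?_⟩
  rw [F.map_comp, reassoc_of% (uu_eq eA eB hθ), hn, ← Category.assoc, ← G.map_comp,
    eB.inv_hom_id_assoc]

variable {st : I → I} [∀ i, ExactPairing (X i) (X (st i))] [∀ i, ExactPairing (Y i) (Y (st i))]

include fA fB h hθ in
/-- The comparison of the dualities. -/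
lemma exists_scalars (i : I) : ∃ a : O,
    tens G F (θ (st i)).hom (θ i).hom ≫ F.map (ε_ (X i) (X (st i))) =
      algebraMap O K a • (G.map (ε_ (Y i) (Y (st i))) ≫ uu G F) ∧
    G.map (η_ (Y i) (Y (st i))) ≫ tens G F (θ i).hom (θ (st i)).hom =
      algebraMap O K a • (uu G F ≫ F.map (η_ (X i) (X (st i)))) := by
  obtain ⟨m, hm⟩ := h.left_unit fA fB eA eB hθ (ε_ (X i) (X (st i)))
  obtain ⟨a, rfl⟩ := eq_smul_ev fB.simple i (st i) m
  obtain ⟨n, hn⟩ := h.right_unit fA eA eB hθ (η_ (Y i) (Y (st i)))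
  obtain ⟨b, rfl⟩ := eq_smul_coev fA.simple i (st i) n
  rw [fB.smul, Linear.smul_comp] at hm
  rw [fA.smul, Linear.comp_smul] at hn
  refine ⟨a, hm.symm, ?_⟩
  rw [← hn]
  -- compare the two scalars
  have key : G.map (η_ (Y i) (Y (st i)) ▷ Y i ≫ (α_ (Y i) (Y (st i)) (Y i)).hom) ≫
      tens G F (θ i).hom (tens G F (θ (st i)).hom (θ i).hom) ≫
        F.map (X i ◁ ε_ (X i) (X (st i))) =
      algebraMap O K a • (G.map (λ_ (Y i)).hom ≫ (θ i).hom ≫ F.map (ρ_ (X i)).inv) := by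
    rw [tens_map_whiskerLeft, ← hm, tens_smul, Linear.comp_smul,
      ← map_whiskerLeft_tens, ← Category.assoc, ← G.map_comp, Category.assoc,
      ExactPairing.evaluation_coevaluation, G.map_comp, Category.assoc, tens_uu']
  have key2 : G.map (η_ (Y i) (Y (st i)) ▷ Y i ≫ (α_ (Y i) (Y (st i)) (Y i)).hom) ≫
      tens G F (θ i).hom (tens G F (θ (st i)).hom (θ i).hom) ≫
        F.map (X i ◁ ε_ (X i) (X (st i))) =
      algebraMap O K b • (G.map (λ_ (Y i)).hom ≫ (θ i).hom ≫ F.map (ρ_ (X i)).inv) := by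
    rw [G.map_comp, Category.assoc, tens_assoc_assoc, map_whiskerRight_tens_assoc, ← hn,
      smul_tens, Linear.smul_comp, ← tens_map_whiskerRight, Category.assoc, ← F.map_comp,
      ← F.map_comp, ExactPairing.evaluation_coevaluation, F.map_comp, uu_tens_assoc]
  rw [key] at key2
  have h3 : (algebraMap O K a - algebraMap O K b) • (θ i).hom = 0 := by
    rw [← cancel_epi (G.map (λ_ (Y i)).hom), ← cancel_mono (F.map (ρ_ (X i)).inv)]
    rw [Limits.comp_zero, Limits.zero_comp, Linear.comp_smul, Linear.smul_comp, Category.assoc,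
      sub_smul, key2, sub_self]
  rw [sub_eq_zero.1 (scalar_eq_zero fA θ h3)]


/-- The scalar comparing the dualities of the `i`-th simple objects. -/
def IsScal (G : B ⥤ E) (F : A ⥤ E) [F.Monoidal] [G.Monoidal]
    {X : I → A} {Y : I → B} (θ : ∀ i, G.obj (Y i) ≅ F.obj (X i)) (st : I → I)
    [∀ i, ExactPairing (X i) (X (st i))] [∀ i, ExactPairing (Y i) (Y (st i))]
    (i : I) (a : K) : Prop :=
  tens G F (θ (st i)).hom (θ i).hom ≫ F.map (ε_ (X i) (X (st i))) =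
      a • (G.map (ε_ (Y i) (Y (st i))) ≫ uu G F) ∧
    G.map (η_ (Y i) (Y (st i))) ≫ tens G F (θ i).hom (θ (st i)).hom =
      a • (uu G F ≫ F.map (η_ (X i) (X (st i))))

/-- The triple `(i, j, l)` is tight. -/
def Tight (O : Type*) {K : Type*} [CommRing O] [Field K] [Algebra O K]
    {A : Type u₁} [Category.{v₁} A] {B : Type u₂} [Category.{v₂} B]
    {E : Type u} [Category.{v} E] [Preadditive E] [Linear K E] {I : Type*}
    [MonoidalCategory A] [MonoidalCategory B] [MonoidalCategory E]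
    {F : A ⥤ E} [F.Monoidal] {G : B ⥤ E} [G.Monoidal] {X : I → A} {Y : I → B}
    (θ : ∀ i, G.obj (Y i) ≅ F.obj (X i)) (i j l : I) : Prop :=
  ∃ (q : Y l ⟶ Y i ⊗ Y j) (p : X i ⊗ X j ⟶ X l) (r : O), IsUnit r ∧
    G.map q ≫ tens G F (θ i).hom (θ j).hom ≫ F.map p = algebraMap O K r • (θ l).hom

include fA in
omit [∀ i, ExactPairing (X i) (X (st i))] [∀ i, ExactPairing (Y i) (Y (st i))] in
lemma coev_smul_eq_zero {i s : I} [ExactPairing (X i) (X s)] {c : K}
    (hc : c • (uu G F ≫ F.map (η_ (X i) (X s))) = 0) : c = 0 := by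
  have h1 : c • F.map (η_ (X i) (X s)) = 0 := by
    rw [← cancel_epi (uuIso G F).hom, Limits.comp_zero, Linear.comp_smul]
    exact hc
  have h2 : c • F.map (η_ (X i) (X s) ▷ X i) = 0 := by
    rw [← tensorHom_id, ← tens_map, ← smul_tens, h1, zero_tens]
  have h3 : c • 𝟙 (F.obj (X i)) = 0 := by
    have h4 : c • (F.map (η_ (X i) (X s) ▷ X i) ≫ F.map ((α_ _ _ _).hom ≫
        X i ◁ ε_ (X i) (X s))) = 0 := by
      rw [← Linear.smul_comp, h2, Limits.zero_comp]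
    rw [← F.map_comp, ExactPairing.evaluation_coevaluation] at h4
    have h5 : c • 𝟙 (F.obj (X i)) = F.map (λ_ (X i)).inv ≫
        (c • F.map ((λ_ (X i)).hom ≫ (ρ_ (X i)).inv)) ≫ F.map (ρ_ (X i)).hom := by
      rw [Linear.smul_comp, Linear.comp_smul, ← F.map_comp, ← F.map_comp]
      simp
    rw [h5, h4, Limits.zero_comp, Limits.comp_zero]
  exact fA.simpleK.inj (i := i) c h3

include fB in
omit [∀ i, ExactPairing (X i) (X (st i))] in
lemma ev_smul_eq_zero {i : I} {c : K}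
    (hc : c • (G.map (ε_ (Y i) (Y (st i))) ≫ uu G F) = 0) : c = 0 := by
  have h1 : c • G.map (ε_ (Y i) (Y (st i))) = 0 := by
    rw [← cancel_mono (uuIso G F).hom, Limits.zero_comp, Linear.smul_comp]
    exact hc
  have h2 : c • G.map (Y i ◁ ε_ (Y i) (Y (st i))) = 0 := by
    rw [← id_tensorHom, ← tens_map, ← tens_smul, h1, tens_zero]
  have h3 : c • 𝟙 (G.obj (Y i)) = 0 := by
    have h4 : c • (G.map (η_ (Y i) (Y (st i)) ▷ Y i ≫ (α_ _ _ _).hom) ≫
        G.map (Y i ◁ ε_ (Y i) (Y (st i)))) = 0 := by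
      rw [← Linear.comp_smul, h2, Limits.comp_zero]
    rw [← G.map_comp, Category.assoc, ExactPairing.evaluation_coevaluation] at h4
    have h5 : c • 𝟙 (G.obj (Y i)) = G.map (λ_ (Y i)).inv ≫
        (c • G.map ((λ_ (Y i)).hom ≫ (ρ_ (Y i)).inv)) ≫ G.map (ρ_ (Y i)).hom := by
      rw [Linear.smul_comp, Linear.comp_smul, ← G.map_comp, ← G.map_comp]
      simp
    rw [h5, h4, Limits.zero_comp, Limits.comp_zero]
  exact fB.simpleK.inj (i := i) c h3

include fA fB h in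
lemma tight_left (hinj : Function.Injective (algebraMap O K)) {i j l : I}
    (ht : Tight (K := K) O θ i j l) {a b : O} (ha : IsScal G F θ st i (algebraMap O K a))
    (hb : IsScal G F θ st l (algebraMap O K b)) : a ∣ b := by
  obtain ⟨q, p, r, hr, hqp⟩ := ht
  obtain ⟨k, hk⟩ := exists_coev_comp (Y i) (Y (st i))
    (η_ (Y l) (Y (st l)) ≫ q ▷ Y (st l) ≫ (α_ _ _ _).hom)
  obtain ⟨n, hn⟩ := h.right fA k
  obtain ⟨s, hs⟩ := eq_smul_coev fA.simple l (st l)
    (η_ (X i) (X (st i)) ≫ X i ◁ n ≫ (α_ _ _ _).inv ≫ p ▷ X (st l))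
  have e1 : (algebraMap O K r * algebraMap O K b) •
      (uu G F ≫ F.map (η_ (X l) (X (st l)))) =
      (algebraMap O K a * algebraMap O K s) • (uu G F ≫ F.map (η_ (X l) (X (st l)))) := by
    calc (algebraMap O K r * algebraMap O K b) • (uu G F ≫ F.map (η_ (X l) (X (st l))))
        = G.map (η_ (Y l) (Y (st l))) ≫
            tens G F (algebraMap O K r • (θ l).hom) (θ (st l)).hom := by
          rw [mul_smul, ← hb.2, smul_tens, Linear.comp_smul]
      _ = G.map (η_ (Y l) (Y (st l)) ≫ q ▷ Y (st l)) ≫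
            tens G F (tens G F (θ i).hom (θ j).hom) (θ (st l)).hom ≫
              F.map (p ▷ X (st l)) := by
          rw [← hqp, G.map_comp, Category.assoc, map_whiskerRight_tens_assoc,
            tens_map_whiskerRight, Category.assoc]
      _ = G.map (η_ (Y l) (Y (st l)) ≫ q ▷ Y (st l) ≫ (α_ _ _ _).hom) ≫
            tens G F (θ i).hom (tens G F (θ j).hom (θ (st l)).hom) ≫
              F.map ((α_ _ _ _).inv ≫ p ▷ X (st l)) := by
          rw [G.map_comp, G.map_comp, G.map_comp, F.map_comp]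
          simp only [Category.assoc]
          rw [tens_assoc_assoc, ← F.map_comp_assoc (α_ _ _ _).hom, Iso.hom_inv_id, F.map_id,
            Category.id_comp]
      _ = algebraMap O K a • (uu G F ≫ F.map (η_ (X i) (X (st i)) ≫ X i ◁ n ≫
            (α_ _ _ _).inv ≫ p ▷ X (st l))) := by
          rw [hk, G.map_comp, Category.assoc, map_whiskerLeft_tens_assoc, ← hn,
            ← tens_map_whiskerLeft, F.map_comp (η_ _ _), F.map_comp (X i ◁ n)]
          rw [Category.assoc, reassoc_of% ha.2]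
          simp
      _ = (algebraMap O K a * algebraMap O K s) • (uu G F ≫ F.map (η_ (X l) (X (st l)))) := by
          rw [hs, fA.smul, Linear.comp_smul, smul_smul]
  rw [← sub_eq_zero, ← sub_smul] at e1
  have e2 := sub_eq_zero.1 (coev_smul_eq_zero fA e1)
  rw [← map_mul, ← map_mul] at e2
  have e3 := hinj e2
  obtain ⟨r', rfl⟩ := hr
  exact ⟨s * (r'⁻¹ : Oˣ), by rw [← mul_assoc, ← e3]; rw [mul_comm (r' : O) b, mul_assoc]; simp⟩

include fA fB h in
lemma tight_right (hinj : Function.Injective (algebraMap O K)) {i j l : I}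
    (ht : Tight (K := K) O θ i j l) {a b : O} (ha : IsScal G F θ st j (algebraMap O K a))
    (hb : IsScal G F θ st l (algebraMap O K b)) : a ∣ b := by
  obtain ⟨q, p, r, hr, hqp⟩ := ht
  obtain ⟨k, hk⟩ := exists_comp_ev (X j) (X (st j))
    ((α_ _ _ _).hom ≫ X (st l) ◁ p ≫ ε_ (X l) (X (st l)))
  obtain ⟨m, hm⟩ := h.left fA fB k
  obtain ⟨s, hs⟩ := eq_smul_ev fB.simple l (st l)
    (Y (st l) ◁ q ≫ (α_ _ _ _).inv ≫ m ▷ Y j ≫ ε_ (Y j) (Y (st j)))
  have e1 : (algebraMap O K r * algebraMap O K b) •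
      (G.map (ε_ (Y l) (Y (st l))) ≫ uu G F) =
      (algebraMap O K a * algebraMap O K s) • (G.map (ε_ (Y l) (Y (st l))) ≫ uu G F) := by
    calc (algebraMap O K r * algebraMap O K b) • (G.map (ε_ (Y l) (Y (st l))) ≫ uu G F)
        = tens G F (θ (st l)).hom (algebraMap O K r • (θ l).hom) ≫
            F.map (ε_ (X l) (X (st l))) := by
          rw [mul_smul, ← hb.1, tens_smul, Linear.smul_comp]
      _ = G.map (Y (st l) ◁ q) ≫
            tens G F (θ (st l)).hom (tens G F (θ i).hom (θ j).hom) ≫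
              F.map (X (st l) ◁ p ≫ ε_ (X l) (X (st l))) := by
          rw [← hqp, F.map_comp, map_whiskerLeft_tens_assoc, tens_map_whiskerLeft_assoc,
            Category.assoc]
      _ = G.map (Y (st l) ◁ q ≫ (α_ _ _ _).inv) ≫
            tens G F (tens G F (θ (st l)).hom (θ i).hom) (θ j).hom ≫
              F.map ((α_ _ _ _).hom ≫ X (st l) ◁ p ≫ ε_ (X l) (X (st l))) := by
          rw [G.map_comp, F.map_comp (α_ _ _ _).hom, Category.assoc, tens_assoc_inv_assoc,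
            ← F.map_comp_assoc (α_ _ _ _).inv, Iso.inv_hom_id, F.map_id, Category.id_comp]
      _ = algebraMap O K a • (G.map (Y (st l) ◁ q ≫ (α_ _ _ _).inv ≫ m ▷ Y j ≫
            ε_ (Y j) (Y (st j))) ≫ uu G F) := by
          rw [hk, F.map_comp, tens_map_whiskerRight_assoc, ← hm, ← map_whiskerRight_tens_assoc,
            ha.1]
          simp
      _ = (algebraMap O K a * algebraMap O K s) • (G.map (ε_ (Y l) (Y (st l))) ≫ uu G F) := by
          rw [hs, fB.smul, Linear.smul_comp, smul_smul]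
  rw [← sub_eq_zero, ← sub_smul] at e1
  have e2 := sub_eq_zero.1 (ev_smul_eq_zero fB e1)
  rw [← map_mul, ← map_mul] at e2
  have e3 := hinj e2
  obtain ⟨r', rfl⟩ := hr
  exact ⟨s * (r'⁻¹ : Oˣ), by rw [← mul_assoc, ← e3]; rw [mul_comm (r' : O) b, mul_assoc]; simp⟩

include fA fB h in
/-- If the scalar of `i` is invertible, morphisms to tensor products can be lifted. -/
lemma lift_inverse {i j l : I} {a : O} (hu : IsUnit a)
    (ha : IsScal G F θ st i (algebraMap O K a)) (n : X l ⟶ X i ⊗ X j) :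
    ∃ t : Y l ⟶ Y i ⊗ Y j, (θ l).hom ≫ F.map n = G.map t ≫ tens G F (θ i).hom (θ j).hom := by
  obtain ⟨n', hn'⟩ := exists_transpose (X i) (X (st i)) n
  obtain ⟨m, hm⟩ := h.left fA fB n'
  obtain ⟨a', rfl⟩ := hu
  refine ⟨(a'⁻¹ : Oˣ).val • ((λ_ _).inv ≫ η_ (Y i) (Y (st i)) ▷ Y l ≫ (α_ _ _ _).hom ≫ Y i ◁ m),
    ?_⟩
  rw [fB.smul, Linear.smul_comp]
  have e1 : G.map ((λ_ _).inv ≫ η_ (Y i) (Y (st i)) ▷ Y l ≫ (α_ _ _ _).hom ≫ Y i ◁ m) ≫
      tens G F (θ i).hom (θ j).hom = algebraMap O K a' • ((θ l).hom ≫ F.map n) := by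
    rw [G.map_comp, G.map_comp, G.map_comp]
    simp only [Category.assoc]
    rw [map_whiskerLeft_tens, hm, ← tens_map_whiskerLeft, tens_assoc_assoc,
      map_whiskerRight_tens_assoc, ha.2, smul_tens, ← tens_map_whiskerRight,
      ← hn', F.map_comp, F.map_comp, F.map_comp]
    simp only [Category.assoc, Linear.smul_comp, Linear.comp_smul]
    rw [uu_tens'_assoc]
  rw [e1, smul_smul, ← map_mul]
  simp


section unit

section one

variable {R : Type*} [CommRing R] [Nontrivial R] {C : Type*} [Category C] [Preadditive C]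
  [Linear R C] [MonoidalCategory C] [MonoidalPreadditive C] [MonoidalLinear R C] {T : I → C}
  (hT : SimpleFam R T) {j₀ : I} (e : T j₀ ≅ 𝟙_ C)

include hT e in
lemma dual_unit {s : I} [ExactPairing (T j₀) (T s)] : s = j₀ := by
  by_contra hne
  have h1 : e.hom ≫ η_ (T j₀) (T s) ≫ e.hom ▷ T s ≫ (λ_ (T s)).hom = 0 :=
    hT.zero (Ne.symm hne) _
  have h2 : η_ (T j₀) (T s) = 0 := by
    have : η_ (T j₀) (T s) = e.inv ≫ (e.hom ≫ η_ (T j₀) (T s) ≫ e.hom ▷ T s ≫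
        (λ_ (T s)).hom) ≫ (λ_ (T s)).inv ≫ e.inv ▷ T s := by simp
    rw [this, h1]; simp
  have h3 : (λ_ (T j₀)).hom ≫ (ρ_ (T j₀)).inv = 0 := by
    rw [← ExactPairing.evaluation_coevaluation (T j₀) (T s), h2]; simp
  have h4 : 𝟙 (T j₀) = 0 := by
    have : 𝟙 (T j₀) = (λ_ (T j₀)).inv ≫ ((λ_ (T j₀)).hom ≫ (ρ_ (T j₀)).inv) ≫
        (ρ_ (T j₀)).hom := by simp
    rw [this, h3]; simp
  have h5 := hT.inj (i := j₀) (1 : R) (by rw [one_smul, h4])
  exact one_ne_zero h5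

include hT e in
lemma coev_unit [ExactPairing (T j₀) (T j₀)] : ∃ r : R, IsUnit r ∧
    η_ (T j₀) (T j₀) = r • ((λ_ (𝟙_ C)).inv ≫ (e.inv ⊗ₘ e.inv)) := by
  obtain ⟨r, hr⟩ := eq_smul_coev hT j₀ j₀ ((λ_ (𝟙_ C)).inv ≫ (e.inv ⊗ₘ e.inv))
  obtain ⟨s, hs⟩ := hT.scal (e.hom ≫ η_ (T j₀) (T j₀) ≫ (e.hom ⊗ₘ e.hom) ≫
    (λ_ (𝟙_ C)).hom ≫ e.inv)
  have h1 : η_ (T j₀) (T j₀) = s • ((λ_ (𝟙_ C)).inv ≫ (e.inv ⊗ₘ e.inv)) := by
    have h2 : η_ (T j₀) (T j₀) = e.inv ≫ (e.hom ≫ η_ (T j₀) (T j₀) ≫ (e.hom ⊗ₘ e.hom) ≫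
      (λ_ (𝟙_ C)).hom ≫ e.inv) ≫ e.hom ≫ (λ_ (𝟙_ C)).inv ≫ (e.inv ⊗ₘ e.inv) := by
      simp
    rw [h2, hs]
    simp
  have h2 : r * s = 1 := by
    rw [h1, smul_smul] at hr
    have h3 : (r * s - 1) • 𝟙 (T j₀) = 0 := by
      have h4 : 𝟙 (T j₀) = e.hom ≫ ((λ_ (𝟙_ C)).inv ≫ (e.inv ⊗ₘ e.inv)) ≫
        (e.hom ⊗ₘ e.hom) ≫ (λ_ (𝟙_ C)).hom ≫ e.inv := by simp
      have h5 : (r * s) • 𝟙 (T j₀) = e.hom ≫ ((r * s) • ((λ_ (𝟙_ C)).inv ≫
        (e.inv ⊗ₘ e.inv))) ≫ (e.hom ⊗ₘ e.hom) ≫ (λ_ (𝟙_ C)).hom ≫ e.inv := by simp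
      rw [sub_smul, one_smul, h5, ← hr, ← h4, sub_self]
    exact sub_eq_zero.1 (hT.inj _ h3)
  exact ⟨s, IsUnit.of_mul_eq_one r (by rw [mul_comm]; exact h2), h1⟩

end one

include fA fB hθ in
lemma scal_unit [Nontrivial O] (hinj : Function.Injective (algebraMap O K)) {s : I}
    [ExactPairing (X i₀) (X s)] [ExactPairing (Y i₀) (Y s)] {a : O}
    (ha : G.map (η_ (Y i₀) (Y s)) ≫ tens G F (θ i₀).hom (θ s).hom =
      algebraMap O K a • (uu G F ≫ F.map (η_ (X i₀) (X s)))) : IsUnit a := by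
  obtain rfl : s = i₀ := dual_unit fA.simple eA
  obtain ⟨r, hr, h1⟩ := coev_unit fA.simple eA
  obtain ⟨r', hr', h1'⟩ := coev_unit fB.simple eB
  have h2 : G.map ((λ_ (𝟙_ B)).inv ≫ (eB.inv ⊗ₘ eB.inv)) ≫ tens G F (θ s).hom (θ s).hom =
      uu G F ≫ F.map ((λ_ (𝟙_ A)).inv ≫ (eA.inv ⊗ₘ eA.inv)) := by
    rw [G.map_comp, Category.assoc, map_tens, ← uu_eq eA eB hθ, ← tens_map_right,
      F.map_comp, uu_tens'_assoc]
  rw [h1, h1', fA.smul, fB.smul, Linear.smul_comp, h2, Linear.comp_smul, smul_smul,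
    ← sub_eq_zero, ← sub_smul, ← map_mul, ← map_sub] at ha
  have h3 : algebraMap O K (r' - a * r) = 0 := by
    refine coev_smul_eq_zero fA (i := s) (s := s) (G := G) ?_
    rw [h1, fA.smul, Linear.comp_smul, smul_comm, ha, smul_zero]
  have h4 : r' - a * r = 0 := hinj (by rw [h3, map_zero])
  rw [sub_eq_zero.1 h4] at hr'
  exact isUnit_of_mul_isUnit_left hr'

end unit

end Pool.Agent.W451.UGR
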