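import Pool.Agent.W451.UGR.Defs
import Pool.Agent.W451.UGR.BCMap

/-!
# Tensor equivalence is an equivalence relation
-/

set_option autoImplicit false

open CategoryTheory MonoidalCategory CategoryTheory.Limits

namespace Pool.Agent.W451.UGR

universe w₁ w v u v' u' v'' u''

namespace TensorCat

variable {R : Type w} [CommRing R] {C : TensorCat.{w, v, u} R} {D : TensorCat.{w, v', u'} R}
  {E : TensorCat.{w, v'', u''} R}

lemma TensorEquiv.symm (h : TensorEquiv C D) : TensorEquiv D C := by
  obtain ⟨F, h1, h2, h3, ⟨h4⟩⟩ := h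
  let e := F.asEquivalence
  have : e.functor.Additive := h1
  have : e.functor.Linear R := h2
  let _ : e.functor.Monoidal := h4
  exact ⟨e.inverse, inferInstance, inferInstance, inferInstance, ⟨e.inverseMonoidal⟩⟩

lemma TensorEquiv.trans (h : TensorEquiv C D) (h' : TensorEquiv D E) : TensorEquiv C E := by
  obtain ⟨F, h1, h2, h3, ⟨h4⟩⟩ := h
  obtain ⟨F', h1', h2', h3', ⟨h4'⟩⟩ := h'
  exact ⟨F ⋙ F', inferInstance, inferInstance, inferInstance, ⟨inferInstance⟩⟩

lemma TensorEquiv.baseChange (h : TensorEquiv C D) (S : Type w₁) [CommRing S] [Algebra R S] :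
    TensorEquiv (C.baseChange S) (D.baseChange S) := by
  obtain ⟨F, h1, h2, h3, ⟨h4⟩⟩ := h
  have a1 : (BC.map R S F).Additive := inferInstance
  have a2 : (BC.map R S F).Linear S := inferInstance
  have a3 : (BC.map R S F).IsEquivalence := inferInstance
  have a4 : Nonempty (BC.map R S F).Monoidal := ⟨inferInstance⟩
  exact ⟨BC.map R S F, a1, a2, a3, a4⟩

end TensorCat

end Pool.Agent.W451.UGR
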