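import Pool.Agent.W451.UGR.Core2

/-!
# The equivalence of the integral forms
-/

set_option autoImplicit false
set_option linter.unusedSectionVars false
set_option linter.unusedSimpArgs false
set_option linter.unusedVariables false

open CategoryTheory MonoidalCategory CategoryTheory.Limits

namespace Pool.Agent.W451.UGR

universe v u v₁ u₁ v₂ u₂

variable {O K : Type*} [CommRing O] [Field K] [Algebra O K]
  {A : Type u₁} [Category.{v₁} A] [Preadditive A] [Linear O A]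
  {B : Type u₂} [Category.{v₂} B] [Preadditive B] [Linear O B]
  {E : Type u} [Category.{v} E] [Preadditive E] [Linear K E]
  {I : Type*}
  {F : A ⥤ E} [F.Additive] {G : B ⥤ E} [G.Additive]
  {X : I → A} {Y : I → B}
  (fA : Form O K F X) (fB : Form O K G Y) (θ : ∀ i, G.obj (Y i) ≅ F.obj (X i))
  (hinj : Function.Injective (algebraMap O K))

/-- The isomorphism `u` respects the integral structures. -/
def Uni (θ : ∀ i, G.obj (Y i) ≅ F.obj (X i)) {V : B} {U : A} (u : G.obj V ≅ F.obj U) : Prop :=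
  (∀ (i : I) (f : X i ⟶ U), ∃ g : Y i ⟶ V, G.map g ≫ u.hom = (θ i).hom ≫ F.map f) ∧
    (∀ (i : I) (g : Y i ⟶ V), ∃ f : X i ⟶ U, G.map g ≫ u.hom = (θ i).hom ≫ F.map f)

variable {θ}

include fA fB in
lemma uni_self (i : I) : Uni θ (θ i) := by
  constructor
  · intro l f
    by_cases hl : l = i
    · subst hl
      obtain ⟨r, rfl⟩ := fA.simple.scal f
      exact ⟨r • 𝟙 _, by rw [fA.smul, fB.smul]; simp⟩
    · refine ⟨0, ?_⟩
      rw [fA.simple.zero hl f]; simp
  · intro l g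
    by_cases hl : l = i
    · subst hl
      obtain ⟨r, rfl⟩ := fB.simple.scal g
      exact ⟨r • 𝟙 _, by rw [fA.smul, fB.smul]; simp⟩
    · refine ⟨0, ?_⟩
      rw [fB.simple.zero hl g]; simp

include fB in
lemma Uni.exists_lift {V V' : B} {U U' : A} {u : G.obj V ≅ F.obj U} {u' : G.obj V' ≅ F.obj U'}
    (hu : Uni θ u) (hu' : Uni θ u') (a : U ⟶ U') :
    ∃ b : V ⟶ V', G.map b ≫ u'.hom = u.hom ≫ F.map a := by
  let d := fB.dec V
  choose f hf using fun β => hu.2 _ (d.inc β)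
  choose g hg using fun β => hu'.1 _ (f β ≫ a)
  refine ⟨∑ β, d.prj β ≫ g β, ?_⟩
  rw [G.map_sum, Preadditive.sum_comp]
  have h1 : ∀ β, G.map (d.prj β ≫ g β) ≫ u'.hom = G.map (d.prj β ≫ d.inc β) ≫ u.hom ≫ F.map a := by
    intro β
    rw [G.map_comp, Category.assoc, hg β, F.map_comp, ← reassoc_of% (hf β), G.map_comp,
      Category.assoc]
  simp_rw [h1]
  rw [← Preadditive.sum_comp, ← G.map_sum, d.sum, G.map_id, Category.id_comp]

include fA in
lemma Uni.exists_lift' {V V' : B} {U U' : A} {u : G.obj V ≅ F.obj U} {u' : G.obj V' ≅ F.obj U'}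
    (hu : Uni θ u) (hu' : Uni θ u') (b : V ⟶ V') :
    ∃ a : U ⟶ U', G.map b ≫ u'.hom = u.hom ≫ F.map a := by
  let d := fA.dec U
  choose g hg using fun β => hu.1 _ (d.inc β)
  choose f hf using fun β => hu'.2 _ (g β ≫ b)
  refine ⟨∑ β, d.prj β ≫ f β, ?_⟩
  rw [F.map_sum, Preadditive.comp_sum]
  have h1 : ∀ β, u.hom ≫ F.map (d.prj β ≫ f β) =
      u.hom ≫ F.map (d.prj β ≫ d.inc β) ≫ u.inv ≫ G.map b ≫ u'.hom := by
    intro β
    have h2 : F.map (f β) = (θ _).inv ≫ G.map (g β) ≫ G.map b ≫ u'.hom := by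
      rw [← cancel_epi (θ (d.t β)).hom, ← hf β, G.map_comp]
      simp
    have h3 : F.map (d.inc β) = (θ _).inv ≫ G.map (g β) ≫ u.hom := by
      rw [← cancel_epi (θ (d.t β)).hom, ← hg β]
      simp
    rw [F.map_comp, h2, F.map_comp, h3]
    simp
  simp_rw [h1]
  rw [← Preadditive.comp_sum, ← Preadditive.sum_comp, ← F.map_sum, d.sum, F.map_id]
  simp

include fB hinj in
lemma lift_unique {V V' : B} {U' : A} (u' : G.obj V' ≅ F.obj U') {b b' : V ⟶ V'}
    (h : G.map b ≫ u'.hom = G.map b' ≫ u'.hom) : b = b' :=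
  fB.faithful hinj ((cancel_mono _).1 h)

include fA fB in
/-- Direct sums of the comparison isomorphisms. -/
lemma exists_uni_sum {n : ℕ} (t : Fin n → I) {U : A} {V : B}
    (iU : ∀ b, X (t b) ⟶ U) (pU : ∀ b, U ⟶ X (t b)) (iV : ∀ b, Y (t b) ⟶ V)
    (pV : ∀ b, V ⟶ Y (t b)) (hU1 : ∀ b, iU b ≫ pU b = 𝟙 _)
    (hU2 : ∀ b c, b ≠ c → iU b ≫ pU c = 0) (hU3 : ∑ b, pU b ≫ iU b = 𝟙 U)
    (hV1 : ∀ b, iV b ≫ pV b = 𝟙 _)
    (hV2 : ∀ b c, b ≠ c → iV b ≫ pV c = 0) (hV3 : ∑ b, pV b ≫ iV b = 𝟙 V) :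
    ∃ u : G.obj V ≅ F.obj U, Uni θ u := by
  let w : G.obj V ⟶ F.obj U := ∑ b, G.map (pV b) ≫ (θ (t b)).hom ≫ F.map (iU b)
  let w' : F.obj U ⟶ G.obj V := ∑ b, F.map (pU b) ≫ (θ (t b)).inv ≫ G.map (iV b)
  have hw1 : ∀ b, G.map (iV b) ≫ w = (θ (t b)).hom ≫ F.map (iU b) := by
    intro b
    simp only [w]
    rw [Preadditive.comp_sum, Finset.sum_eq_single b]
    · rw [← G.map_comp_assoc, hV1, G.map_id, Category.id_comp]
    · intro c _ hc
      rw [← G.map_comp_assoc, hV2 b c (Ne.symm hc), G.map_zero, zero_comp]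
    · intro h; exact absurd (Finset.mem_univ b) h
  have hw2 : ∀ b, F.map (iU b) ≫ w' = (θ (t b)).inv ≫ G.map (iV b) := by
    intro b
    simp only [w']
    rw [Preadditive.comp_sum, Finset.sum_eq_single b]
    · rw [← F.map_comp_assoc, hU1, F.map_id, Category.id_comp]
    · intro c _ hc
      rw [← F.map_comp_assoc, hU2 b c (Ne.symm hc), F.map_zero, zero_comp]
    · intro h; exact absurd (Finset.mem_univ b) h
  have e1 : w ≫ w' = 𝟙 _ := by
    have h1 : w ≫ w' = ∑ b, G.map (pV b ≫ iV b) := by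
      rw [show w ≫ w' = ∑ b, (G.map (pV b) ≫ (θ (t b)).hom ≫ F.map (iU b)) ≫ w' from
        Preadditive.sum_comp _ _ _]
      refine Finset.sum_congr rfl fun b _ => ?_
      rw [Category.assoc, Category.assoc, hw2, Iso.hom_inv_id_assoc, G.map_comp]
    rw [h1, ← G.map_sum, hV3, G.map_id]
  have e2 : w' ≫ w = 𝟙 _ := by
    have h1 : w' ≫ w = ∑ b, F.map (pU b ≫ iU b) := by
      rw [show w' ≫ w = ∑ b, (F.map (pU b) ≫ (θ (t b)).inv ≫ G.map (iV b)) ≫ w from
        Preadditive.sum_comp _ _ _]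
      refine Finset.sum_congr rfl fun b _ => ?_
      rw [Category.assoc, Category.assoc, hw1, Iso.inv_hom_id_assoc, F.map_comp]
    rw [h1, ← F.map_sum, hU3, F.map_id]
  refine ⟨⟨w, w', e1, e2⟩, ?_, ?_⟩
  · intro i f
    choose g hg using fun b => (uni_self fA fB (θ := θ) (t b)).1 i (f ≫ pU b)
    refine ⟨∑ b, g b ≫ iV b, ?_⟩
    change G.map _ ≫ w = _
    rw [G.map_sum, Preadditive.sum_comp]
    have h1 : ∀ b, G.map (g b ≫ iV b) ≫ w = (θ i).hom ≫ F.map (f ≫ pU b ≫ iU b) := by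
      intro b
      rw [G.map_comp, Category.assoc, hw1, reassoc_of% (hg b), ← F.map_comp, Category.assoc]
    simp_rw [h1]
    rw [← Preadditive.comp_sum, ← F.map_sum, ← Preadditive.comp_sum, hU3, Category.comp_id]
  · intro i g
    choose f hf using fun b => (uni_self fA fB (θ := θ) (t b)).2 i (g ≫ pV b)
    refine ⟨∑ b, f b ≫ iU b, ?_⟩
    have h1 : ∀ b, (θ i).hom ≫ F.map (f b ≫ iU b) =
        G.map g ≫ G.map (pV b) ≫ (θ (t b)).hom ≫ F.map (iU b) := by
      intro b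
      rw [F.map_comp, ← reassoc_of% (hf b), G.map_comp, Category.assoc]
    have h2 : (θ i).hom ≫ F.map (∑ b, f b ≫ iU b) =
        ∑ b, G.map g ≫ G.map (pV b) ≫ (θ (t b)).hom ≫ F.map (iU b) := by
      rw [F.map_sum, Preadditive.comp_sum]
      exact Finset.sum_congr rfl fun b _ => h1 b
    change G.map g ≫ w = _
    rw [h2]
    exact Preadditive.comp_sum _ _ _

include fA fB in
lemma exists_uni_left [HasFiniteBiproducts B] (U : A) :
    ∃ (V : B) (u : G.obj V ≅ F.obj U), Uni θ u := by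
  let d := fA.dec U
  obtain ⟨u, hu⟩ := exists_uni_sum fA fB (θ := θ) d.t d.inc d.prj
    (fun b => biproduct.ι (fun b => Y (d.t b)) b) (fun b => biproduct.π (fun b => Y (d.t b)) b)
    d.inc_prj d.inc_prj_ne d.sum (fun b => biproduct.ι_π_self _ _)
    (fun b c h => biproduct.ι_π_ne _ h) (biproduct.total)
  exact ⟨_, u, hu⟩

include fA fB in
lemma exists_uni_right [HasFiniteBiproducts A] (V : B) :
    ∃ (U : A) (u : G.obj V ≅ F.obj U), Uni θ u := by
  let d := fB.dec V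
  obtain ⟨u, hu⟩ := exists_uni_sum fA fB (θ := θ) d.t
    (fun b => biproduct.ι (fun b => X (d.t b)) b) (fun b => biproduct.π (fun b => X (d.t b)) b)
    d.inc d.prj (fun b => biproduct.ι_π_self _ _)
    (fun b c h => biproduct.ι_π_ne _ h) (biproduct.total) d.inc_prj d.inc_prj_ne d.sum
  exact ⟨_, u, hu⟩

section functor

/-- The choice of an integral model for every object. -/
structure Choice (θ : ∀ i, G.obj (Y i) ≅ F.obj (X i)) where
  /-- the objects -/
  obj : A → B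
  /-- the isomorphisms -/
  iso : ∀ U, G.obj (obj U) ≅ F.obj U
  uni : ∀ U, Uni θ (iso U)

variable (c : Choice θ)

/-- The lift of a morphism. -/
noncomputable def lf (fB : Form O K G Y) {V V' : B} {U U' : A} {u : G.obj V ≅ F.obj U}
    {u' : G.obj V' ≅ F.obj U'} (hu : Uni θ u) (hu' : Uni θ u') (a : U ⟶ U') : V ⟶ V' :=
  (hu.exists_lift fB hu' a).choose

@[reassoc]
lemma lf_spec {V V' : B} {U U' : A} {u : G.obj V ≅ F.obj U}
    {u' : G.obj V' ≅ F.obj U'} (hu : Uni θ u) (hu' : Uni θ u') (a : U ⟶ U') :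
    G.map (lf fB hu hu' a) ≫ u'.hom = u.hom ≫ F.map a :=
  (hu.exists_lift fB hu' a).choose_spec

include hinj in
lemma lf_unique {V V' : B} {U U' : A} {u : G.obj V ≅ F.obj U}
    {u' : G.obj V' ≅ F.obj U'} (hu : Uni θ u) (hu' : Uni θ u') (a : U ⟶ U') (b : V ⟶ V')
    (h : G.map b ≫ u'.hom = u.hom ≫ F.map a) : b = lf fB hu hu' a :=
  lift_unique fB hinj u' (by rw [h, lf_spec])

include hinj in
lemma lf_id {V : B} {U : A} {u : G.obj V ≅ F.obj U} (hu : Uni θ u) : lf fB hu hu (𝟙 U) = 𝟙 V :=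
  (lf_unique fB hinj hu hu (𝟙 U) (𝟙 V) (by simp)).symm

include hinj in
@[reassoc]
lemma lf_comp {V V' V'' : B} {U U' U'' : A} {u : G.obj V ≅ F.obj U}
    {u' : G.obj V' ≅ F.obj U'} {u'' : G.obj V'' ≅ F.obj U''} (hu : Uni θ u) (hu' : Uni θ u')
    (hu'' : Uni θ u'') (a : U ⟶ U') (a' : U' ⟶ U'') :
    lf fB hu hu' a ≫ lf fB hu' hu'' a' = lf fB hu hu'' (a ≫ a') :=
  lf_unique fB hinj hu hu'' (a ≫ a') _ (by
    rw [G.map_comp, Category.assoc, lf_spec, lf_spec_assoc, F.map_comp])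

include hinj in
lemma lf_add {V V' : B} {U U' : A} {u : G.obj V ≅ F.obj U}
    {u' : G.obj V' ≅ F.obj U'} (hu : Uni θ u) (hu' : Uni θ u') (a a' : U ⟶ U') :
    lf fB hu hu' (a + a') = lf fB hu hu' a + lf fB hu hu' a' :=
  (lf_unique fB hinj hu hu' (a + a') _ (by
    rw [G.map_add, Preadditive.add_comp, lf_spec, lf_spec, F.map_add,
      Preadditive.comp_add])).symm

include fA hinj in
lemma lf_smul {V V' : B} {U U' : A} {u : G.obj V ≅ F.obj U}
    {u' : G.obj V' ≅ F.obj U'} (hu : Uni θ u) (hu' : Uni θ u') (r : O) (a : U ⟶ U') :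
    lf fB hu hu' (r • a) = r • lf fB hu hu' a :=
  (lf_unique fB hinj hu hu' (r • a) _ (by
    rw [fB.smul, Linear.smul_comp, lf_spec, fA.smul, Linear.comp_smul])).symm

/-- The lift of an identity. -/
@[simps]
noncomputable def lfIso (fB : Form O K G Y) (hinj : Function.Injective (algebraMap O K))
    {V V' : B} {U : A} {u : G.obj V ≅ F.obj U}
    {u' : G.obj V' ≅ F.obj U} (hu : Uni θ u) (hu' : Uni θ u') : V ≅ V' where
  hom := lf fB hu hu' (𝟙 U)
  inv := lf fB hu' hu (𝟙 U)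
  hom_inv_id := by rw [lf_comp fB hinj, Category.comp_id, lf_id fB hinj]
  inv_hom_id := by rw [lf_comp fB hinj, Category.comp_id, lf_id fB hinj]

/-- The comparison functor. -/
@[simps]
noncomputable def cmpFunctor (fB : Form O K G Y) (hinj : Function.Injective (algebraMap O K))
    (c : Choice θ) : A ⥤ B where
  obj U := c.obj U
  map {U U'} a := lf fB (c.uni U) (c.uni U') a
  map_id U := lf_id fB hinj _
  map_comp a a' := (lf_comp fB hinj _ _ _ _ _).symm

instance : (cmpFunctor fB hinj c).Additive where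
  map_add {U U' a a'} := lf_add fB hinj (c.uni U) (c.uni U') a a'

include fA in
lemma cmpFunctor_linear : (cmpFunctor fB hinj c).Linear O where
  map_smul {U U'} a r := lf_smul fA fB hinj (c.uni U) (c.uni U') r a

include fA in
lemma cmpFunctor_isEquivalence [HasFiniteBiproducts A] :
    (cmpFunctor fB hinj c).IsEquivalence where
  faithful :=
    { map_injective := fun {U U'} a a' h => by
        apply fA.faithful hinj
        rw [← cancel_epi (c.iso U).hom]
        have h1 := lf_spec fB (c.uni U) (c.uni U') a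
        have h2 := lf_spec fB (c.uni U) (c.uni U') a'
        rw [← h1, ← h2]
        exact congrArg (fun x => G.map x ≫ (c.iso U').hom) h }
  full :=
    { map_surjective := fun {U U'} b => by
        obtain ⟨a, ha⟩ := (c.uni U).exists_lift' fA (c.uni U') b
        exact ⟨a, (lf_unique fB hinj (c.uni U) (c.uni U') a b ha).symm⟩ }
  essSurj :=
    { mem_essImage := fun V => by
        obtain ⟨U, u, hu⟩ := exists_uni_right fA fB (θ := θ) V
        exact ⟨U, ⟨lfIso fB hinj (c.uni U) hu⟩⟩ }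

end functor

section monoidal

variable [MonoidalCategory A] [MonoidalPreadditive A] [MonoidalLinear O A]
  [MonoidalCategory B] [MonoidalPreadditive B] [MonoidalLinear O B]
  [MonoidalCategory E] [MonoidalPreadditive E] [MonoidalLinear K E]
  [F.Monoidal] [G.Monoidal]

/-- The comparison isomorphisms respect the integral structures of tensor products. -/
structure TensorUni (G : B ⥤ E) (F : A ⥤ E) [F.Monoidal] [G.Monoidal]
    {X : I → A} {Y : I → B}
    (θ : ∀ i, G.obj (Y i) ≅ F.obj (X i)) : Prop where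
  left : ∀ {i j l : I} (n : X l ⟶ X i ⊗ X j), ∃ t : Y l ⟶ Y i ⊗ Y j,
    (θ l).hom ≫ F.map n = G.map t ≫ tens G F (θ i).hom (θ j).hom
  right : ∀ {i j l : I} (q : Y l ⟶ Y i ⊗ Y j), ∃ n : X l ⟶ X i ⊗ X j,
    (θ l).hom ≫ F.map n = G.map q ≫ tens G F (θ i).hom (θ j).hom

variable (hT : TensorUni G F θ)

lemma tensor_expand {C : Type*} [Category C] [Preadditive C] [MonoidalCategory C]
    [MonoidalPreadditive C] {T : I → C} {P Q : C} (d : Dec T P) (d' : Dec T Q) :
    ∑ b, ∑ b', (d.prj b ⊗ₘ d'.prj b') ≫ (d.inc b ⊗ₘ d'.inc b') = 𝟙 (P ⊗ Q) := by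
  have h1 : ∀ b b', (d.prj b ⊗ₘ d'.prj b') ≫ (d.inc b ⊗ₘ d'.inc b') =
      ((d.prj b ≫ d.inc b) ▷ Q) ≫ (P ◁ (d'.prj b' ≫ d'.inc b')) := by
    intro b b'
    rw [MonoidalCategory.tensorHom_comp_tensorHom, MonoidalCategory.tensorHom_def]
  simp_rw [h1, ← Preadditive.comp_sum, ← whiskerLeft_sum, d'.sum, ← Preadditive.sum_comp,
    ← sum_whiskerRight, d.sum]
  simp

include fA fB hT in
lemma uni_tensor {V V' : B} {U U' : A} {u : G.obj V ≅ F.obj U} {u' : G.obj V' ≅ F.obj U'}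
    (hu : Uni θ u) (hu' : Uni θ u') : Uni θ (tensIso G F u u') := by
  constructor
  · intro l f
    let d := fA.dec U
    let d' := fA.dec U'
    choose t ht using fun b b' => hT.left (f ≫ (d.prj b ⊗ₘ d'.prj b'))
    choose g hg using fun b => hu.1 _ (d.inc b)
    choose g' hg' using fun b => hu'.1 _ (d'.inc b)
    refine ⟨∑ b, ∑ b', t b b' ≫ (g b ⊗ₘ g' b'), ?_⟩
    have h1 : ∀ b b', G.map (t b b' ≫ (g b ⊗ₘ g' b')) ≫ tens G F u.hom u'.hom =
        (θ l).hom ≫ F.map (f ≫ (d.prj b ⊗ₘ d'.prj b') ≫ (d.inc b ⊗ₘ d'.inc b')) := by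
      intro b b'
      rw [G.map_comp, Category.assoc, map_tens, hg b, hg' b', ← tens_map_right,
        ← reassoc_of% (ht b b'), ← F.map_comp, Category.assoc]
    rw [tensIso_hom, G.map_sum, Preadditive.sum_comp]
    simp_rw [G.map_sum, Preadditive.sum_comp, h1, ← Preadditive.comp_sum, ← F.map_sum,
      ← Preadditive.comp_sum]
    rw [tensor_expand d d', Category.comp_id]
  · intro l g
    let d := fB.dec V
    let d' := fB.dec V'
    choose n hn using fun b b' => hT.right (g ≫ (d.prj b ⊗ₘ d'.prj b'))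
    choose f hf using fun b => hu.2 _ (d.inc b)
    choose f' hf' using fun b => hu'.2 _ (d'.inc b)
    refine ⟨∑ b, ∑ b', n b b' ≫ (f b ⊗ₘ f' b'), ?_⟩
    have h1 : ∀ b b', (θ l).hom ≫ F.map (n b b' ≫ (f b ⊗ₘ f' b')) =
        G.map (g ≫ (d.prj b ⊗ₘ d'.prj b') ≫ (d.inc b ⊗ₘ d'.inc b')) ≫
          tens G F u.hom u'.hom := by
      intro b b'
      rw [F.map_comp, reassoc_of% (hn b b'), tens_map_right, ← hf b, ← hf' b', ← map_tens,
        ← G.map_comp_assoc, Category.assoc]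
    rw [tensIso_hom, F.map_sum, Preadditive.comp_sum]
    simp_rw [F.map_sum, Preadditive.comp_sum, h1, ← Preadditive.sum_comp, ← G.map_sum,
      ← Preadditive.comp_sum]
    rw [tensor_expand d d', Category.comp_id]

include fA fB in
lemma uni_unit {i₀ : I} (eA : X i₀ ≅ 𝟙_ A) (eB : Y i₀ ≅ 𝟙_ B)
    (hθ : G.map eB.hom ≫ uu G F = (θ i₀).hom ≫ F.map eA.hom) :
    Uni θ (uuIso G F) := by
  constructor
  · intro i f
    obtain ⟨g, hg⟩ := (uni_self fA fB (θ := θ) i₀).1 i (f ≫ eA.inv)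
    refine ⟨g ≫ eB.hom, ?_⟩
    rw [uuIso_hom, G.map_comp, Category.assoc, hθ, reassoc_of% hg, ← F.map_comp]
    simp
  · intro i g
    obtain ⟨f, hf⟩ := (uni_self fA fB (θ := θ) i₀).2 i (g ≫ eB.inv)
    refine ⟨f ≫ eA.hom, ?_⟩
    rw [uuIso_hom, F.map_comp, ← reassoc_of% hf, ← hθ, ← G.map_comp_assoc]
    simp

section nat

variable {V V' V'' W W' W'' : B} {U U' U'' : A} {u : G.obj V ≅ F.obj U}
  {u' : G.obj V' ≅ F.obj U'} {u'' : G.obj V'' ≅ F.obj U''}
  (hu : Uni θ u) (hu' : Uni θ u') (hu'' : Uni θ u'')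

include hinj in
lemma lf_natural_left {w : G.obj W ≅ F.obj (U ⊗ U'')} {w' : G.obj W' ≅ F.obj (U' ⊗ U'')}
    (hw : Uni θ w) (hw' : Uni θ w') (a : U ⟶ U') :
    lf fB hu hu' a ▷ V'' ≫ lf fB (uni_tensor fA fB hT hu' hu'') hw' (𝟙 _) =
      lf fB (uni_tensor fA fB hT hu hu'') hw (𝟙 _) ≫ lf fB hw hw' (a ▷ U'') := by
  apply lift_unique fB hinj w'
  rw [G.map_comp, G.map_comp, Category.assoc, Category.assoc, lf_spec, lf_spec,
    lf_spec_assoc, tensIso_hom, tensIso_hom, F.map_id, F.map_id, Category.comp_id,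
    Category.id_comp, map_whiskerRight_tens, lf_spec, tens_map_whiskerRight]

include hinj in
lemma lf_natural_right {w : G.obj W ≅ F.obj (U'' ⊗ U)} {w' : G.obj W' ≅ F.obj (U'' ⊗ U')}
    (hw : Uni θ w) (hw' : Uni θ w') (a : U ⟶ U') :
    V'' ◁ lf fB hu hu' a ≫ lf fB (uni_tensor fA fB hT hu'' hu') hw' (𝟙 _) =
      lf fB (uni_tensor fA fB hT hu'' hu) hw (𝟙 _) ≫ lf fB hw hw' (U'' ◁ a) := by
  apply lift_unique fB hinj w'
  rw [G.map_comp, G.map_comp, Category.assoc, Category.assoc, lf_spec, lf_spec,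
    lf_spec_assoc, tensIso_hom, tensIso_hom, F.map_id, F.map_id, Category.comp_id,
    Category.id_comp, map_whiskerLeft_tens, lf_spec, tens_map_whiskerLeft]

include hinj in
lemma lf_assoc {W₁ W₂ W₃ W₄ : B} {w₁ : G.obj W₁ ≅ F.obj (U ⊗ U')}
    {w₂ : G.obj W₂ ≅ F.obj ((U ⊗ U') ⊗ U'')} {w₃ : G.obj W₃ ≅ F.obj (U' ⊗ U'')}
    {w₄ : G.obj W₄ ≅ F.obj (U ⊗ U' ⊗ U'')}
    (h₁ : Uni θ w₁) (h₂ : Uni θ w₂) (h₃ : Uni θ w₃) (h₄ : Uni θ w₄) :
    lf fB (uni_tensor fA fB hT hu hu') h₁ (𝟙 _) ▷ V'' ≫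
      lf fB (uni_tensor fA fB hT h₁ hu'') h₂ (𝟙 _) ≫ lf fB h₂ h₄ (α_ U U' U'').hom =
      (α_ V V' V'').hom ≫ V ◁ lf fB (uni_tensor fA fB hT hu' hu'') h₃ (𝟙 _) ≫
        lf fB (uni_tensor fA fB hT hu h₃) h₄ (𝟙 _) := by
  apply lift_unique fB hinj w₄
  simp only [G.map_comp, Category.assoc]
  rw [lf_spec, lf_spec_assoc, lf_spec, tensIso_hom, tensIso_hom, F.map_id, F.map_id,
    Category.comp_id, Category.id_comp, map_whiskerRight_tens_assoc, lf_spec,
    map_whiskerLeft_tens, lf_spec, tensIso_hom, tensIso_hom, F.map_id, F.map_id,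
    Category.comp_id, Category.comp_id, tens_assoc]

include hinj in
lemma lf_left_unit {W₁ W₂ : B} {w₁ : G.obj W₁ ≅ F.obj (𝟙_ A)} {w₂ : G.obj W₂ ≅ F.obj (𝟙_ A ⊗ U)}
    (h₁ : Uni θ w₁) (h₂ : Uni θ w₂) (hun : Uni θ (uuIso G F)) :
    (λ_ V).hom = lf fB hun h₁ (𝟙 _) ▷ V ≫ lf fB (uni_tensor fA fB hT h₁ hu) h₂ (𝟙 _) ≫
      lf fB h₂ hu (λ_ U).hom := by
  apply lift_unique fB hinj u
  simp only [G.map_comp, Category.assoc]
  rw [lf_spec, lf_spec_assoc, tensIso_hom, F.map_id,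
    Category.id_comp, map_whiskerRight_tens_assoc, lf_spec, F.map_id,
    Category.comp_id, uuIso_hom, uu_tens]

include hinj in
lemma lf_right_unit {W₁ W₂ : B} {w₁ : G.obj W₁ ≅ F.obj (𝟙_ A)} {w₂ : G.obj W₂ ≅ F.obj (U ⊗ 𝟙_ A)}
    (h₁ : Uni θ w₁) (h₂ : Uni θ w₂) (hun : Uni θ (uuIso G F)) :
    (ρ_ V).hom = V ◁ lf fB hun h₁ (𝟙 _) ≫ lf fB (uni_tensor fA fB hT hu h₁) h₂ (𝟙 _) ≫
      lf fB h₂ hu (ρ_ U).hom := by
  apply lift_unique fB hinj u
  simp only [G.map_comp, Category.assoc]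
  rw [lf_spec, lf_spec_assoc, tensIso_hom, F.map_id,
    Category.id_comp, map_whiskerLeft_tens_assoc, lf_spec, F.map_id,
    Category.comp_id, uuIso_hom, tens_uu]

end nat

/-- The monoidal structure of the comparison functor. -/
noncomputable def cmpCore (fA : Form O K F X) (fB : Form O K G Y)
    (hinj : Function.Injective (algebraMap O K)) (c : Choice θ)
    (hT : TensorUni G F θ) (hun : Uni θ (uuIso G F)) : (cmpFunctor fB hinj c).CoreMonoidal where
  εIso := lfIso fB hinj hun (c.uni _)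
  μIso U U' := lfIso fB hinj (uni_tensor fA fB hT (c.uni U) (c.uni U')) (c.uni _)
  μIso_hom_natural_left {U U'} a U'' :=
    lf_natural_left fA fB hinj hT (c.uni U) (c.uni U') (c.uni U'') (c.uni _) (c.uni _) a
  μIso_hom_natural_right {U U'} U'' a :=
    lf_natural_right fA fB hinj hT (c.uni U) (c.uni U') (c.uni U'') (c.uni _) (c.uni _) a
  associativity U U' U'' :=
    lf_assoc fA fB hinj hT (c.uni U) (c.uni U') (c.uni U'') (c.uni _) (c.uni _) (c.uni _)
      (c.uni _)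
  left_unitality U := lf_left_unit fA fB hinj hT (c.uni U) (c.uni _) (c.uni _) hun
  right_unitality U := lf_right_unit fA fB hinj hT (c.uni U) (c.uni _) (c.uni _) hun

include fA fB in
/-- The integral forms are equivalent. -/
theorem exists_equivalence [HasFiniteBiproducts A] [HasFiniteBiproducts B]
    (hinj : Function.Injective (algebraMap O K)) {i₀ : I} (eA : X i₀ ≅ 𝟙_ A) (eB : Y i₀ ≅ 𝟙_ B)
    (hθ : G.map eB.hom ≫ uu G F = (θ i₀).hom ≫ F.map eA.hom) (hT : TensorUni G F θ) :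
    ∃ Φ : A ⥤ B, Φ.Additive ∧ Φ.Linear O ∧ Φ.IsEquivalence ∧ Nonempty Φ.Monoidal := by
  choose V u hu using exists_uni_left fA fB (θ := θ)
  let c : Choice θ := ⟨V, u, hu⟩
  exact ⟨cmpFunctor fB hinj c, inferInstance, cmpFunctor_linear fA fB hinj c,
    cmpFunctor_isEquivalence fA fB hinj c,
    ⟨(cmpCore fA fB hinj c hT (uni_unit fA fB eA eB hθ)).toMonoidal⟩⟩

end monoidal

end Pool.Agent.W451.UGR
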