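import Pool.Agent.W451.UGR.Dec
import Pool.Agent.W451.UGR.Dual

/-!
# Simple objects and their duals
-/

set_option autoImplicit false

open CategoryTheory MonoidalCategory CategoryTheory.Limits

namespace Pool.Agent.W451.UGR

universe v u v' u'

section basic

variable {R : Type*} [CommRing R] {C : Type u} [Category.{v} C] [Preadditive C] [Linear R C]
  {I : Type*} {X : I → C}

/-- The endomorphisms of `P` are the scalars. -/
structure IsSimpleObj (R : Type*) [CommRing R] {C : Type u} [Category.{v} C] [Preadditive C]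
    [Linear R C] (P : C) : Prop where
  scal : ∀ f : P ⟶ P, ∃ r : R, f = r • 𝟙 P
  inj : ∀ r : R, r • 𝟙 P = 0 → r = 0

lemma SimpleFam.isSimpleObj (h : SimpleFam R X) (i : I) : IsSimpleObj R (X i) :=
  ⟨fun f => h.scal f, fun r hr => h.inj r hr⟩

lemma IsSimpleObj.of_iso {P Q : C} (h : IsSimpleObj R P) (e : P ≅ Q) : IsSimpleObj R Q where
  scal f := by
    obtain ⟨r, hr⟩ := h.scal (e.hom ≫ f ≫ e.inv)
    refine ⟨r, ?_⟩
    have : f = e.inv ≫ (e.hom ≫ f ≫ e.inv) ≫ e.hom := by simp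
    rw [this, hr]
    simp
  inj r hr := by
    refine h.inj r ?_
    have : r • 𝟙 P = e.hom ≫ (r • 𝟙 Q) ≫ e.inv := by simp
    rw [this, hr]
    simp

/-- The decomposition of a biproduct. -/
noncomputable def decOfIso [HasFiniteBiproducts C] {n : ℕ} {t : Fin n → I} {Y : C}
    (e : Y ≅ ⨁ fun b => X (t b)) : Dec X Y where
  n := n
  t := t
  inc b := biproduct.ι (fun b => X (t b)) b ≫ e.inv
  prj b := e.hom ≫ biproduct.π (fun b => X (t b)) b
  inc_prj b := by simp
  inc_prj_ne b c h := by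
    rw [Category.assoc, e.inv_hom_id_assoc, biproduct.ι_π_ne _ h]
  sum := by
    have h1 : ∀ b, (e.hom ≫ biproduct.π (fun b => X (t b)) b) ≫
        biproduct.ι (fun b => X (t b)) b ≫ e.inv =
        e.hom ≫ (biproduct.π (fun b => X (t b)) b ≫ biproduct.ι (fun b => X (t b)) b) ≫ e.inv := by
      intro b; simp
    simp_rw [h1]
    rw [← Preadditive.comp_sum, ← Preadditive.sum_comp, biproduct.total]
    simp

/-- An object whose endomorphisms are the scalars is one of the simple objects. -/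
lemma Dec.exists_iso [IsDomain R] {P : C} (d : Dec X P) (hP : IsSimpleObj R P) :
    ∃ i, Nonempty (P ≅ X i) := by
  choose r hr using fun b => hP.scal (d.prj b ≫ d.inc b)
  have h1 : ∀ b, r b = 0 ∨ r b = 1 := by
    intro b
    have h2 : (d.prj b ≫ d.inc b) ≫ (d.prj b ≫ d.inc b) = d.prj b ≫ d.inc b := by simp
    have h3 : (r b * r b - r b) • 𝟙 P = 0 := by
      rw [sub_smul, sub_eq_zero]
      rw [hr b] at h2
      simpa [smul_smul] using h2
    have h4 := hP.inj _ h3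
    have h5 : r b * (r b - 1) = 0 := by linear_combination h4
    rcases mul_eq_zero.1 h5 with h6 | h6
    · exact Or.inl h6
    · exact Or.inr (sub_eq_zero.1 h6)
  by_cases h7 : ∀ b, r b = 0
  · exfalso
    have h8 : 𝟙 P = 0 := by
      rw [← d.sum]
      refine Finset.sum_eq_zero fun b _ => ?_
      rw [hr b, h7 b, zero_smul]
    exact one_ne_zero (hP.inj (1 : R) (by rw [one_smul, h8]))
  · push Not at h7
    obtain ⟨b, hb⟩ := h7
    have h9 : r b = 1 := (h1 b).resolve_left hb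
    refine ⟨d.t b, ⟨⟨d.prj b, d.inc b, ?_, d.inc_prj b⟩⟩⟩
    rw [hr b, h9, one_smul]

lemma SimpleFam.eq_of_iso [Nontrivial R] (h : SimpleFam R X) {i j : I} (e : X i ≅ X j) :
    i = j := by
  by_contra hij
  have h1 : e.hom = 0 := h.zero hij _
  have h2 : 𝟙 (X i) = 0 := by rw [← e.hom_inv_id, h1, zero_comp]
  exact one_ne_zero (h.inj (i := i) (1 : R) (by rw [one_smul, h2]))

lemma SimpleFam.map {D : Type u'} [Category.{v'} D] [Preadditive D] [Linear R D]
    (h : SimpleFam R X) (F : C ⥤ D) [F.Additive] [F.Linear R] [F.Full] [F.Faithful] :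
    SimpleFam R (fun i => F.obj (X i)) where
  zero {i j} hij f := by
    obtain ⟨g, rfl⟩ := F.map_surjective f
    rw [h.zero hij g, F.map_zero]
  scal {i} f := by
    obtain ⟨g, rfl⟩ := F.map_surjective f
    obtain ⟨r, rfl⟩ := h.scal g
    exact ⟨r, by rw [F.map_smul, F.map_id]⟩
  inj {i} r hr := by
    refine h.inj (i := i) r (F.map_injective ?_)
    rw [F.map_smul, F.map_id, hr, F.map_zero]

end basic

section dual

variable {R : Type*} [CommRing R] {C : Type u} [Category.{v} C] [Preadditive C] [Linear R C]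
  [MonoidalCategory C] [MonoidalPreadditive C] [MonoidalLinear R C]
  {I : Type*} {X : I → C}

/-- Every morphism from the unit to `Z ⊗ Y` factors through the coevaluation. -/
lemma exists_coev_comp' (X Y : C) [ExactPairing X Y] {Z : C} (g : 𝟙_ C ⟶ Z ⊗ Y) :
    ∃ h : X ⟶ Z, g = η_ X Y ≫ h ▷ Y := by
  refine ⟨(λ_ X).inv ≫ (tensorRightHomEquiv (𝟙_ C) X Y Z).symm g, ?_⟩
  conv_lhs => rw [← (tensorRightHomEquiv (𝟙_ C) X Y Z).apply_symm_apply g]
  generalize (tensorRightHomEquiv (𝟙_ C) X Y Z).symm g = f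
  change (ρ_ _).inv ≫ _ ◁ η_ _ _ ≫ (α_ _ _ _).inv ≫ f ▷ _ = _
  rw [comp_whiskerRight]
  have h1 : (ρ_ (𝟙_ C)).inv ≫ (𝟙_ C) ◁ η_ X Y = η_ X Y ≫ (λ_ (X ⊗ Y)).inv := by
    rw [← unitors_inv_equal, ← leftUnitor_inv_naturality]
  rw [reassoc_of% h1]
  simp

/-- A morphism is determined by its composition with the coevaluation. -/
lemma coev_comp_injective (X Y : C) [ExactPairing X Y] {W : C} {f g : Y ⟶ W}
    (h : η_ X Y ≫ X ◁ f = η_ X Y ≫ X ◁ g) : f = g := by
  have key : ∀ f : Y ⟶ W, f = (ρ_ Y).inv ≫ Y ◁ (η_ X Y ≫ X ◁ f) ≫ (α_ Y X W).inv ≫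
      ε_ X Y ▷ W ≫ (λ_ W).hom := by
    intro f
    have h1 : Y ◁ (η_ X Y ≫ X ◁ f) ≫ (α_ Y X W).inv = (Y ◁ η_ X Y ≫ (α_ Y X Y).inv) ≫
        (Y ⊗ X) ◁ f := by
      rw [MonoidalCategory.whiskerLeft_comp]
      simp
    have h2 : (Y ⊗ X) ◁ f ≫ ε_ X Y ▷ W = ε_ X Y ▷ Y ≫ (𝟙_ C) ◁ f := by
      rw [whisker_exchange]
    rw [reassoc_of% h1, reassoc_of% h2]
    have h3 := ExactPairing.coevaluation_evaluation X Y
    have h4 : Y ◁ η_ X Y ≫ (α_ Y X Y).inv ≫ ε_ X Y ▷ Y ≫ (𝟙_ C) ◁ f ≫ (λ_ W).hom =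
        (ρ_ Y).hom ≫ (λ_ Y).inv ≫ (𝟙_ C) ◁ f ≫ (λ_ W).hom := by
      rw [reassoc_of% h3]
    rw [h4]
    simp
  rw [key f, key g, h]

lemma IsSimpleObj.dual {P D : C} [ExactPairing P D] (hP : IsSimpleObj R P) :
    IsSimpleObj R D where
  scal f := by
    obtain ⟨h, hh⟩ := exists_coev_comp' P D (η_ P D ≫ P ◁ f)
    obtain ⟨r, rfl⟩ := hP.scal h
    refine ⟨r, coev_comp_injective P D ?_⟩
    rw [hh]
    simp
  inj r hr := by
    refine hP.inj r ?_
    have h1 : r • η_ P D = 0 := by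
      have : r • η_ P D = η_ P D ≫ P ◁ (r • 𝟙 D) := by simp
      rw [this, hr]
      simp
    have h2 : r • 𝟙 P = (λ_ P).inv ≫ ((r • η_ P D) ▷ P ≫ (α_ P D P).hom ≫ P ◁ ε_ P D) ≫
        (ρ_ P).hom := by
      rw [MonoidalLinear.smul_whiskerRight, Linear.smul_comp,
        ExactPairing.evaluation_coevaluation]
      simp
    rw [h2, h1]
    simp

/-- Every simple object has a dual among the simple objects. -/
lemma exists_dual_index [IsDomain R] [RightRigidCategory C] (hX : SimpleFam R X)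
    (dec : ∀ U : C, Dec X U) (i : I) : ∃ j, Nonempty (ExactPairing (X i) (X j)) := by
  have h1 : IsSimpleObj R (X i)ᘁ := (hX.isSimpleObj i).dual
  obtain ⟨j, ⟨e⟩⟩ := (dec (X i)ᘁ).exists_iso h1
  exact ⟨j, ⟨exactPairingCongrRight e.symm⟩⟩

end dual

end Pool.Agent.W451.UGR
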