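import Pool.Agent.W451.UGR.Choice
import Pool.Agent.W451.UGR.Glue
import Pool.Agent.W451.UGR.Match
import Pool.Agent.W451.UGR.Equiv

/-!
# Equivalence of integral forms
-/

set_option autoImplicit false
set_option linter.unusedSectionVars false

open CategoryTheory MonoidalCategory CategoryTheory.Limits

namespace Pool.Agent.W451.UGR

universe w₁ w v u v₁ u₁ v₂ u₂

section forms

variable {O K : Type*} [CommRing O] [Field K] [Algebra O K]
  {A : Type u₁} [Category.{v₁} A] [Preadditive A] [Linear O A]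
  [MonoidalCategory A] [MonoidalPreadditive A] [MonoidalLinear O A]
  {E : Type u} [Category.{v} E] [Preadditive E] [Linear K E]
  {I : Type*} {X : I → A}
  (Φ : BC O K A ⥤ E) [Φ.Additive] [Φ.Linear K] [Φ.IsEquivalence]

/-- The integral form given by an equivalence with the base change. -/
def formOf (hX : SimpleFam O X) (dec : ∀ U, Dec X U) : Form O K (BC.incl O K A ⋙ Φ) X where
  smul r f := by
    change Φ.map ((BC.incl O K A).map (r • f)) = _
    rw [BC.incl_smul, Φ.map_smul]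
    rfl
  simple := hX
  simpleK := (simpleFam_red K hX).map Φ
  dec := dec

/-- The decompositions of the objects of `E`. -/
noncomputable def decE (dec : ∀ U : A, Dec X U) (P : E) :
    Dec (fun i => (BC.incl O K A ⋙ Φ).obj (X i)) P :=
  ((redDec (O := O) K dec (Φ.objPreimage P)).map Φ).ofIso (Φ.objObjPreimageIso P)

lemma incl_hom_zero {U V : A} (h : ∀ q : U ⟶ V, q = 0)
    (φ : (BC.incl O K A ⋙ Φ).obj U ⟶ (BC.incl O K A ⋙ Φ).obj V) : φ = 0 := by
  obtain ⟨ψ, rfl⟩ := Φ.map_surjective φ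
  have : ψ = 0 := by
    induction ψ using BC.hom_induction with
    | zero => rfl
    | add x y hx hy => rw [hx, hy, add_zero]
    | tm s g =>
      have : g = 0 := h g
      rw [this]
      exact BC.tm_zero s
  rw [this, Φ.map_zero]

end forms

section matching

variable {O K : Type*} [CommRing O] [Field K] [Algebra O K]
  {A : Type u₁} [Category.{v₁} A] [Preadditive A] [Linear O A]
  [MonoidalCategory A] [MonoidalPreadditive A] [MonoidalLinear O A]
  {B : Type u₂} [Category.{v₂} B] [Preadditive B] [Linear O B]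
  [MonoidalCategory B] [MonoidalPreadditive B] [MonoidalLinear O B]
  {E : Type u} [Category.{v} E] [Preadditive E] [Linear K E]
  [MonoidalCategory E] [MonoidalPreadditive E] [MonoidalLinear K E]
  {I J : Type*} {X : I → A} {Y₀ : J → B}
  (Φ : BC O K A ⥤ E) [Φ.Additive] [Φ.Linear K] [Φ.IsEquivalence] [Φ.Monoidal]
  (Ψ : BC O K B ⥤ E) [Ψ.Additive] [Ψ.Linear K] [Ψ.IsEquivalence] [Ψ.Monoidal]

/-- The simple objects of the two forms correspond to each other. -/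
lemma exists_matching (hX : SimpleFam O X) (decX : ∀ U, Dec X U) (hY : SimpleFam O Y₀)
    (decY : ∀ U, Dec Y₀ U) : ∃ σ : I ≃ J, ∀ i,
      Nonempty ((BC.incl O K B ⋙ Ψ).obj (Y₀ (σ i)) ≅ (BC.incl O K A ⋙ Φ).obj (X i)) := by
  have sX : SimpleFam K (fun i => (BC.incl O K A ⋙ Φ).obj (X i)) := (simpleFam_red K hX).map Φ
  have sY : SimpleFam K (fun i => (BC.incl O K B ⋙ Ψ).obj (Y₀ i)) := (simpleFam_red K hY).map Ψ
  have h1 : ∀ i, ∃ j, Nonempty ((BC.incl O K A ⋙ Φ).obj (X i) ≅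
      (BC.incl O K B ⋙ Ψ).obj (Y₀ j)) := fun i =>
    (decE Ψ decY _).exists_iso (sX.isSimpleObj i)
  have h2 : ∀ j, ∃ i, Nonempty ((BC.incl O K B ⋙ Ψ).obj (Y₀ j) ≅
      (BC.incl O K A ⋙ Φ).obj (X i)) := fun j =>
    (decE Φ decX _).exists_iso (sY.isSimpleObj j)
  choose f hf using h1
  choose g hg using h2
  let σ : I ≃ J :=
    { toFun := f
      invFun := g
      left_inv := fun i => by
        obtain ⟨e⟩ := hf i
        obtain ⟨e'⟩ := hg (f i)
        exact sX.eq_of_iso (e ≪≫ e').symm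
      right_inv := fun j => by
        obtain ⟨e⟩ := hg j
        obtain ⟨e'⟩ := hf (g j)
        exact sY.eq_of_iso (e ≪≫ e').symm }
  exact ⟨σ, fun i => (hf i).map fun e => e.symm⟩

/-- The dualities on the sets of simple objects agree. -/
lemma dual_index_eq [Nontrivial O] (hinj : Function.Injective (algebraMap O K))
    {Y : I → B} (hX : SimpleFam O X) (decX : ∀ U, Dec X U) (hY : SimpleFam O Y)
    (θ : ∀ i, (BC.incl O K B ⋙ Ψ).obj (Y i) ≅ (BC.incl O K A ⋙ Φ).obj (X i))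
    {i l l' : I} (e₁ : ExactPairing (X i) (X l)) (e₂ : ExactPairing (Y i) (Y l')) : l = l' := by
  by_contra hne
  have h1 : ∀ q : Y l ⊗ Y i ⟶ 𝟙_ B, q = 0 := by
    intro q
    obtain ⟨h, hh⟩ := exists_comp_ev (Y i) (Y l') q
    rw [hh, hY.zero hne h]
    simp
  have h2 := incl_hom_zero Ψ h1 ((tensIso _ _ (θ l) (θ i)).hom ≫
    (BC.incl O K A ⋙ Φ).map (ε_ (X i) (X l)) ≫
      (uuIso (BC.incl O K B ⋙ Ψ) (BC.incl O K A ⋙ Φ)).inv)
  have h3 : (BC.incl O K A ⋙ Φ).map (ε_ (X i) (X l)) = 0 := by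
    rw [← cancel_epi (tensIso _ _ (θ l) (θ i)).hom,
      ← cancel_mono (uuIso (BC.incl O K B ⋙ Ψ) (BC.incl O K A ⋙ Φ)).inv,
      Category.assoc, h2]
    simp
  have h4 : ε_ (X i) (X l) = 0 :=
    (formOf (K := K) Φ hX decX).faithful hinj (by rw [h3, Functor.map_zero])
  have h5 : (λ_ (X i)).hom ≫ (ρ_ (X i)).inv = 0 := by
    rw [← ExactPairing.evaluation_coevaluation (X i) (X l), h4]; simp
  have h6 : 𝟙 (X i) = 0 := by
    have : 𝟙 (X i) = (λ_ (X i)).inv ≫ ((λ_ (X i)).hom ≫ (ρ_ (X i)).inv) ≫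
        (ρ_ (X i)).hom := by simp
    rw [this, h5]; simp
  exact one_ne_zero (hX.inj (i := i) (1 : O) (by rw [one_smul, h6]))

end matching

section core

variable {O K k : Type*} [CommRing O] [IsDomain O] [Field K] [Algebra O K] [Field k] [Algebra O k]
  {A : Type u₁} [Category.{v₁} A] [Preadditive A] [Linear O A]
  [MonoidalCategory A] [MonoidalPreadditive A] [MonoidalLinear O A]
  {B : Type u₂} [Category.{v₂} B] [Preadditive B] [Linear O B]
  [MonoidalCategory B] [MonoidalPreadditive B] [MonoidalLinear O B]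
  {E : Type u} [Category.{v} E] [Preadditive E] [Linear K E]
  [MonoidalCategory E] [MonoidalPreadditive E] [MonoidalLinear K E]
  {I J : Type*} {X : I → A} {Y₀ : J → B}
  (Φ : BC O K A ⥤ E) [Φ.Additive] [Φ.Linear K] [Φ.IsEquivalence] [Φ.Monoidal]
  (Ψ : BC O K B ⥤ E) [Ψ.Additive] [Ψ.Linear K] [Ψ.IsEquivalence] [Ψ.Monoidal]

include Φ Ψ in
/-- Two integral forms of the same category are equivalent. -/
theorem core [HasFiniteBiproducts A] [HasFiniteBiproducts B] [RightRigidCategory A]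
    [RightRigidCategory B] [Finite I]
    (v : AbsoluteValue K ℝ) (hinj : Function.Injective (algebraMap O K))
    (hsurj : Function.Surjective (algebraMap O k))
    (hk : ∀ r : O, algebraMap O k r = 0 ↔ ¬ IsUnit r)
    (hv : ∀ x : K, v x ≤ 1 ↔ ∃ r : O, algebraMap O K r = x)
    (hvu : ∀ r : O, IsUnit r ↔ v (algebraMap O K r) = 1)
    (hdiv : ∀ x : K, x ≠ 0 → ∀ n : ℕ, 0 < n → ∃ y : K, v y ^ n = v x)
    (hnt : ∃ x : K, x ≠ 0 ∧ v x ≠ 1)
    (hX : SimpleFam O X) (decX : ∀ U, Dec X U) (hY : SimpleFam O Y₀) (decY : ∀ U, Dec Y₀ U)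
    {i₀ : I} (eA : X i₀ ≅ 𝟙_ A) {j₀ : J} (eB₀ : Y₀ j₀ ≅ 𝟙_ B) :
    ∃ Θ : A ⥤ B, Θ.Additive ∧ Θ.Linear O ∧ Θ.IsEquivalence ∧ Nonempty Θ.Monoidal := by
  classical
  obtain ⟨σ, hσ⟩ := exists_matching Φ Ψ hX decX hY decY
  let θ₀ := fun i => (hσ i).some
  have hσ₀ : σ i₀ = j₀ := by
    have sY : SimpleFam K (fun i => (BC.incl O K B ⋙ Ψ).obj (Y₀ i)) :=
      (simpleFam_red K hY).map Ψ
    refine sY.eq_of_iso ?_
    exact θ₀ i₀ ≪≫ (BC.incl O K A ⋙ Φ).mapIso eA ≪≫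
      (uuIso (BC.incl O K A ⋙ Φ) (BC.incl O K B ⋙ Ψ)) ≪≫
      ((BC.incl O K B ⋙ Ψ).mapIso eB₀).symm
  let Y : I → B := fun i => Y₀ (σ i)
  have hYs : SimpleFam O Y :=
    { zero := fun {i j} hij f => hY.zero (fun h => hij (σ.injective h)) f
      scal := fun {i} f => hY.scal f
      inj := fun {i} r hr => hY.inj (i := σ i) r hr }
  let decY' : ∀ U, Dec Y U := fun U => (decY U).reindex σ.symm
    (fun j => eqToIso (by rw [show Y (σ.symm j) = Y₀ (σ (σ.symm j)) from rfl,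
      Equiv.apply_symm_apply]))
  subst hσ₀
  let eB : Y i₀ ≅ 𝟙_ B := eB₀
  choose st₁ hst₁ using fun i => exists_dual_index hX decX i
  choose st₂ hst₂ using fun i => exists_dual_index hYs decY' i
  let p₁ := fun i => (hst₁ i).some
  let p₂ := fun i => (hst₂ i).some
  have hst : ∀ i, st₂ i = st₁ i := fun i =>
    (dual_index_eq Φ Ψ hinj hX decX hYs θ₀ (p₁ i) (p₂ i)).symm
  obtain rfl : st₂ = st₁ := funext hst
  let θ : ∀ i, (BC.incl O K B ⋙ Ψ).obj (Y i) ≅ (BC.incl O K A ⋙ Φ).obj (X i) :=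
    Function.update θ₀ i₀ ((BC.incl O K B ⋙ Ψ).mapIso eB ≪≫
      uuIso (BC.incl O K B ⋙ Ψ) (BC.incl O K A ⋙ Φ) ≪≫
      ((BC.incl O K A ⋙ Φ).mapIso eA).symm)
  have hθ : (BC.incl O K B ⋙ Ψ).map eB.hom ≫ uu (BC.incl O K B ⋙ Ψ) (BC.incl O K A ⋙ Φ) =
      (θ i₀).hom ≫ (BC.incl O K A ⋙ Φ).map eA.hom := by
    have h1 : θ i₀ = (BC.incl O K B ⋙ Ψ).mapIso eB ≪≫
      uuIso (BC.incl O K B ⋙ Ψ) (BC.incl O K A ⋙ Φ) ≪≫
      ((BC.incl O K A ⋙ Φ).mapIso eA).symm := Function.update_self ..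
    rw [h1]
    simp only [Iso.trans_hom, Functor.mapIso_hom, Iso.symm_hom, Functor.mapIso_inv,
      Category.assoc]
    rw [← (BC.incl O K A ⋙ Φ).map_comp, eA.inv_hom_id, CategoryTheory.Functor.map_id,
      Category.comp_id]
    rfl
  let _ := Fintype.ofFinite I
  let fA := formOf Φ hX decX
  let fB := formOf Ψ hYs decY'
  let _ : ∀ i, ExactPairing (X i) (X (st₂ i)) := p₁
  let _ : ∀ i, ExactPairing (Y i) (Y (st₂ i)) := p₂
  obtain ⟨θ', hθ', hfeas, hunit⟩ := exists_unimodular fA fB θ eA eB v (k := k) (st := st₂)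
    hinj hsurj hk hv hvu hdiv hnt hθ
  have hT : TensorUni (BC.incl O K B ⋙ Ψ) (BC.incl O K A ⋙ Φ) θ' :=
    { left := fun {i j l} n => by
        obtain ⟨a, ha, hs⟩ := hunit i
        exact lift_inverse fA fB hfeas ha hs n
      right := fun {i j l} q => hfeas.right fA q }
  exact exists_equivalence fA fB hinj eA eB hθ' hT

end core

section bundled

lemma simpleFam_of {O : Type*} [CommRing O] {A : Type u₁} [Category.{v₁} A] [Preadditive A]
    [Linear O A] {I : Type*} {X : I → A} (h₁ : ∀ i j, i ≠ j → ∀ f : X i ⟶ X j, f = 0)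
    (h₂ : ∀ i, Function.Bijective fun r : O => r • 𝟙 (X i)) : SimpleFam O X where
  zero {i j} hij f := h₁ i j hij f
  scal {i} f := by
    obtain ⟨r, hr⟩ := (h₂ i).2 f
    exact ⟨r, hr.symm⟩
  inj {i} r hr := (h₂ i).1 (by
    change r • 𝟙 (X i) = (0 : O) • 𝟙 (X i)
    rw [hr, zero_smul])

/-- Two semisimple rigid tensor categories over a valuation ring `O` of rank one with divisible
value group are tensor equivalent if their base changes to the field of fractions are. -/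
theorem tensorEquiv_of_baseChange {O : Type w} {K : Type w₁} {k : Type*} [CommRing O]
    [IsDomain O] [Field K] [Algebra O K] [Field k] [Algebra O k]
    (v : AbsoluteValue K ℝ) (hinj : Function.Injective (algebraMap O K))
    (hsurj : Function.Surjective (algebraMap O k))
    (hk : ∀ r : O, algebraMap O k r = 0 ↔ ¬ IsUnit r)
    (hv : ∀ x : K, v x ≤ 1 ↔ ∃ r : O, algebraMap O K r = x)
    (hvu : ∀ r : O, IsUnit r ↔ v (algebraMap O K r) = 1)
    (hdiv : ∀ x : K, x ≠ 0 → ∀ n : ℕ, 0 < n → ∃ y : K, v y ^ n = v x)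
    (hnt : ∃ x : K, x ≠ 0 ∧ v x ≠ 1)
    {M₁ : TensorCat.{w, v₁, u₁} O} {M₂ : TensorCat.{w, v₂, u₂} O} {C : TensorCat.{w₁, v, u} K}
    (h₁ : M₁.IsSemisimpleRigid) (h₂ : M₂.IsSemisimpleRigid)
    (e₁ : (M₁.baseChange K).TensorEquiv C) (e₂ : (M₂.baseChange K).TensorEquiv C) :
    M₁.TensorEquiv M₂ := by
  obtain ⟨fb₁, ⟨r₁⟩, I, finI, X, ⟨i₀, ⟨eA⟩⟩, ⟨z₁, b₁, d₁⟩⟩ := h₁
  obtain ⟨fb₂, ⟨r₂⟩, J, finJ, Y, ⟨j₀, ⟨eB⟩⟩, ⟨z₂, b₂, d₂⟩⟩ := h₂
  obtain ⟨Φ, a₁, l₁, q₁, ⟨m₁⟩⟩ := e₁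
  obtain ⟨Ψ, a₂, l₂, q₂, ⟨m₂⟩⟩ := e₂
  choose n₁ t₁ s₁ using d₁
  choose n₂ t₂ s₂ using d₂
  let Φ' : BC O K M₁.carrier ⥤ C.carrier := Φ
  let Ψ' : BC O K M₂.carrier ⥤ C.carrier := Ψ
  have a₁' : Φ'.Additive := a₁
  have a₂' : Ψ'.Additive := a₂
  have l₁' : Φ'.Linear K := l₁
  have l₂' : Ψ'.Linear K := l₂
  have q₁' : Φ'.IsEquivalence := q₁
  have q₂' : Ψ'.IsEquivalence := q₂
  let m₁' : Φ'.Monoidal := m₁
  let m₂' : Ψ'.Monoidal := m₂
  exact core Φ' Ψ' (k := k) v hinj hsurj hk hv hvu hdiv hnt (simpleFam_of z₁ b₁)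
    (fun U => decOfIso (s₁ U).some) (simpleFam_of z₂ b₂) (fun U => decOfIso (s₂ U).some) eA eB

end bundled

end Pool.Agent.W451.UGR
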