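import Mathlib

/-!
# Decompositions into simple objects
-/

set_option autoImplicit false

open CategoryTheory MonoidalCategory

namespace Pool.Agent.W451.UGR

universe v u

section Basic

variable {C : Type u} [Category.{v} C] [Preadditive C] {I : Type*}

/-- A decomposition of the object `Y` as a finite direct sum of members of the family `X`. -/
structure Dec (X : I → C) (Y : C) where
  /-- the number of summands -/
  n : ℕ
  /-- the summands -/
  t : Fin n → I
  /-- the inclusions -/
  inc : ∀ b, X (t b) ⟶ Y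
  /-- the projections -/
  prj : ∀ b, Y ⟶ X (t b)
  inc_prj : ∀ b, inc b ≫ prj b = 𝟙 _
  inc_prj_ne : ∀ b c, b ≠ c → inc b ≫ prj c = 0
  sum : ∑ b, prj b ≫ inc b = 𝟙 Y

attribute [reassoc (attr := simp)] Dec.inc_prj

namespace Dec

variable {X : I → C} {Y : C} (d : Dec X Y)

lemma expand_left {Z : C} (f : Y ⟶ Z) : f = ∑ b, d.prj b ≫ d.inc b ≫ f := by
  conv_lhs => rw [← Category.id_comp f, ← d.sum, Preadditive.sum_comp]
  simp

lemma expand_right {Z : C} (f : Z ⟶ Y) : f = ∑ b, (f ≫ d.prj b) ≫ d.inc b := by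
  conv_lhs => rw [← Category.comp_id f, ← d.sum, Preadditive.comp_sum]
  simp

lemma ext_left {Z : C} {f g : Y ⟶ Z} (h : ∀ b, d.inc b ≫ f = d.inc b ≫ g) : f = g := by
  rw [d.expand_left f, d.expand_left g]
  exact Finset.sum_congr rfl fun b _ => by rw [h b]

lemma ext_right {Z : C} {f g : Z ⟶ Y} (h : ∀ b, f ≫ d.prj b = g ≫ d.prj b) : f = g := by
  rw [d.expand_right f, d.expand_right g]
  exact Finset.sum_congr rfl fun b _ => by rw [h b]

/-- Transport of a decomposition along an isomorphism. -/
def ofIso {Z : C} (e : Y ≅ Z) : Dec X Z where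
  n := d.n
  t := d.t
  inc b := d.inc b ≫ e.hom
  prj b := e.inv ≫ d.prj b
  inc_prj b := by simp
  inc_prj_ne b c h := by simp [d.inc_prj_ne b c h]
  sum := by
    have : ∀ b, (e.inv ≫ d.prj b) ≫ d.inc b ≫ e.hom = e.inv ≫ (d.prj b ≫ d.inc b) ≫ e.hom := by
      intro b; simp
    simp_rw [this]
    rw [← Preadditive.comp_sum, ← Preadditive.sum_comp, d.sum]
    simp

/-- Transport of a decomposition to another family of objects. -/
def reindex {J : Type*} {X' : J → C} (σ : I → J) (e : ∀ i, X i ≅ X' (σ i)) : Dec X' Y where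
  n := d.n
  t b := σ (d.t b)
  inc b := (e (d.t b)).inv ≫ d.inc b
  prj b := d.prj b ≫ (e (d.t b)).hom
  inc_prj b := by simp
  inc_prj_ne b c h := by
    have := d.inc_prj_ne b c h
    rw [Category.assoc, ← Category.assoc (d.inc b), this]
    simp
  sum := by
    simp [d.sum]

/-- The image of a decomposition under an additive functor. -/
def map {D : Type*} [Category D] [Preadditive D] (F : C ⥤ D) [F.Additive] :
    Dec (fun i => F.obj (X i)) (F.obj Y) where
  n := d.n
  t := d.t
  inc b := F.map (d.inc b)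
  prj b := F.map (d.prj b)
  inc_prj b := by rw [← F.map_comp, d.inc_prj, F.map_id]
  inc_prj_ne b c h := by rw [← F.map_comp, d.inc_prj_ne b c h, F.map_zero]
  sum := by
    rw [← F.map_id, ← d.sum, F.map_sum]
    simp

end Dec

end Basic

section Linear

variable (R : Type*) [CommRing R] {C : Type u} [Category.{v} C] [Preadditive C] [Linear R C]
  {I : Type*}

/-- The objects `X i` are pairwise disjoint, with endomorphisms the scalars. -/
structure SimpleFam (X : I → C) : Prop where
  zero : ∀ {i j : I}, i ≠ j → ∀ f : X i ⟶ X j, f = 0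
  scal : ∀ {i : I} (f : X i ⟶ X i), ∃ r : R, f = r • 𝟙 (X i)
  inj : ∀ {i : I} (r : R), r • 𝟙 (X i) = 0 → r = 0

end Linear

end Pool.Agent.W451.UGR
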