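import Mathlib.CategoryTheory.Monoidal.Rigid.Basic
import Mathlib.CategoryTheory.Preadditive.Biproducts
import Pool.Agent.W451.UGR.BC

/-!
# Semisimple rigid tensor categories over a ring
-/

set_option autoImplicit false

open CategoryTheory MonoidalCategory CategoryTheory.Limits

namespace Pool.Agent.W451.UGR

universe w₁ w v u v' u'

/-- The objects `X i` of the additive `R`-linear category `C` satisfy `Hom (X i, X j) = 0` for
`i ≠ j` and `Hom (X i, X i) = R`, and every object is a finite direct sum of objects `X i`. -/
structure IsSimpleBasis (R : Type w) [CommRing R] {C : Type u} [Category.{v} C] [Preadditive C]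
    [Linear R C] [HasFiniteBiproducts C] {I : Type} (X : I → C) : Prop where
  hom_zero : ∀ i j, i ≠ j → ∀ f : X i ⟶ X j, f = 0
  end_scalar : ∀ i, Function.Bijective fun r : R => r • 𝟙 (X i)
  exists_iso : ∀ Y : C, ∃ (n : ℕ) (t : Fin n → I), Nonempty (Y ≅ ⨁ fun b => X (t b))

/-- An `R`-linear monoidal category whose tensor product is `R`-bilinear. -/
structure TensorCat (R : Type w) [CommRing R] where
  /-- the type of objects -/
  carrier : Type u
  [category : Category.{v} carrier]
  [preadditive : Preadditive carrier]
  [linear : Linear R carrier]
  [monoidal : MonoidalCategory carrier]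
  [monoidalPreadditive : MonoidalPreadditive carrier]
  [monoidalLinear : MonoidalLinear R carrier]

namespace TensorCat

attribute [instance] category preadditive linear monoidal monoidalPreadditive monoidalLinear

variable {R : Type w} [CommRing R]

/-- `C` is a semisimple rigid tensor category over `R`: it is additive and rigid, and it has
finitely many objects `X i`, with `X i₀` (isomorphic to) the unit object, such that
`Hom (X i, X j) = 0` for `i ≠ j`, such that `Hom (X i, X i) = R`, and such that every object
is a finite direct sum of the `X i`. -/
structure IsSemisimpleRigid (C : TensorCat.{w, v, u} R) : Prop where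
  hasFiniteBiproducts : HasFiniteBiproducts C.carrier
  rigid : Nonempty (RigidCategory C.carrier)
  exists_simple : ∃ (I : Type) (_ : Finite I) (X : I → C.carrier),
    (∃ i₀, Nonempty (X i₀ ≅ 𝟙_ C.carrier)) ∧ IsSimpleBasis R X

/-- `C` and `D` are tensor equivalent: there is an `R`-linear equivalence of categories
`C ⥤ D` which is a (strong) monoidal functor. -/
def TensorEquiv (C : TensorCat.{w, v, u} R) (D : TensorCat.{w, v', u'} R) : Prop :=
  ∃ F : C.carrier ⥤ D.carrier,
    F.Additive ∧ F.Linear R ∧ F.IsEquivalence ∧ Nonempty F.Monoidal

/-- The base change `C ⊗ S` of `C` to an `R`-algebra `S`: it has the same objects, the spaces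
of morphisms are `S ⊗[R] Hom_C (X, Y)`, and the structure is the induced one. -/
noncomputable def baseChange (C : TensorCat.{w, v, u} R) (S : Type w₁) [CommRing S]
    [Algebra R S] : TensorCat.{w₁, max w₁ v, u} S where
  carrier := BC R S C.carrier
  category := BC.instCategory R S C.carrier
  preadditive := BC.instPreadditive R S C.carrier
  linear := BC.instLinear R S C.carrier
  monoidal := BC.instMonoidalCategory R S C.carrier
  monoidalPreadditive := BC.instMonoidalPreadditive R S C.carrier
  monoidalLinear := BC.instMonoidalLinear R S C.carrier

end TensorCat

end Pool.Agent.W451.UGR
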