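import Pool.Agent.W451.UGR.SubM

/-!
# There are no idempotent ideals
-/

set_option autoImplicit false
set_option linter.unusedSectionVars false

open CategoryTheory MonoidalCategory

namespace Pool.Agent.W451.UGR

universe v u

variable {k : Type*} [Field k] {D : Type u} [Category.{v} D] [Preadditive D] [Linear k D]
  [MonoidalCategory D] [MonoidalPreadditive D] [MonoidalLinear k D]
  {I : Type*} [Fintype I] [DecidableEq I] {S : I → D}

/-- A nonzero morphism to a simple object splits. -/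
lemma exists_section (hS : SimpleFam k S) {Y : D} (d : Dec S Y) {l : I} (m : Y ⟶ S l)
    (hm : m ≠ 0) : ∃ b : S l ⟶ Y, b ≫ m = 𝟙 _ := by
  have : ∃ β, d.inc β ≫ m ≠ 0 := by
    by_contra hcon
    push Not at hcon
    apply hm
    refine d.ext_left fun b => ?_
    rw [hcon b, Limits.comp_zero]
  obtain ⟨β, hβ⟩ := this
  have ht : d.t β = l := by
    by_contra h
    exact hβ (hS.zero h _)
  subst ht
  obtain ⟨r, hr⟩ := hS.scal (d.inc β ≫ m)
  have hr0 : r ≠ 0 := by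
    rintro rfl
    rw [zero_smul] at hr
    exact hβ hr
  exact ⟨r⁻¹ • d.inc β, by rw [Linear.smul_comp, hr, smul_smul, inv_mul_cancel₀ hr0, one_smul]⟩

/-- The right unitor with the unit replaced by an isomorphic object. -/
def rho {i₀ : I} (e : S i₀ ≅ 𝟙_ D) (B : D) : B ⊗ S i₀ ≅ B := whiskerLeftIso B e ≪≫ ρ_ B

lemma rho_hom {i₀ : I} (e : S i₀ ≅ 𝟙_ D) (B : D) :
    (rho e B).hom = B ◁ e.hom ≫ (ρ_ B).hom := rfl

lemma rho_naturality {i₀ : I} (e : S i₀ ≅ 𝟙_ D) {B B' : D} (b : B' ⟶ B) :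
    b ▷ S i₀ ≫ (rho e B).hom = (rho e B').hom ≫ b := by
  rw [rho_hom, rho_hom, ← whisker_exchange_assoc, rightUnitor_naturality, Category.assoc]

lemma rho_tensor {i₀ : I} (e : S i₀ ≅ 𝟙_ D) (A B : D) :
    (α_ A B (S i₀)).hom ≫ A ◁ (rho e B).hom = (rho e (A ⊗ B)).hom := by
  rw [rho_hom, rho_hom, MonoidalCategory.whiskerLeft_comp]
  simp

section

variable {M : ∀ i j l : I, Submodule k (S i ⊗ S j ⟶ S l)} {U : Finset I}

/-- The span of the composites through the members of `W`. -/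
def genP (M : ∀ i j l : I, Submodule k (S i ⊗ S j ⟶ S l)) (W : Finset I) (j : I) (B : D) (l : I) :
    Submodule k (B ⊗ S j ⟶ S l) :=
  Submodule.span k {x | ∃ i ∈ W, ∃ b : B ⟶ S i, ∃ m ∈ M i j l, x = b ▷ S j ≫ m}

/-- The associativity property. -/
def AssocM (M : ∀ i j l : I, Submodule k (S i ⊗ S j ⟶ S l)) : Prop :=
  ∀ (l i j a c : I), ∀ m₁ ∈ M i j a, ∀ m₂ ∈ M l a c,
    (α_ (S l) (S i) (S j)).hom ≫ S l ◁ m₁ ≫ m₂ ∈
      Submodule.span k {x | ∃ n, ∃ m₃ ∈ M l i n, ∃ m₄ ∈ M n j c, x = m₃ ▷ S j ≫ m₄}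

lemma span_comp_mem {X Y Z : D} (f : X ⟶ Y) (A : Set (Y ⟶ Z)) (p : Submodule k (X ⟶ Z))
    (h : ∀ x ∈ A, f ≫ x ∈ p) : ∀ x ∈ Submodule.span k A, f ≫ x ∈ p := by
  intro x hx
  have : Submodule.span k A ≤ p.comap (Linear.leftComp k Z f) := Submodule.span_le.2 h
  exact this hx

lemma genP_act (hM : AssocM M) {W W' : Finset I} {l : I}
    (h : ∀ i ∈ W, ∀ n, M l i n ≠ ⊥ → n ∈ W') {j : I} {B : D} {a c : I} (φ : B ⊗ S j ⟶ S a)
    (hφ : φ ∈ genP M W j B a) (m₂ : S l ⊗ S a ⟶ S c) (hm₂ : m₂ ∈ M l a c) :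
    (α_ (S l) B (S j)).hom ≫ S l ◁ φ ≫ m₂ ∈ genP M W' j (S l ⊗ B) c := by
  let L : (B ⊗ S j ⟶ S a) →ₗ[k] ((S l ⊗ B) ⊗ S j ⟶ S c) :=
    { toFun := fun φ => (α_ (S l) B (S j)).hom ≫ S l ◁ φ ≫ m₂
      map_add' := fun f g => by simp
      map_smul' := fun r f => by simp }
  have h1 : genP M W j B a ≤ (genP M W' j (S l ⊗ B) c).comap L := by
    refine Submodule.span_le.2 ?_
    rintro x ⟨i, hi, b, m₁, hm₁, rfl⟩
    change (α_ (S l) B (S j)).hom ≫ S l ◁ (b ▷ S j ≫ m₁) ≫ m₂ ∈ genP M W' j (S l ⊗ B) c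
    have e1 : (α_ (S l) B (S j)).hom ≫ S l ◁ (b ▷ S j ≫ m₁) ≫ m₂ =
        (S l ◁ b) ▷ S j ≫ (α_ (S l) (S i) (S j)).hom ≫ S l ◁ m₁ ≫ m₂ := by
      simp
    rw [e1]
    refine span_comp_mem _ _ _ ?_ _ (hM l i j a c m₁ hm₁ m₂ hm₂)
    rintro x ⟨n, m₃, hm₃, m₄, hm₄, rfl⟩
    by_cases h0 : m₃ = 0
    · subst h0
      have : (S l ◁ b) ▷ S j ≫ (0 : S l ⊗ S i ⟶ S n) ▷ S j ≫ m₄ = 0 := by simp
      rw [this]
      exact Submodule.zero_mem _
    · refine Submodule.subset_span ⟨n, h i hi n ?_, S l ◁ b ≫ m₃, m₄, hm₄, by simp⟩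
      intro hbot
      rw [hbot] at hm₃
      exact h0 ((Submodule.mem_bot k).1 hm₃)
  exact h1 hφ

/-- The submodule generated by the identity through the members of `W`. -/
def gen (hM : AssocM M) (U W : Finset I) (hW : ∀ l, ∀ i ∈ W, ∀ n, M l i n ≠ ⊥ → n ∈ W) (j : I) :
    SubM M U (S j) where
  P B l := genP M W j B l
  pre {B B'} b l φ hφ := by
    refine span_comp_mem _ _ _ ?_ _ hφ
    rintro x ⟨i, hi, b', m, hm, rfl⟩
    exact Submodule.subset_span ⟨i, hi, b ≫ b', m, hm, by simp⟩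
  act {B} l a c _ _ m hm φ hφ := genP_act hM (hW l) φ hφ m hm

variable (hS : SimpleFam k S) (dec : ∀ Y : D, Dec S Y)
include hS dec

lemma sigma_unit {i₀ : I} (e : S i₀ ≅ 𝟙_ D) {Q : Finset I} {δ : I → ℝ}
    (hirr : ∀ V ⊆ U, (∀ i, ∀ j ∈ V, ∀ l ∈ U, M i j l ≠ ⊥ → l ∈ V) → V = ∅ ∨ V = U)
    (hnk : ∃ i ∈ Q, ∃ j ∈ U, ∃ l ∈ U, M i j l ≠ ⊥) : SubM.sigma M U Q δ (S i₀) ≤ 0 := by
  classical
  refine csSup_le (SubM.nonempty_killed _) ?_
  rintro x ⟨R', R, hK, rfl⟩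
  let V : SubM M U (S i₀) → Finset I := fun R => U.filter fun j => (rho e (S j)).hom ∈ R.P (S j) j
  have key : ∀ (R : SubM M U (S i₀)) (i j l : I) (m : S i ⊗ S j ⟶ S l) (_ : m ≠ 0),
      (α_ (S i) (S j) (S i₀)).hom ≫ S i ◁ (rho e (S j)).hom ≫ m ∈ R.P (S i ⊗ S j) l →
      (rho e (S l)).hom ∈ R.P (S l) l := by
    intro R i j l m hm h
    obtain ⟨b, hb⟩ := exists_section hS (dec _) m hm
    have h2 := R.pre b l _ h
    rwa [← Category.assoc (α_ _ _ _).hom, rho_tensor, ← Category.assoc, rho_naturality,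
      Category.assoc, hb, Category.comp_id] at h2
  have hV : ∀ R : SubM M U (S i₀), V R = ∅ ∨ V R = U := by
    intro R
    refine hirr _ (Finset.filter_subset _ _) ?_
    intro i j hj l hl hne
    obtain ⟨m, hm, hm0⟩ := (Submodule.ne_bot_iff _).1 hne
    obtain ⟨hjU, hjR⟩ := Finset.mem_filter.1 hj
    exact Finset.mem_filter.2 ⟨hl, key R i j l m hm0 (R.act i j l hjU hl m hm _ hjR)⟩
  have heq : V R = V R' → R.size δ = R'.size δ := by
    intro hVV
    unfold SubM.size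
    refine Finset.sum_congr rfl fun l _ => Finset.sum_congr rfl fun j hj => ?_
    have : R.P (S l) j = R'.P (S l) j := by
      refine le_antisymm ?_ (hK.le _ _)
      intro φ hφ
      have h1 : φ = (rho e (S l)).hom ≫ (rho e (S l)).inv ≫ φ := by simp
      by_cases hlj : l = j
      · subst hlj
        obtain ⟨r, hr⟩ := hS.scal ((rho e (S l)).inv ≫ φ)
        rw [hr, Linear.comp_smul, Category.comp_id] at h1
        by_cases hr0 : r = 0
        · rw [h1, hr0, zero_smul]; exact Submodule.zero_mem _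
        · have h2 : (rho e (S l)).hom ∈ R.P (S l) l := by
            have : (rho e (S l)).hom = r⁻¹ • φ := by
              rw [h1, smul_smul, inv_mul_cancel₀ hr0, one_smul]
            rw [this]
            exact Submodule.smul_mem _ _ hφ
          have h3 : l ∈ V R := Finset.mem_filter.2 ⟨hj, h2⟩
          rw [hVV] at h3
          rw [h1]
          exact Submodule.smul_mem _ _ (Finset.mem_filter.1 h3).2
      · rw [hS.zero hlj ((rho e (S l)).inv ≫ φ), Limits.comp_zero] at h1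
        rw [h1]; exact Submodule.zero_mem _
    rw [this]
  rcases hV R with h1 | h1
  · have h2 : V R' = ∅ := by
      rw [Finset.eq_empty_iff_forall_notMem]
      intro j hj
      have : j ∈ V R := by
        obtain ⟨hjU, hjR⟩ := Finset.mem_filter.1 hj
        exact Finset.mem_filter.2 ⟨hjU, hK.le _ _ hjR⟩
      rw [h1] at this
      exact absurd this (Finset.notMem_empty j)
    rw [heq (h1.trans h2.symm)]
    simp
  · rcases hV R' with h2 | h2
    · exfalso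
      obtain ⟨i, hi, j, hj, l, hl, hne⟩ := hnk
      obtain ⟨m, hm, hm0⟩ := (Submodule.ne_bot_iff _).1 hne
      have hj' : j ∈ V R := by rw [h1]; exact hj
      have h3 := hK.act i j l hi hj hl m hm _ (Finset.mem_filter.1 hj').2
      have h4 : l ∈ V R' := Finset.mem_filter.2 ⟨hl, key R' i j l m hm0 h3⟩
      rw [h2] at h4
      exact absurd h4 (Finset.notMem_empty l)
    · rw [heq (h1.trans h2.symm)]
      simp

lemma sigma_pos {i₀ : I} (e : S i₀ ≅ 𝟙_ D) {Q : Finset I} {δ : I → ℝ} (hδ : ∀ i, 0 < δ i)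
    (hM : AssocM M) (hu : ∀ j, e.hom ▷ S j ≫ (λ_ (S j)).hom ∈ M i₀ j j) (h0 : i₀ ∉ Q)
    (hQ : ∀ i j l, (i ∈ Q ∨ j ∈ Q) → M i j l ≠ ⊥ → l ∈ Q) {j : I} (hj : j ∈ U) :
    0 < SubM.sigma M U Q δ (S j) := by
  let R := gen hM U Finset.univ (fun _ _ _ _ _ => Finset.mem_univ _) j
  let R' := gen hM U Q (fun l i hi n hn => hQ l i n (Or.inr hi) hn) j
  have hK : SubM.Killed Q R' R :=
    { le := fun B l => Submodule.span_mono (by
        rintro x ⟨i, hi, h⟩
        exact ⟨i, Finset.mem_univ _, h⟩)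
      act := fun {B} i a c hi _ _ m hm φ hφ =>
        genP_act hM (fun i' _ n hn => hQ i i' n (Or.inl hi) hn) φ hφ m hm }
  have hlt : R'.P (S i₀) j < R.P (S i₀) j := by
    refine lt_of_le_of_ne (hK.le _ _) fun heq => ?_
    have h1 : e.hom ▷ S j ≫ (λ_ (S j)).hom ∈ R.P (S i₀) j :=
      Submodule.subset_span ⟨i₀, Finset.mem_univ _, 𝟙 _, _, hu j, by simp⟩
    rw [← heq] at h1
    have h2 : R'.P (S i₀) j = ⊥ := by
      rw [eq_bot_iff]
      refine Submodule.span_le.2 ?_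
      rintro x ⟨i, hi, b, m, hm, rfl⟩
      have hne : i₀ ≠ i := by rintro rfl; exact h0 hi
      rw [hS.zero hne b]
      simp
    rw [h2, Submodule.mem_bot] at h1
    have h3 : 𝟙 (S j) = 0 := by
      have : 𝟙 (S j) = (λ_ (S j)).inv ≫ e.inv ▷ S j ≫ e.hom ▷ S j ≫ (λ_ (S j)).hom := by simp
      rw [this, h1]
      simp
    have h4 := hS.inj (i := j) (1 : k) (by rw [one_smul, h3])
    exact one_ne_zero h4
  have h5 := SubM.size_lt hS dec hδ hK.le hj hlt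
  have h6 := SubM.le_sigma hS dec hδ hK
  linarith

/-- There is no irreducible section on which the ideal acts nontrivially. -/
theorem no_idempotent {i₀ : I} (e : S i₀ ≅ 𝟙_ D) (hd : ∀ i, ∃ j, 0 < N k S j i i₀)
    {Q : Finset I} (hM : AssocM M) (hu : ∀ j, e.hom ▷ S j ≫ (λ_ (S j)).hom ∈ M i₀ j j)
    (h0 : i₀ ∉ Q) (hQ : ∀ i j l, (i ∈ Q ∨ j ∈ Q) → M i j l ≠ ⊥ → l ∈ Q) (hU : U.Nonempty)
    (hirr : ∀ V ⊆ U, (∀ i, ∀ j ∈ V, ∀ l ∈ U, M i j l ≠ ⊥ → l ∈ V) → V = ∅ ∨ V = U)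
    (hnk : ∃ i ∈ Q, ∃ j ∈ U, ∃ l ∈ U, M i j l ≠ ⊥) : False := by
  obtain ⟨F⟩ := exists_PFData (N k S) i₀ (fun i j l => N_nonneg i j l) (N_assoc hS dec)
    (N_unit_left hS e) (N_unit_right hS e) hd
  set σ : I → ℝ := fun i => SubM.sigma M U Q F.δ (S i) with hσ
  obtain ⟨j, hj⟩ := hU
  have hσj : 0 < σ j := sigma_pos hS dec e F.δ_pos hM hu h0 hQ hj
  have hσ0 : σ i₀ ≤ 0 := sigma_unit hS dec e hirr hnk
  obtain ⟨i, -, hi⟩ := Finset.exists_max_image Finset.univ (fun i => σ i / F.f i)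
    ⟨j, Finset.mem_univ _⟩
  set s := σ i / F.f i with hs
  have hs0 : 0 < s := (div_pos hσj (F.f_pos j)).trans_le (hi j (Finset.mem_univ _))
  have hle : ∀ m, σ m ≤ s * F.f m := by
    intro m
    have := hi m (Finset.mem_univ _)
    rwa [div_le_iff₀ (F.f_pos m)] at this
  obtain ⟨i', hi'⟩ := hd i
  have h1 : F.f i' * σ i ≤ SubM.sigma M U Q F.δ (S i' ⊗ S i) :=
    SubM.sigma_tensor hS dec F i' (S i)
  have h2 : SubM.sigma M U Q F.δ (S i' ⊗ S i) ≤ ∑ m, N k S i' i m * σ m := by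
    refine (SubM.sigma_le_sum hS dec F.δ_pos (dec (S i' ⊗ S i))).trans (le_of_eq ?_)
    exact sum_dec hS (dec (S i' ⊗ S i)) σ
  have h3 : N k S i' i i₀ * (s * F.f i₀ - σ i₀) ≤ ∑ m, N k S i' i m * (s * F.f m - σ m) :=
    Finset.single_le_sum (f := fun m => N k S i' i m * (s * F.f m - σ m))
      (fun m _ => mul_nonneg (N_nonneg _ _ _) (sub_nonneg.2 (hle m))) (Finset.mem_univ i₀)
  have h4 : ∑ m, N k S i' i m * (s * F.f m - σ m) =
      s * (F.f i' * F.f i) - ∑ m, N k S i' i m * σ m := by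
    rw [F.char, Finset.mul_sum, ← Finset.sum_sub_distrib]
    exact Finset.sum_congr rfl fun m _ => by ring
  have h5 : s * F.f i = σ i := by rw [hs, div_mul_cancel₀ _ (F.f_pos i).ne']
  rw [F.f_one, mul_one] at h3
  have h6 : 0 < N k S i' i i₀ * (s - σ i₀) := mul_pos hi' (by linarith)
  have h7 : s * (F.f i' * F.f i) = F.f i' * σ i := by rw [← h5]; ring
  linarith

end

end Pool.Agent.W451.UGR
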