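import Mathlib

/-!
# Linear algebra of filtrations
-/

set_option autoImplicit false

namespace Pool.Agent.W451.UGR

variable {k : Type*} [Field k] {V : Type*} [AddCommGroup V] [Module k V]

lemma finrank_map_ker [FiniteDimensional k V] {W : Type*} [AddCommGroup W] [Module k W]
    (r : V →ₗ[k] W) (p : Submodule k V) :
    Module.finrank k (p.map r) + Module.finrank k (p ⊓ LinearMap.ker r : Submodule k V) =
      Module.finrank k p := by
  have h := (r.comp p.subtype).finrank_range_add_finrank_ker
  rw [LinearMap.range_comp, Submodule.range_subtype, LinearMap.ker_comp] at h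
  rw [← h, ← Submodule.map_comap_subtype, Submodule.finrank_map_subtype_eq]

/-- The dimension of a subspace through the filtration by the kernels of linear maps. -/
lemma finrank_filtration [FiniteDimensional k V] {n : ℕ} {W : Fin n → Type*}
    [∀ b, AddCommGroup (W b)] [∀ b, Module k (W b)] (r : ∀ b, V →ₗ[k] W b)
    (hinj : ∀ x, (∀ b, r b x = 0) → x = 0) (R : Submodule k V) :
    Module.finrank k R = ∑ b, Module.finrank k
      ((R ⊓ ⨅ c, ⨅ (_ : c < b), LinearMap.ker (r c) : Submodule k V).map (r b)) := by
  let F : ℕ → Submodule k V := fun m => R ⊓ ⨅ c : Fin n, ⨅ (_ : (c : ℕ) < m), LinearMap.ker (r c)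
  have hF0 : F 0 = R := by
    simp [F]
  have hFn : F n = ⊥ := by
    rw [eq_bot_iff]
    intro x hx
    rw [Submodule.mem_bot]
    apply hinj
    intro b
    have h2 := (Submodule.mem_inf.1 hx).2
    rw [Submodule.mem_iInf] at h2
    have h3 := h2 b
    rw [Submodule.mem_iInf] at h3
    exact LinearMap.mem_ker.1 (h3 b.2)
  have hstep : ∀ b : Fin n, Module.finrank k (F b) =
      Module.finrank k ((R ⊓ ⨅ c, ⨅ (_ : c < b), LinearMap.ker (r c) : Submodule k V).map (r b)) +
        Module.finrank k (F (b + 1)) := by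
    intro b
    have e1 : (R ⊓ ⨅ c, ⨅ (_ : c < b), LinearMap.ker (r c) : Submodule k V) = F b := rfl
    have e2 : F (b + 1) = F b ⊓ LinearMap.ker (r b) := by
      ext x
      simp only [F, Submodule.mem_inf, Submodule.mem_iInf, LinearMap.mem_ker]
      constructor
      · rintro ⟨h1, h2⟩
        exact ⟨⟨h1, fun c hc => h2 c (by omega)⟩, h2 b (by omega)⟩
      · rintro ⟨⟨h1, h2⟩, h3⟩
        refine ⟨h1, fun c hc => ?_⟩
        rcases Nat.lt_succ_iff_lt_or_eq.1 hc with h | h
        · exact h2 c h
        · have : c = b := Fin.ext h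
          rw [this]; exact h3
    rw [e1, e2, finrank_map_ker]
  have hZ : (Module.finrank k R : ℤ) = ∑ b : Fin n, (Module.finrank k
      ((R ⊓ ⨅ c, ⨅ (_ : c < b), LinearMap.ker (r c) : Submodule k V).map (r b)) : ℤ) := by
    have h1 : ∀ b : Fin n, (Module.finrank k
        ((R ⊓ ⨅ c, ⨅ (_ : c < b), LinearMap.ker (r c) : Submodule k V).map (r b)) : ℤ) =
        (fun m : ℕ => (Module.finrank k (F m) : ℤ) - Module.finrank k (F (m + 1))) b := by
      intro b
      have := hstep b
      simp only
      omega
    rw [Finset.sum_congr rfl fun b _ => h1 b, Fin.sum_univ_eq_sum_range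
      (fun m : ℕ => (Module.finrank k (F m) : ℤ) - Module.finrank k (F (m + 1))) n,
      Finset.sum_range_sub', hF0, hFn, finrank_bot]
    simp
  exact_mod_cast hZ

end Pool.Agent.W451.UGR
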