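import Pool.Agent.W451.UGR.Dec
import Pool.Agent.Helper781.Fusion.PF

/-!
# Fusion multiplicities and positive eigenvectors
-/

set_option autoImplicit false
set_option linter.unusedSectionVars false
set_option linter.style.haveILetI false

open CategoryTheory MonoidalCategory

namespace Pool.Agent.W451.UGR

universe v u

section LinAlg

variable {k : Type*} [Field k]

/-- A splitting of a vector space. -/
lemma finrank_split {V : Type*} [AddCommGroup V] [Module k V] {n : ℕ} {W : Fin n → Type*}
    [∀ b, AddCommGroup (W b)] [∀ b, Module k (W b)] [∀ b, Module.Finite k (W b)]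
    (p : ∀ b, V →ₗ[k] W b) (q : ∀ b, W b →ₗ[k] V)
    (h1 : ∀ b x, p b (q b x) = x) (h2 : ∀ b c, b ≠ c → ∀ x, p b (q c x) = 0)
    (h3 : ∀ x, ∑ b, q b (p b x) = x) :
    Module.finrank k V = ∑ b, Module.finrank k (W b) := by
  classical
  let e : V ≃ₗ[k] (∀ b, W b) :=
    { toFun := fun x b => p b x
      invFun := fun y => ∑ b, q b (y b)
      map_add' := fun x y => by ext b; simp
      map_smul' := fun c x => by ext b; simp
      left_inv := fun x => h3 x
      right_inv := fun y => by
        ext b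
        simp only [map_sum]
        rw [Finset.sum_eq_single b]
        · exact h1 b _
        · intro c _ hc; exact h2 b c (Ne.symm hc) _
        · intro h; exact absurd (Finset.mem_univ b) h }
  rw [e.finrank_eq, Module.finrank_pi_fintype]

end LinAlg

variable {k : Type*} [Field k] {D : Type u} [Category.{v} D] [Preadditive D] [Linear k D]
  {I : Type*} {S : I → D}

section

variable (hS : SimpleFam k S)
include hS

lemma finite_simple (i j : I) : Module.Finite k (S i ⟶ S j) := by
  classical
  by_cases h : i = j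
  · subst h
    refine Module.Finite.of_surjective (LinearMap.toSpanSingleton k (S i ⟶ S i) (𝟙 (S i))) ?_
    intro f
    obtain ⟨r, hr⟩ := hS.scal f
    exact ⟨r, by rw [hr]; rfl⟩
  · have : Subsingleton (S i ⟶ S j) := ⟨fun f g => by rw [hS.zero h f, hS.zero h g]⟩
    infer_instance

lemma finrank_simple_self (i : I) : Module.finrank k (S i ⟶ S i) = 1 := by
  have e : k ≃ₗ[k] (S i ⟶ S i) := LinearEquiv.ofBijective
    (LinearMap.toSpanSingleton k (S i ⟶ S i) (𝟙 (S i))) (by
      constructor
      · intro r s hrs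
        have : (r - s) • 𝟙 (S i) = 0 := by
          rw [sub_smul]; exact sub_eq_zero.2 hrs
        exact sub_eq_zero.1 (hS.inj _ this)
      · intro f
        obtain ⟨r, hr⟩ := hS.scal f
        exact ⟨r, by rw [hr]; rfl⟩)
  rw [← e.finrank_eq, Module.finrank_self]

lemma finrank_simple_ne {i j : I} (h : i ≠ j) : Module.finrank k (S i ⟶ S j) = 0 := by
  have : Subsingleton (S i ⟶ S j) := ⟨fun f g => by rw [hS.zero h f, hS.zero h g]⟩
  exact Module.finrank_zero_of_subsingleton

lemma finite_hom {Y Z : D} (dY : Dec S Y) (dZ : Dec S Z) : Module.Finite k (Y ⟶ Z) := by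
  have := finite_simple hS
  let F : (Y ⟶ Z) →ₗ[k] (∀ b : Fin dY.n, ∀ c : Fin dZ.n, (S (dY.t b) ⟶ S (dZ.t c))) :=
    { toFun := fun f b c => dY.inc b ≫ f ≫ dZ.prj c
      map_add' := fun f g => by ext b c; simp
      map_smul' := fun r f => by ext b c; simp }
  refine Module.Finite.of_injective F fun f g h => ?_
  refine dY.ext_left fun b => dZ.ext_right fun c => ?_
  have := congrFun (congrFun h b) c
  simpa [F] using this

/-- The dimension of the space of morphisms to a simple object. -/
lemma finrank_to_simple [DecidableEq I] {Y : D} (d : Dec S Y) (l : I) :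
    Module.finrank k (Y ⟶ S l) = (Finset.univ.filter fun b => d.t b = l).card := by
  have := finite_simple hS
  have h := finrank_split (k := k) (V := (Y ⟶ S l)) (W := fun b : Fin d.n => (S (d.t b) ⟶ S l))
    (fun b => Linear.leftComp k (S l) (d.inc b)) (fun b => Linear.leftComp k (S l) (d.prj b))
    (fun b x => by simp) (fun b c hbc x => by
      change d.inc b ≫ d.prj c ≫ x = 0
      rw [← Category.assoc, d.inc_prj_ne b c hbc, Limits.zero_comp])
    (fun x => (d.expand_left x).symm)
  rw [h, Finset.card_filter]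
  refine Finset.sum_congr rfl fun b _ => ?_
  split_ifs with hb
  · rw [hb]; exact finrank_simple_self hS l
  · exact finrank_simple_ne hS hb

/-- The multiplicity as the dimension of a space of morphisms. -/
lemma sum_dec [Fintype I] [DecidableEq I] {Y : D} (d : Dec S Y) (g : I → ℝ) :
    ∑ b, g (d.t b) = ∑ l, (Module.finrank k (Y ⟶ S l) : ℝ) * g l := by
  simp_rw [finrank_to_simple hS d]
  rw [← Finset.sum_fiberwise Finset.univ d.t (fun b => g (d.t b))]
  refine Finset.sum_congr rfl fun l _ => ?_
  rw [Finset.sum_congr rfl (g := fun _ => g l), Finset.sum_const, nsmul_eq_mul]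
  intro b hb
  rw [(Finset.mem_filter.1 hb).2]

end

section Monoidal

variable [MonoidalCategory D] [MonoidalPreadditive D] [MonoidalLinear k D]

/-- The fusion multiplicities. -/
noncomputable def N (k : Type*) [Field k] {D : Type u} [Category.{v} D] [Preadditive D]
    [Linear k D] [MonoidalCategory D] {I : Type*} (S : I → D) (i j l : I) : ℝ :=
  (Module.finrank k (S i ⊗ S j ⟶ S l) : ℝ)

lemma whiskerRight_sum' {n : ℕ} {X Y : D} (f : Fin n → (X ⟶ Y)) (Z : D) :
    (∑ b, f b) ▷ Z = ∑ b, f b ▷ Z := by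
  induction n with
  | zero => simp
  | succ n ih => rw [Fin.sum_univ_castSucc, Fin.sum_univ_castSucc, MonoidalPreadditive.add_whiskerRight, ih]

lemma whiskerLeft_sum' {n : ℕ} {X Y : D} (f : Fin n → (X ⟶ Y)) (Z : D) :
    Z ◁ (∑ b, f b) = ∑ b, Z ◁ f b := by
  induction n with
  | zero => simp
  | succ n ih => rw [Fin.sum_univ_castSucc, Fin.sum_univ_castSucc, MonoidalPreadditive.whiskerLeft_add, ih]

variable (hS : SimpleFam k S) (dec : ∀ Y : D, Dec S Y)

include hS dec in
lemma finrank_expand_left (Y Z : D) (l : I) [Fintype I] [DecidableEq I] :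
    (Module.finrank k (Y ⊗ Z ⟶ S l) : ℝ) =
      ∑ m, (Module.finrank k (Y ⟶ S m) : ℝ) * (Module.finrank k (S m ⊗ Z ⟶ S l) : ℝ) := by
  have := fun Y Z => finite_hom hS (dec Y) (dec Z)
  let d := dec Y
  have h := finrank_split (k := k) (V := (Y ⊗ Z ⟶ S l))
    (W := fun b : Fin d.n => (S (d.t b) ⊗ Z ⟶ S l))
    (fun b => Linear.leftComp k (S l) (d.inc b ▷ Z))
    (fun b => Linear.leftComp k (S l) (d.prj b ▷ Z))
    (fun b x => by
      change d.inc b ▷ Z ≫ d.prj b ▷ Z ≫ x = x
      rw [← Category.assoc, ← comp_whiskerRight, d.inc_prj, id_whiskerRight, Category.id_comp])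
    (fun b c hbc x => by
      change d.inc b ▷ Z ≫ d.prj c ▷ Z ≫ x = 0
      rw [← Category.assoc, ← comp_whiskerRight, d.inc_prj_ne b c hbc,
        MonoidalPreadditive.zero_whiskerRight, Limits.zero_comp])
    (fun x => by
      change ∑ b, d.prj b ▷ Z ≫ d.inc b ▷ Z ≫ x = x
      have : ∀ b, d.prj b ▷ Z ≫ d.inc b ▷ Z ≫ x = (d.prj b ≫ d.inc b) ▷ Z ≫ x := by
        intro b; simp
      simp_rw [this]
      rw [← Preadditive.sum_comp, ← whiskerRight_sum', d.sum]
      simp)
  rw [h, Nat.cast_sum]
  exact sum_dec hS d (fun m => (Module.finrank k (S m ⊗ Z ⟶ S l) : ℝ))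

include hS dec in
lemma finrank_expand_right (Y Z : D) (l : I) [Fintype I] [DecidableEq I] :
    (Module.finrank k (Y ⊗ Z ⟶ S l) : ℝ) =
      ∑ m, (Module.finrank k (Z ⟶ S m) : ℝ) * (Module.finrank k (Y ⊗ S m ⟶ S l) : ℝ) := by
  have := fun Y Z => finite_hom hS (dec Y) (dec Z)
  let d := dec Z
  have h := finrank_split (k := k) (V := (Y ⊗ Z ⟶ S l))
    (W := fun b : Fin d.n => (Y ⊗ S (d.t b) ⟶ S l))
    (fun b => Linear.leftComp k (S l) (Y ◁ d.inc b))
    (fun b => Linear.leftComp k (S l) (Y ◁ d.prj b))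
    (fun b x => by
      change Y ◁ d.inc b ≫ Y ◁ d.prj b ≫ x = x
      rw [← Category.assoc, ← MonoidalCategory.whiskerLeft_comp, d.inc_prj,
        MonoidalCategory.whiskerLeft_id, Category.id_comp])
    (fun b c hbc x => by
      change Y ◁ d.inc b ≫ Y ◁ d.prj c ≫ x = 0
      rw [← Category.assoc, ← MonoidalCategory.whiskerLeft_comp, d.inc_prj_ne b c hbc,
        MonoidalPreadditive.whiskerLeft_zero, Limits.zero_comp])
    (fun x => by
      change ∑ b, Y ◁ d.prj b ≫ Y ◁ d.inc b ≫ x = x
      have : ∀ b, Y ◁ d.prj b ≫ Y ◁ d.inc b ≫ x = Y ◁ (d.prj b ≫ d.inc b) ≫ x := by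
        intro b; simp
      simp_rw [this]
      rw [← Preadditive.sum_comp, ← whiskerLeft_sum', d.sum]
      simp)
  rw [h, Nat.cast_sum]
  exact sum_dec hS d (fun m => (Module.finrank k (Y ⊗ S m ⟶ S l) : ℝ))

/-- Morphism spaces out of isomorphic objects. -/
lemma finrank_congr_iso {Y Z : D} (e : Y ≅ Z) (T : D) :
    Module.finrank k (Y ⟶ T) = Module.finrank k (Z ⟶ T) := by
  let E : (Y ⟶ T) ≃ₗ[k] (Z ⟶ T) :=
    { toFun := fun f => e.inv ≫ f
      invFun := fun f => e.hom ≫ f
      map_add' := fun f g => by simp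
      map_smul' := fun r f => by simp
      left_inv := fun f => by simp
      right_inv := fun f => by simp }
  exact E.finrank_eq

include hS dec in
/-- Associativity of the fusion rules. -/
lemma N_assoc [Fintype I] [DecidableEq I] (a i j c : I) :
    ∑ m, N k S a i m * N k S m j c = ∑ m, N k S i j m * N k S a m c := by
  unfold N
  rw [← finrank_expand_left hS dec (S a ⊗ S i) (S j) c,
    ← finrank_expand_right hS dec (S a) (S i ⊗ S j) c, finrank_congr_iso (α_ (S a) (S i) (S j))]

lemma N_nonneg (i j l : I) : 0 ≤ N k S i j l := Nat.cast_nonneg _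

include hS in
lemma N_unit_left [DecidableEq I] {i₀ : I} (e : S i₀ ≅ 𝟙_ D) (i j : I) :
    N k S i₀ i j = if i = j then 1 else 0 := by
  unfold N
  rw [finrank_congr_iso (whiskerRightIso e (S i) ≪≫ λ_ (S i))]
  split_ifs with h
  · subst h; rw [finrank_simple_self hS]; simp
  · rw [finrank_simple_ne hS h]; simp

include hS in
lemma N_unit_right [DecidableEq I] {i₀ : I} (e : S i₀ ≅ 𝟙_ D) (i j : I) :
    N k S i i₀ j = if i = j then 1 else 0 := by
  unfold N
  rw [finrank_congr_iso (whiskerLeftIso (S i) e ≪≫ ρ_ (S i))]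
  split_ifs with h
  · subst h; rw [finrank_simple_self hS]; simp
  · rw [finrank_simple_ne hS h]; simp

end Monoidal

end Pool.Agent.W451.UGR
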