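import Mathlib

/-!
# Nilpotency of ideals of associative relations
-/

set_option autoImplicit false

namespace Pool.Agent.W451.UGR

open Classical in
/-- The powers of an ideal. -/
noncomputable def powQ {I : Type*} [Fintype I] (t : I → I → I → Prop) (Q : Finset I) :
    ℕ → Finset I
  | 0 => Finset.univ
  | n + 1 => Finset.univ.filter fun l => ∃ i ∈ Q, ∃ j ∈ powQ t Q n, t i j l

theorem exists_weight {I : Type*} [Fintype I] [DecidableEq I] (t : I → I → I → Prop)
    (i₀ : I) (Q : Finset I)
    (a1 : ∀ l i j a c, t i j a → t l a c → ∃ n, t l i n ∧ t n j c)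
    (a2 : ∀ q i j a c, t q i a → t a j c → ∃ n, t i j n ∧ t q n c)
    (ur : ∀ i, t i i₀ i)
    (hQ : ∀ i j l, (i ∈ Q ∨ j ∈ Q) → t i j l → l ∈ Q)
    (nosec : ∀ U : Finset I, U.Nonempty →
      (∀ V ⊆ U, (∀ i, ∀ j ∈ V, ∀ l ∈ U, t i j l → l ∈ V) → V = ∅ ∨ V = U) →
      (∃ i ∈ Q, ∃ j ∈ U, ∃ l ∈ U, t i j l) → False) :
    ∃ w : I → ℕ, (∀ i ∉ Q, w i = 0) ∧ (∀ i ∈ Q, 1 ≤ w i) ∧
      ∀ i j l, t i j l → w i + w j ≤ w l := by
  classical
  have mem_succ : ∀ n l, l ∈ powQ t Q (n + 1) ↔ ∃ i ∈ Q, ∃ j ∈ powQ t Q n, t i j l := by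
    intro n l
    simp [powQ]
  have closed : ∀ n i j l, j ∈ powQ t Q n → t i j l → l ∈ powQ t Q n := by
    intro n
    cases n with
    | zero => intro i j l _ _; simp [powQ]
    | succ n =>
      intro i j l hj ht
      rw [mem_succ] at hj ⊢
      obtain ⟨q, hq, j', hj', h⟩ := hj
      obtain ⟨m, h1, h2⟩ := a1 i q j' j l h ht
      exact ⟨m, hQ i q m (Or.inr hq) h1, j', hj', h2⟩
  have anti : ∀ n, powQ t Q (n + 1) ⊆ powQ t Q n := by
    intro n l hl
    obtain ⟨i, -, j, hj, h⟩ := (mem_succ n l).1 hl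
    exact closed n i j l hj h
  have add : ∀ m n i j l, i ∈ powQ t Q m → j ∈ powQ t Q n → t i j l → l ∈ powQ t Q (m + n) := by
    intro m
    induction m with
    | zero => intro n i j l _ hj ht; rw [zero_add]; exact closed n i j l hj ht
    | succ m ih =>
      intro n i j l hi hj ht
      obtain ⟨q, hq, i', hi', h⟩ := (mem_succ m i).1 hi
      obtain ⟨n', h1, h2⟩ := a2 q i' j i l h ht
      have h3 := ih n i' j n' hi' hj h1
      rw [show m + 1 + n = m + n + 1 by ring, mem_succ]
      exact ⟨q, hq, n', h3, h2⟩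
  have hnil : ∃ N, powQ t Q N = ∅ := by
    by_contra hcon
    push Not at hcon
    -- stabilisation
    have hst : ∃ n, powQ t Q (n + 1) = powQ t Q n := by
      by_contra hne
      push Not at hne
      have hlt : ∀ n, (powQ t Q n).card + n ≤ Fintype.card I := by
        intro n
        induction n with
        | zero => simp [powQ]
        | succ n ih =>
          have := Finset.card_lt_card (lt_of_le_of_ne (anti n) (hne n))
          omega
      have h1 := hlt (Fintype.card I + 1)
      omega
    obtain ⟨n, hn⟩ := hst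
    set T := powQ t Q n with hT
    have hTne : T.Nonempty := Finset.nonempty_iff_ne_empty.2 (hcon n).ne_empty
    have hTc : ∀ i j l, j ∈ T → t i j l → l ∈ T := closed n
    -- maximal proper closed subset
    let F : Finset (Finset I) := T.powerset.filter fun V =>
      V ≠ T ∧ ∀ i, ∀ j ∈ V, ∀ l, t i j l → l ∈ V
    have hF : F.Nonempty := by
      refine ⟨∅, Finset.mem_filter.2 ⟨Finset.mem_powerset.2 (Finset.empty_subset _), ?_, ?_⟩⟩
      · exact hTne.ne_empty.symm
      · intro i j hj; exact absurd hj (Finset.notMem_empty j)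
    obtain ⟨T', hT', hmax⟩ := Finset.exists_max_image F Finset.card hF
    obtain ⟨hT'T, hT'ne, hT'c⟩ := Finset.mem_filter.1 hT'
    rw [Finset.mem_powerset] at hT'T
    have hlt : T' ⊂ T := lt_of_le_of_ne hT'T hT'ne
    have hUne : (T \ T').Nonempty := by
      obtain ⟨x, hx, hx'⟩ := Finset.exists_of_ssubset hlt
      exact ⟨x, Finset.mem_sdiff.2 ⟨hx, hx'⟩⟩
    refine nosec (T \ T') hUne ?_ ?_
    · intro V hV hVc
      by_contra hcon2
      push Not at hcon2
      obtain ⟨hV1, hV2⟩ := hcon2
      have hmem : T' ∪ V ∈ F := by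
        refine Finset.mem_filter.2 ⟨Finset.mem_powerset.2 (Finset.union_subset hT'T
          (hV.trans Finset.sdiff_subset)), ?_, ?_⟩
        · intro heq
          apply hV2
          refine Finset.Subset.antisymm hV ?_
          intro x hx
          obtain ⟨hx1, hx2⟩ := Finset.mem_sdiff.1 hx
          rw [← heq] at hx1
          rcases Finset.mem_union.1 hx1 with h | h
          · exact absurd h hx2
          · exact h
        · intro i j hj l ht
          rcases Finset.mem_union.1 hj with h | h
          · exact Finset.mem_union_left _ (hT'c i j h l ht)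
          · have hlT : l ∈ T := hTc i j l (Finset.mem_sdiff.1 (hV h)).1 ht
            by_cases hl : l ∈ T'
            · exact Finset.mem_union_left _ hl
            · exact Finset.mem_union_right _ (hVc i j h l (Finset.mem_sdiff.2 ⟨hlT, hl⟩) ht)
      have h1 := hmax _ hmem
      have hdisj : Disjoint T' V := by
        rw [Finset.disjoint_left]
        intro x hx hxV
        exact (Finset.mem_sdiff.1 (hV hxV)).2 hx
      rw [Finset.card_union_of_disjoint hdisj] at h1
      have h2 : 0 < V.card := Finset.card_pos.2 hV1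
      omega
    · obtain ⟨l, hl⟩ := hUne
      obtain ⟨hl1, hl2⟩ := Finset.mem_sdiff.1 hl
      rw [← hn] at hl1
      obtain ⟨i, hi, j, hj, h⟩ := (mem_succ n l).1 hl1
      refine ⟨i, hi, j, Finset.mem_sdiff.2 ⟨hj, fun hjT' => hl2 (hT'c i j hjT' l h)⟩, l, hl, h⟩
  obtain ⟨N, hN⟩ := hnil
  have hempty : ∀ n, N ≤ n → powQ t Q n = ∅ := by
    intro n hn
    induction n, hn using Nat.le_induction with
    | base => exact hN
    | succ n _ ih =>
      have := anti n
      rw [ih] at this
      exact Finset.subset_empty.1 this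
  let w : I → ℕ := fun l => Nat.findGreatest (fun n => l ∈ powQ t Q n) N
  have hw1 : ∀ l, l ∈ powQ t Q (w l) := by
    intro l
    exact Nat.findGreatest_spec (P := fun n => l ∈ powQ t Q n) (Nat.zero_le N) (by simp [powQ])
  have hw2 : ∀ l n, l ∈ powQ t Q n → n ≤ w l := by
    intro l n h
    have hn : n ≤ N := by
      by_contra hcon
      rw [hempty n (by omega)] at h
      exact absurd h (Finset.notMem_empty l)
    exact Nat.le_findGreatest hn h
  refine ⟨w, ?_, ?_, ?_⟩
  · intro i hi
    by_contra h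
    obtain ⟨n, hn⟩ := Nat.exists_eq_succ_of_ne_zero h
    have h1 := hw1 i
    rw [hn, Nat.succ_eq_add_one, mem_succ] at h1
    obtain ⟨q, hq, j, -, ht⟩ := h1
    exact hi (hQ q j i (Or.inl hq) ht)
  · intro i hi
    refine hw2 i 1 ?_
    rw [show (1 : ℕ) = 0 + 1 from rfl, mem_succ]
    exact ⟨i, hi, i₀, by simp [powQ], ur i⟩
  · intro i j l ht
    exact hw2 l _ (add _ _ i j l (hw1 i) (hw1 j) ht)

end Pool.Agent.W451.UGR
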