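import Pool.Agent.W451.UGR.Mult

/-!
# The Frobenius-Perron data
-/

set_option autoImplicit false

open CategoryTheory MonoidalCategory

namespace Pool.Agent.W451.UGR

/-- Frobenius-Perron data of an associative family of nonnegative numbers. -/
structure PFData {I : Type*} [Fintype I] (N : I → I → I → ℝ) (i₀ : I) where
  /-- the positive eigenvector -/
  δ : I → ℝ
  /-- the positive character -/
  f : I → ℝ
  δ_pos : ∀ i, 0 < δ i
  f_pos : ∀ i, 0 < f i
  f_one : f i₀ = 1
  eig : ∀ i a, ∑ l, N l i a * δ l = f i * δ a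
  char : ∀ i j, f i * f j = ∑ m, N i j m * f m

theorem exists_PFData {I : Type*} [Fintype I] [DecidableEq I] (N : I → I → I → ℝ) (i₀ : I)
    (h0 : ∀ i j l, 0 ≤ N i j l)
    (hassoc : ∀ a i j c, ∑ m, N a i m * N m j c = ∑ m, N i j m * N a m c)
    (hl : ∀ i j, N i₀ i j = if i = j then 1 else 0)
    (hr : ∀ i j, N i i₀ j = if i = j then 1 else 0)
    (hd : ∀ i, ∃ j, 0 < N j i i₀) : Nonempty (PFData N i₀) := by
  have hpos : ∀ l c, ∃ m, 0 < N m l c := by
    intro l c
    obtain ⟨j, hj⟩ := hd l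
    by_contra hcon
    push Not at hcon
    have hz : ∀ m, N m l c = 0 := fun m => le_antisymm (hcon m) (h0 _ _ _)
    have h1 := hassoc c j l c
    simp only [hz, mul_zero, Finset.sum_const_zero] at h1
    have h2 : N j l i₀ * N c i₀ c ≤ ∑ m, N j l m * N c m c :=
      Finset.single_le_sum (f := fun m => N j l m * N c m c)
        (fun m _ => mul_nonneg (h0 _ _ _) (h0 _ _ _)) (Finset.mem_univ i₀)
    rw [hr c c, if_pos rfl, mul_one] at h2
    linarith
  let B : Matrix I I ℝ := Matrix.of fun a l => ∑ j, N j l a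
  have hB : ∀ i j, 0 < B i j := by
    intro a l
    obtain ⟨m, hm⟩ := hpos l a
    exact Finset.sum_pos' (fun _ _ => h0 _ _ _) ⟨m, Finset.mem_univ _, hm⟩
  have : Nonempty I := ⟨i₀⟩
  obtain ⟨δ, hδ, hcomm⟩ := Helper781.Fusion.pf_common B hB
  let A : I → Matrix I I ℝ := fun i => Matrix.of fun a l => N l i a
  have hAB : ∀ i, A i * B = B * A i := by
    intro i
    ext a c
    simp only [Matrix.mul_apply, A, B, Matrix.of_apply]
    simp_rw [Finset.mul_sum, Finset.sum_mul]
    rw [Finset.sum_comm]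
    conv_rhs => rw [Finset.sum_comm]
    refine Finset.sum_congr rfl fun j _ => ?_
    have h1 := hassoc j c i a
    rw [Finset.sum_congr rfl (g := fun l => N j c l * N l i a) (fun l _ => mul_comm _ _), h1]
    exact Finset.sum_congr rfl fun l _ => mul_comm _ _
  choose f hf using fun i => hcomm (A i) (hAB i)
  have eig : ∀ i a, ∑ l, N l i a * δ l = f i * δ a := by
    intro i a
    have := congrFun (hf i) a
    simpa [Matrix.mulVec, dotProduct, A] using this
  have f1 : f i₀ = 1 := by
    have h1 := eig i₀ i₀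
    simp only [hr, ite_mul, one_mul, zero_mul] at h1
    rw [Finset.sum_ite_eq' Finset.univ i₀ δ, if_pos (Finset.mem_univ _)] at h1
    have h2 := (hδ i₀).ne'
    field_simp at h1
    linarith
  have fpos : ∀ i, 0 < f i := by
    intro i
    have h1 := eig i i
    have h2 : N i₀ i i * δ i₀ ≤ ∑ l, N l i i * δ l :=
      Finset.single_le_sum (f := fun l => N l i i * δ l)
        (fun m _ => mul_nonneg (h0 _ _ _) (hδ _).le) (Finset.mem_univ i₀)
    rw [hl i i, if_pos rfl, one_mul, h1] at h2
    have h3 : 0 < f i * δ i := (hδ i₀).trans_le h2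
    exact (pos_iff_pos_of_mul_pos h3).2 (hδ i)
  refine ⟨⟨δ, f, hδ, fpos, f1, eig, fun i j => ?_⟩⟩
  have h1 : (∑ l, (∑ m, N l i m * N m j i₀) * δ l) = f i * f j * δ i₀ := by
    simp_rw [Finset.sum_mul]
    rw [Finset.sum_comm]
    have : ∀ m, ∑ l, N l i m * N m j i₀ * δ l = f i * (N m j i₀ * δ m) := by
      intro m
      have h2 := eig i m
      calc ∑ l, N l i m * N m j i₀ * δ l = N m j i₀ * ∑ l, N l i m * δ l := by
            rw [Finset.mul_sum]; exact Finset.sum_congr rfl fun l _ => by ring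
        _ = f i * (N m j i₀ * δ m) := by rw [h2]; ring
    simp_rw [this]
    rw [← Finset.mul_sum, eig j i₀]
    ring
  have h2 : (∑ l, (∑ m, N i j m * N l m i₀) * δ l) = (∑ m, N i j m * f m) * δ i₀ := by
    simp_rw [Finset.sum_mul]
    rw [Finset.sum_comm]
    refine Finset.sum_congr rfl fun m _ => ?_
    calc ∑ l, N i j m * N l m i₀ * δ l = N i j m * ∑ l, N l m i₀ * δ l := by
          rw [Finset.mul_sum]; exact Finset.sum_congr rfl fun l _ => by ring
      _ = N i j m * f m * δ i₀ := by rw [eig m i₀]; ring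
  have h3 : f i * f j * δ i₀ = (∑ m, N i j m * f m) * δ i₀ := by
    rw [← h1, ← h2]
    exact Finset.sum_congr rfl fun l _ => by rw [hassoc]
  exact mul_right_cancel₀ (hδ i₀).ne' h3

end Pool.Agent.W451.UGR
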