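import Pool.Agent.W451.UGR.Core2
import Pool.Agent.W451.UGR.BCIncl
import Pool.Agent.W451.UGR.Idem
import Pool.Agent.W451.UGR.Nil

/-!
# Reduction modulo the maximal ideal
-/

set_option autoImplicit false
set_option linter.unusedSectionVars false

open CategoryTheory MonoidalCategory TensorProduct

namespace Pool.Agent.W451.UGR

universe v u v₁ u₁ v₂ u₂

section simple

variable {O : Type*} [CommRing O] (k : Type*) [Field k] [Algebra O k]
  {B : Type u₂} [Category.{v₂} B] [Preadditive B] [Linear O B] {I : Type*} {Y : I → B}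

/-- The simple objects of the reduction. -/
noncomputable abbrev redS (O : Type*) [CommRing O] (k : Type*) [Field k] [Algebra O k]
    {B : Type u₂} [Category.{v₂} B] [Preadditive B] [Linear O B] {I : Type*} (Y : I → B) :
    I → BC O k B := fun i => (BC.incl O k B).obj (Y i)

lemma simpleFam_red (hY : SimpleFam O Y) : SimpleFam k (redS O k Y) where
  zero {i j} hij f := by
    induction f using BC.hom_induction with
    | zero => rfl
    | add x y hx hy => rw [hx, hy, add_zero]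
    | tm s g =>
      have : g = 0 := hY.zero hij g
      rw [this]
      exact BC.tm_zero s
  scal {i} f := by
    induction f using BC.hom_induction with
    | zero => exact ⟨0, by rw [zero_smul]⟩
    | add x y hx hy =>
      obtain ⟨r, hr⟩ := hx
      obtain ⟨s, hs⟩ := hy
      exact ⟨r + s, by rw [hr, hs, add_smul]⟩
    | tm s g =>
      obtain ⟨r, hr⟩ := hY.scal g
      refine ⟨algebraMap O k r * s, ?_⟩
      rw [hr]
      have h1 := BC.tm_smul (R := O) (S := k) r s (𝟙 (Y i))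
      have h2 := BC.smul_tm (R := O) (S := k) (algebraMap O k r * s) 1 (𝟙 (Y i))
      rw [mul_one] at h2
      exact h1.trans h2.symm
  inj {i} c hc := by
    let e : O ≃ₗ[O] (Y i ⟶ Y i) := LinearEquiv.ofBijective
      (LinearMap.toSpanSingleton O (Y i ⟶ Y i) (𝟙 (Y i))) (by
        constructor
        · intro r s hrs
          have : (r - s) • 𝟙 (Y i) = 0 := by
            rw [sub_smul]; exact sub_eq_zero.2 hrs
          exact sub_eq_zero.1 (hY.inj _ this)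
        · intro f
          obtain ⟨r, hr⟩ := hY.scal f
          exact ⟨r, by rw [hr]; rfl⟩)
    have he : e.symm (𝟙 (Y i)) = 1 := by
      rw [LinearEquiv.symm_apply_eq]
      change 𝟙 (Y i) = (1 : O) • 𝟙 (Y i)
      rw [one_smul]
    let L : (k ⊗[O] (Y i ⟶ Y i)) →ₗ[O] k :=
      (TensorProduct.rid O k).toLinearMap ∘ₗ LinearMap.lTensor k e.symm.toLinearMap
    have h1 : L (c ⊗ₜ[O] 𝟙 (Y i)) = c := by
      simp only [L, LinearMap.comp_apply, LinearMap.lTensor_tmul, LinearEquiv.coe_coe, he,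
        TensorProduct.rid_tmul, one_smul]
    have h2 : (c ⊗ₜ[O] 𝟙 (Y i) : k ⊗[O] (Y i ⟶ Y i)) = 0 := by
      have h3 := BC.smul_tm (R := O) (S := k) c 1 (𝟙 (Y i))
      rw [mul_one] at h3
      exact h3.symm.trans hc
    rw [← h1, h2, map_zero]

/-- The decompositions in the reduction. -/
noncomputable def redDec (dec : ∀ U : B, Dec Y U) (U : BC O k B) : Dec (redS O k Y) U :=
  (dec U.as).map (BC.incl O k B)

end simple

variable {O K : Type*} [CommRing O] [Field K] [Algebra O K]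
  {A : Type u₁} [Category.{v₁} A] [Preadditive A] [Linear O A]
  {B : Type u₂} [Category.{v₂} B] [Preadditive B] [Linear O B]
  {E : Type u} [Category.{v} E] [Preadditive E] [Linear K E]
  {I : Type*}
  [MonoidalCategory A] [MonoidalPreadditive A] [MonoidalLinear O A]
  [MonoidalCategory B] [MonoidalPreadditive B] [MonoidalLinear O B]
  [MonoidalCategory E] [MonoidalPreadditive E] [MonoidalLinear K E]
  {F : A ⥤ E} [F.Additive] [F.Monoidal] {G : B ⥤ E} [G.Additive] [G.Monoidal]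
  {X : I → A} {Y : I → B}
  (fA : Form O K F X) (fB : Form O K G Y) {θ : ∀ i, G.obj (Y i) ≅ F.obj (X i)}
  (h : Feas (K := K) O θ) (hinj : Function.Injective (algebraMap O K))

/-- The morphisms `Y i ⊗ Y j ⟶ Y l` corresponding to morphisms `X i ⊗ X j ⟶ X l`. -/
def Corr (G : B ⥤ E) (F : A ⥤ E) [F.Monoidal] [G.Monoidal] {X : I → A} {Y : I → B}
    (θ : ∀ i, G.obj (Y i) ≅ F.obj (X i)) {i j l : I} (m : Y i ⊗ Y j ⟶ Y l) : Prop :=
  ∃ p : X i ⊗ X j ⟶ X l, G.map m ≫ (θ l).hom = tens G F (θ i).hom (θ j).hom ≫ F.map p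

include fA fB h hinj in
lemma corr_assoc {l i j a c : I} {m₁ : Y i ⊗ Y j ⟶ Y a} (h₁ : Corr G F θ m₁)
    {m₂ : Y l ⊗ Y a ⟶ Y c} (h₂ : Corr G F θ m₂) :
    ∃ (n : ℕ) (t : Fin n → I) (m₃ : ∀ b, Y l ⊗ Y i ⟶ Y (t b)) (m₄ : ∀ b, Y (t b) ⊗ Y j ⟶ Y c),
      (∀ b, Corr G F θ (m₃ b)) ∧ (∀ b, Corr G F θ (m₄ b)) ∧
      (α_ (Y l) (Y i) (Y j)).hom ≫ Y l ◁ m₁ ≫ m₂ = ∑ b, m₃ b ▷ Y j ≫ m₄ b := by
  obtain ⟨p₁, hp₁⟩ := h₁
  obtain ⟨p₂, hp₂⟩ := h₂
  let d := fA.dec (X l ⊗ X i)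
  have h3 := fun b => h.left fA fB (d.prj b)
  have h4 := fun b => h.left fA fB
    (d.inc b ▷ X j ≫ (α_ (X l) (X i) (X j)).hom ≫ X l ◁ p₁ ≫ p₂)
  choose m₃ hm₃ using h3
  choose m₄ hm₄ using h4
  refine ⟨d.n, d.t, m₃, m₄, fun b => ⟨_, hm₃ b⟩, fun b => ⟨_, hm₄ b⟩, ?_⟩
  apply fB.faithful hinj
  rw [← cancel_mono (θ c).hom]
  have e1 : G.map ((α_ (Y l) (Y i) (Y j)).hom ≫ Y l ◁ m₁ ≫ m₂) ≫ (θ c).hom =
      tens G F (tens G F (θ l).hom (θ i).hom) (θ j).hom ≫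
        F.map ((α_ (X l) (X i) (X j)).hom ≫ X l ◁ p₁ ≫ p₂) := by
    rw [G.map_comp, G.map_comp, Category.assoc, Category.assoc, hp₂,
      map_whiskerLeft_tens_assoc, hp₁, ← tens_map_whiskerLeft_assoc, tens_assoc_assoc,
      F.map_comp, F.map_comp]
  have e2 : ∀ b, G.map (m₃ b ▷ Y j ≫ m₄ b) ≫ (θ c).hom =
      tens G F (tens G F (θ l).hom (θ i).hom) (θ j).hom ≫
        F.map ((d.prj b ≫ d.inc b) ▷ X j) ≫
        F.map ((α_ (X l) (X i) (X j)).hom ≫ X l ◁ p₁ ≫ p₂) := by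
    intro b
    rw [G.map_comp, Category.assoc, hm₄ b, map_whiskerRight_tens_assoc, hm₃ b,
      ← tens_map_whiskerRight_assoc, comp_whiskerRight]
    simp only [F.map_comp, Category.assoc]
  rw [e1, G.map_sum, Preadditive.sum_comp]
  simp_rw [e2]
  rw [← Preadditive.comp_sum, ← Preadditive.sum_comp, ← F.map_sum, ← whiskerRight_sum', d.sum]
  simp

include fA fB h hinj in
lemma corr_assoc' {q i j a c : I} {m₁ : Y q ⊗ Y i ⟶ Y a} (h₁ : Corr G F θ m₁)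
    {m₂ : Y a ⊗ Y j ⟶ Y c} (h₂ : Corr G F θ m₂) :
    ∃ (n : ℕ) (t : Fin n → I) (m₃ : ∀ b, Y i ⊗ Y j ⟶ Y (t b)) (m₄ : ∀ b, Y q ⊗ Y (t b) ⟶ Y c),
      (∀ b, Corr G F θ (m₃ b)) ∧ (∀ b, Corr G F θ (m₄ b)) ∧
      m₁ ▷ Y j ≫ m₂ = (α_ (Y q) (Y i) (Y j)).hom ≫ ∑ b, Y q ◁ m₃ b ≫ m₄ b := by
  obtain ⟨p₁, hp₁⟩ := h₁
  obtain ⟨p₂, hp₂⟩ := h₂
  let d := fA.dec (X i ⊗ X j)
  have h3 := fun b => h.left fA fB (d.prj b)
  have h4 := fun b => h.left fA fB
    (X q ◁ d.inc b ≫ (α_ (X q) (X i) (X j)).inv ≫ p₁ ▷ X j ≫ p₂)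
  choose m₃ hm₃ using h3
  choose m₄ hm₄ using h4
  refine ⟨d.n, d.t, m₃, m₄, fun b => ⟨_, hm₃ b⟩, fun b => ⟨_, hm₄ b⟩, ?_⟩
  apply fB.faithful hinj
  rw [← cancel_mono (θ c).hom, ← cancel_epi (G.map (α_ (Y q) (Y i) (Y j)).inv)]
  have e1 : G.map (α_ (Y q) (Y i) (Y j)).inv ≫ G.map (m₁ ▷ Y j ≫ m₂) ≫ (θ c).hom =
      tens G F (θ q).hom (tens G F (θ i).hom (θ j).hom) ≫
        F.map ((α_ (X q) (X i) (X j)).inv ≫ p₁ ▷ X j ≫ p₂) := by
    rw [G.map_comp, Category.assoc, hp₂,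
      map_whiskerRight_tens_assoc, hp₁, ← tens_map_whiskerRight_assoc, tens_assoc_inv_assoc,
      F.map_comp, F.map_comp]
  have e2 : ∀ b, G.map (Y q ◁ m₃ b ≫ m₄ b) ≫ (θ c).hom =
      tens G F (θ q).hom (tens G F (θ i).hom (θ j).hom) ≫
        F.map (X q ◁ (d.prj b ≫ d.inc b)) ≫
        F.map ((α_ (X q) (X i) (X j)).inv ≫ p₁ ▷ X j ≫ p₂) := by
    intro b
    rw [G.map_comp, Category.assoc, hm₄ b, map_whiskerLeft_tens_assoc, hm₃ b,
      ← tens_map_whiskerLeft_assoc, MonoidalCategory.whiskerLeft_comp]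
    simp only [F.map_comp, Category.assoc]
  have e3 : G.map (α_ (Y q) (Y i) (Y j)).inv ≫
      G.map ((α_ (Y q) (Y i) (Y j)).hom ≫ ∑ b, Y q ◁ m₃ b ≫ m₄ b) ≫ (θ c).hom =
      ∑ b, G.map (Y q ◁ m₃ b ≫ m₄ b) ≫ (θ c).hom := by
    rw [← G.map_comp_assoc, Iso.inv_hom_id_assoc, G.map_sum, Preadditive.sum_comp]
  rw [e1, e3]
  simp_rw [e2]
  rw [← Preadditive.comp_sum, ← Preadditive.sum_comp, ← F.map_sum, ← whiskerLeft_sum', d.sum]
  simp

end Pool.Agent.W451.UGR
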