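import Pool.Agent.W451.UGR.PFData
import Pool.Agent.W451.UGR.LinAlg

/-!
# Submodules of shifted modules and the nonexistence of idempotent ideals
-/

set_option autoImplicit false
set_option linter.unusedSectionVars false

open CategoryTheory MonoidalCategory

namespace Pool.Agent.W451.UGR

universe v u

variable {k : Type*} [Field k] {D : Type u} [Category.{v} D] [Preadditive D] [Linear k D]
  [MonoidalCategory D] [MonoidalPreadditive D] [MonoidalLinear k D]
  {I : Type*} [Fintype I] [DecidableEq I] {S : I → D}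

/-- Families of subspaces of the spaces of morphisms `B ⊗ Y ⟶ S j`, stable under the action of
the spaces `M i j l`, for `j` and `l` in `U`. -/
structure SubM (M : ∀ i j l : I, Submodule k (S i ⊗ S j ⟶ S l)) (U : Finset I) (Y : D) where
  /-- the subspaces -/
  P : ∀ (B : D) (j : I), Submodule k (B ⊗ Y ⟶ S j)
  pre : ∀ {B B' : D} (b : B' ⟶ B) (j : I) (φ : B ⊗ Y ⟶ S j), φ ∈ P B j → b ▷ Y ≫ φ ∈ P B' j
  act : ∀ {B : D} (i j l : I), j ∈ U → l ∈ U → ∀ m ∈ M i j l, ∀ φ ∈ P B j,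
    (α_ (S i) B Y).hom ≫ S i ◁ φ ≫ m ∈ P (S i ⊗ B) l

namespace SubM

variable {M : ∀ i j l : I, Submodule k (S i ⊗ S j ⟶ S l)} {U : Finset I} {Y : D}

/-- The weighted size of a family of subspaces. -/
noncomputable def size (δ : I → ℝ) (R : SubM M U Y) : ℝ :=
  ∑ l, ∑ j ∈ U, δ l * (Module.finrank k (R.P (S l) j) : ℝ)

/-- The quotient of `R` by `R'` is killed by the ideal `Q`. -/
structure Killed (Q : Finset I) (R' R : SubM M U Y) : Prop where
  le : ∀ B j, R'.P B j ≤ R.P B j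
  act : ∀ {B : D} (i j l : I), i ∈ Q → j ∈ U → l ∈ U → ∀ m ∈ M i j l, ∀ φ ∈ R.P B j,
    (α_ (S i) B Y).hom ≫ S i ◁ φ ≫ m ∈ R'.P (S i ⊗ B) l

/-- The shift. -/
def shift (X : D) (R : SubM M U Y) : SubM M U (X ⊗ Y) where
  P B j := (R.P (B ⊗ X) j).comap (Linear.leftComp k (S j) (α_ B X Y).hom)
  pre {B B'} b j φ h := by
    change (α_ B' X Y).hom ≫ b ▷ (X ⊗ Y) ≫ φ ∈ R.P (B' ⊗ X) j
    have := R.pre (b ▷ X) j _ h
    change (b ▷ X) ▷ Y ≫ (α_ B X Y).hom ≫ φ ∈ R.P (B' ⊗ X) j at this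
    rwa [associator_naturality_left_assoc] at this
  act {B} i j l hj hl m hm φ h := by
    change (α_ (S i ⊗ B) X Y).hom ≫ (α_ (S i) B (X ⊗ Y)).hom ≫ S i ◁ φ ≫ m ∈
      R.P ((S i ⊗ B) ⊗ X) l
    have h1 := R.act i j l hj hl m hm _ h
    have h2 := R.pre (α_ (S i) B X).hom l _ h1
    have h3 : (α_ (S i) B X).hom ▷ Y ≫ (α_ (S i) (B ⊗ X) Y).hom ≫
        S i ◁ (Linear.leftComp k (S j) (α_ B X Y).hom φ) ≫ m =
        (α_ (S i ⊗ B) X Y).hom ≫ (α_ (S i) B (X ⊗ Y)).hom ≫ S i ◁ φ ≫ m := by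
      change (α_ (S i) B X).hom ▷ Y ≫ (α_ (S i) (B ⊗ X) Y).hom ≫
        S i ◁ ((α_ B X Y).hom ≫ φ) ≫ m = _
      rw [MonoidalCategory.whiskerLeft_comp, Category.assoc,
        MonoidalCategory.pentagon_assoc]
    rwa [h3] at h2

lemma mem_shift {X : D} {R : SubM M U Y} {B : D} {j : I} {φ : B ⊗ X ⊗ Y ⟶ S j} :
    φ ∈ (R.shift X).P B j ↔ (α_ B X Y).hom ≫ φ ∈ R.P (B ⊗ X) j := Iff.rfl

lemma Killed.shift {Q : Finset I} {R' R : SubM M U Y} (h : Killed Q R' R) (X : D) :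
    Killed Q (R'.shift X) (R.shift X) where
  le B j := Submodule.comap_mono (h.le _ _)
  act {B} i j l hi hj hl m hm φ hφ := by
    rw [mem_shift]
    rw [mem_shift] at hφ
    have h1 := h.act i j l hi hj hl m hm _ hφ
    have h2 := R'.pre (α_ (S i) B X).hom l _ h1
    rwa [MonoidalCategory.whiskerLeft_comp, Category.assoc,
        MonoidalCategory.pentagon_assoc] at h2

/-- Restriction of morphisms along an inclusion. -/
def rst (B : D) (j : I) {Y X : D} (f : X ⟶ Y) : (B ⊗ Y ⟶ S j) →ₗ[k] (B ⊗ X ⟶ S j) :=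
  Linear.leftComp k (S j) (B ◁ f)

lemma rst_apply (B : D) (j : I) {Y X : D} (f : X ⟶ Y) (φ : B ⊗ Y ⟶ S j) :
    rst (k := k) B j f φ = B ◁ f ≫ φ := rfl

/-- The graded pieces. -/
def gr (d : Dec S Y) (b : Fin d.n) (R : SubM M U Y) : SubM M U (S (d.t b)) where
  P B j := (R.P B j ⊓ ⨅ c, ⨅ (_ : c < b), LinearMap.ker (rst (k := k) B j (d.inc c))).map
    (rst B j (d.inc b))
  pre {B B'} x j φ h := by
    rw [Submodule.mem_map] at h ⊢
    obtain ⟨ψ, h1, h2⟩ := h
    simp only [Submodule.mem_inf, Submodule.mem_iInf, LinearMap.mem_ker] at h1 ⊢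
    refine ⟨x ▷ Y ≫ ψ, ⟨R.pre x j ψ h1.1, fun c hc => ?_⟩, ?_⟩
    · rw [rst_apply, whisker_exchange_assoc]
      have := h1.2 c hc
      rw [rst_apply] at this
      rw [this, Limits.comp_zero]
    · rw [← h2, rst_apply, rst_apply, whisker_exchange_assoc]
  act {B} i j l hj hl m hm φ h := by
    rw [Submodule.mem_map] at h ⊢
    obtain ⟨ψ, h1, h2⟩ := h
    simp only [Submodule.mem_inf, Submodule.mem_iInf, LinearMap.mem_ker] at h1 ⊢
    refine ⟨(α_ (S i) B Y).hom ≫ S i ◁ ψ ≫ m, ⟨R.act i j l hj hl m hm ψ h1.1, fun c hc => ?_⟩, ?_⟩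
    · have := h1.2 c hc
      rw [rst_apply] at this
      rw [rst_apply, associator_naturality_right_assoc, ← MonoidalCategory.whiskerLeft_comp_assoc,
        this, MonoidalPreadditive.whiskerLeft_zero, Limits.zero_comp, Limits.comp_zero]
    · rw [← h2, rst_apply, rst_apply, associator_naturality_right_assoc,
        ← MonoidalCategory.whiskerLeft_comp_assoc]

lemma mem_gr {d : Dec S Y} {b : Fin d.n} {R : SubM M U Y} {B : D} {j : I}
    {φ : B ⊗ S (d.t b) ⟶ S j} : φ ∈ (R.gr d b).P B j ↔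
      ∃ ψ ∈ R.P B j, (∀ c < b, B ◁ d.inc c ≫ ψ = 0) ∧ B ◁ d.inc b ≫ ψ = φ := by
  constructor
  · rintro h
    have h := (Submodule.mem_map).1 h
    obtain ⟨ψ, h1, h2⟩ := h
    simp only [Submodule.mem_inf, Submodule.mem_iInf, LinearMap.mem_ker] at h1
    exact ⟨ψ, h1.1, h1.2, h2⟩
  · rintro ⟨ψ, h1, h2, h3⟩
    refine (Submodule.mem_map).2 ⟨ψ, ?_, h3⟩
    simp only [Submodule.mem_inf, Submodule.mem_iInf, LinearMap.mem_ker]
    exact ⟨h1, h2⟩

lemma Killed.gr {Q : Finset I} {R' R : SubM M U Y} (h : Killed Q R' R) (d : Dec S Y)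
    (b : Fin d.n) : Killed Q (R'.gr d b) (R.gr d b) where
  le B j φ hφ := by
    rw [mem_gr] at hφ ⊢
    obtain ⟨ψ, h1, h2⟩ := hφ
    exact ⟨ψ, h.le _ _ h1, h2⟩
  act {B} i j l hi hj hl m hm φ hφ := by
    rw [mem_gr] at hφ ⊢
    obtain ⟨ψ, h1, h2, h3⟩ := hφ
    refine ⟨(α_ (S i) B Y).hom ≫ S i ◁ ψ ≫ m, h.act i j l hi hj hl m hm ψ h1, fun c hc => ?_, ?_⟩
    · rw [associator_naturality_right_assoc, ← MonoidalCategory.whiskerLeft_comp_assoc,
        h2 c hc, MonoidalPreadditive.whiskerLeft_zero, Limits.zero_comp, Limits.comp_zero]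
    · rw [← h3, associator_naturality_right_assoc, ← MonoidalCategory.whiskerLeft_comp_assoc]

section finite

variable (hS : SimpleFam k S) (dec : ∀ Y : D, Dec S Y)
include hS dec

lemma finrank_eq_sum_gr (R : SubM M U Y) (d : Dec S Y) (B : D) (j : I) :
    Module.finrank k (R.P B j) = ∑ b, Module.finrank k ((R.gr d b).P B j) := by
  have := finite_hom hS (dec (B ⊗ Y)) (dec (S j))
  refine finrank_filtration (V := (B ⊗ Y ⟶ S j)) (W := fun b => (B ⊗ S (d.t b) ⟶ S j))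
    (fun b => rst (k := k) B j (d.inc b)) (fun φ hφ => ?_) (R.P B j)
  have h1 : φ = ∑ b, B ◁ d.prj b ≫ B ◁ d.inc b ≫ φ := by
    have : ∀ b, B ◁ d.prj b ≫ B ◁ d.inc b ≫ φ = B ◁ (d.prj b ≫ d.inc b) ≫ φ := by
      intro b; simp
    simp_rw [this]
    rw [← Preadditive.sum_comp, ← whiskerLeft_sum', d.sum]
    simp
  rw [h1]
  refine Finset.sum_eq_zero fun b _ => ?_
  have := hφ b
  rw [rst_apply] at this
  rw [this, Limits.comp_zero]

lemma size_eq_sum_gr (δ : I → ℝ) (R : SubM M U Y) (d : Dec S Y) :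
    R.size δ = ∑ b, (R.gr d b).size δ := by
  unfold size
  conv_rhs => rw [Finset.sum_comm]
  refine Finset.sum_congr rfl fun l _ => ?_
  conv_rhs => rw [Finset.sum_comm]
  refine Finset.sum_congr rfl fun j _ => ?_
  rw [finrank_eq_sum_gr hS dec R d, Nat.cast_sum, Finset.mul_sum]

lemma finrank_expand (R : SubM M U Y) (B : D) (j : I) :
    (Module.finrank k (R.P B j) : ℝ) =
      ∑ m, (Module.finrank k (B ⟶ S m) : ℝ) * (Module.finrank k (R.P (S m) j) : ℝ) := by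
  have hf : ∀ Y Z : D, Module.Finite k (Y ⟶ Z) := fun Y Z => finite_hom hS (dec Y) (dec Z)
  let d := dec B
  have h := finrank_split (k := k) (V := R.P B j) (W := fun b : Fin d.n => R.P (S (d.t b)) j)
    (fun b => (Linear.leftComp k (S j) (d.inc b ▷ Y)).restrict
      (fun φ hφ => R.pre (d.inc b) j φ hφ))
    (fun b => (Linear.leftComp k (S j) (d.prj b ▷ Y)).restrict
      (fun φ hφ => R.pre (d.prj b) j φ hφ))
    (fun b x => by
      apply Subtype.ext
      change d.inc b ▷ Y ≫ d.prj b ▷ Y ≫ x.1 = x.1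
      rw [← Category.assoc, ← comp_whiskerRight, d.inc_prj, id_whiskerRight, Category.id_comp])
    (fun b c hbc x => by
      apply Subtype.ext
      change d.inc b ▷ Y ≫ d.prj c ▷ Y ≫ x.1 = 0
      rw [← Category.assoc, ← comp_whiskerRight, d.inc_prj_ne b c hbc,
        MonoidalPreadditive.zero_whiskerRight, Limits.zero_comp])
    (fun x => by
      apply Subtype.ext
      rw [AddSubmonoidClass.coe_finsetSum]
      change ∑ b, d.prj b ▷ Y ≫ d.inc b ▷ Y ≫ x.1 = x.1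
      have : ∀ b, d.prj b ▷ Y ≫ d.inc b ▷ Y ≫ x.1 = (d.prj b ≫ d.inc b) ▷ Y ≫ x.1 := by
        intro b; simp
      simp_rw [this]
      rw [← Preadditive.sum_comp, ← whiskerRight_sum', d.sum]
      simp)
  rw [h, Nat.cast_sum]
  exact sum_dec hS d (fun m => (Module.finrank k (R.P (S m) j) : ℝ))

lemma finrank_shift (R : SubM M U Y) (X B : D) (j : I) :
    Module.finrank k ((R.shift X).P B j) = Module.finrank k (R.P (B ⊗ X) j) := by
  let e : (B ⊗ X ⊗ Y ⟶ S j) ≃ₗ[k] ((B ⊗ X) ⊗ Y ⟶ S j) :=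
    { Linear.leftComp k (S j) (α_ B X Y).hom with
      invFun := fun f => (α_ B X Y).inv ≫ f
      left_inv := fun f => by simp
      right_inv := fun f => by simp }
  have h1 : ((R.shift X).P B j).map e.toLinearMap = R.P (B ⊗ X) j := by
    ext φ
    rw [Submodule.mem_map]
    constructor
    · rintro ⟨ψ, h1, rfl⟩
      exact h1
    · intro h
      refine ⟨(α_ B X Y).inv ≫ φ, ?_, ?_⟩
      · rw [mem_shift]
        simpa using h
      · change (α_ B X Y).hom ≫ (α_ B X Y).inv ≫ φ = φ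
        simp
  rw [← h1]
  exact (LinearEquiv.finrank_map_eq e _).symm

lemma size_shift {i₀ : I} (F : PFData (N k S) i₀) (R : SubM M U Y) (i : I) :
    (R.shift (S i)).size F.δ = F.f i * R.size F.δ := by
  unfold size
  simp_rw [finrank_shift hS dec, finrank_expand hS dec R (_ ⊗ _)]
  rw [Finset.sum_comm]
  conv_rhs => rw [Finset.sum_comm]
  rw [Finset.mul_sum]
  refine Finset.sum_congr rfl fun j _ => ?_
  simp_rw [Finset.mul_sum]
  rw [Finset.sum_comm]
  refine Finset.sum_congr rfl fun m _ => ?_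
  have h := F.eig i m
  unfold N at h
  calc ∑ l, F.δ l * ((Module.finrank k (S l ⊗ S i ⟶ S m) : ℝ) *
        (Module.finrank k (R.P (S m) j) : ℝ)) =
      (∑ l, (Module.finrank k (S l ⊗ S i ⟶ S m) : ℝ) * F.δ l) *
        (Module.finrank k (R.P (S m) j) : ℝ) := by
        rw [Finset.sum_mul]
        exact Finset.sum_congr rfl fun l _ => by ring
    _ = _ := by rw [h]; ring

lemma size_mono {δ : I → ℝ} (hδ : ∀ i, 0 < δ i) {R' R : SubM M U Y}
    (h : ∀ B j, R'.P B j ≤ R.P B j) : R'.size δ ≤ R.size δ := by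
  unfold size
  refine Finset.sum_le_sum fun l _ => Finset.sum_le_sum fun j _ => ?_
  have := finite_hom hS (dec (S l ⊗ Y)) (dec (S j))
  exact mul_le_mul_of_nonneg_left (by exact_mod_cast Submodule.finrank_mono (h _ _)) (hδ l).le

lemma size_lt {δ : I → ℝ} (hδ : ∀ i, 0 < δ i) {R' R : SubM M U Y}
    (h : ∀ B j, R'.P B j ≤ R.P B j) {l j : I} (hj : j ∈ U)
    (hlt : R'.P (S l) j < R.P (S l) j) : R'.size δ < R.size δ := by
  have hf : ∀ Y Z : D, Module.Finite k (Y ⟶ Z) := fun Y Z => finite_hom hS (dec Y) (dec Z)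
  unfold size
  have hle : ∀ l j, δ l * (Module.finrank k (R'.P (S l) j) : ℝ) ≤
      δ l * (Module.finrank k (R.P (S l) j) : ℝ) := fun l j =>
    mul_le_mul_of_nonneg_left (by exact_mod_cast Submodule.finrank_mono (h _ _)) (hδ l).le
  refine Finset.sum_lt_sum (fun l _ => Finset.sum_le_sum fun j _ => hle l j)
    ⟨l, Finset.mem_univ _, Finset.sum_lt_sum (fun j _ => hle l j) ⟨j, hj, ?_⟩⟩
  exact mul_lt_mul_of_pos_left (by exact_mod_cast Submodule.finrank_lt_finrank_of_lt hlt) (hδ l)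

end finite

/-- The maximal size of a killed subquotient. -/
noncomputable def sigma (M : ∀ i j l : I, Submodule k (S i ⊗ S j ⟶ S l)) (U Q : Finset I)
    (δ : I → ℝ) (Y : D) : ℝ :=
  sSup {x | ∃ R' R : SubM M U Y, Killed Q R' R ∧ x = R.size δ - R'.size δ}

/-- The full family. -/
def full (M : ∀ i j l : I, Submodule k (S i ⊗ S j ⟶ S l)) (U : Finset I) (Y : D) :
    SubM M U Y where
  P _ _ := ⊤
  pre _ _ _ _ := trivial
  act _ _ _ _ _ _ _ _ _ := trivial

section finite2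

variable (hS : SimpleFam k S) (dec : ∀ Y : D, Dec S Y)
include hS dec

lemma bddAbove {Q : Finset I} {δ : I → ℝ} (hδ : ∀ i, 0 < δ i) (Y : D) :
    BddAbove {x | ∃ R' R : SubM M U Y, Killed Q R' R ∧ x = R.size δ - R'.size δ} := by
  refine ⟨(full M U Y).size δ, ?_⟩
  rintro x ⟨R', R, -, rfl⟩
  have h1 : R.size δ ≤ (full M U Y).size δ := size_mono hS dec hδ fun B j => le_top
  have h2 : 0 ≤ R'.size δ := Finset.sum_nonneg fun l _ => Finset.sum_nonneg fun j _ =>
    mul_nonneg (hδ l).le (Nat.cast_nonneg _)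
  linarith

lemma le_sigma {Q : Finset I} {δ : I → ℝ} (hδ : ∀ i, 0 < δ i) {Y : D} {R' R : SubM M U Y}
    (h : Killed Q R' R) : R.size δ - R'.size δ ≤ sigma M U Q δ Y :=
  le_csSup (bddAbove hS dec hδ Y) ⟨R', R, h, rfl⟩

omit hS dec in
lemma nonempty_killed {Q : Finset I} {δ : I → ℝ} (Y : D) :
    {x | ∃ R' R : SubM M U Y, Killed Q R' R ∧ x = R.size δ - R'.size δ}.Nonempty :=
  ⟨_, full M U Y, full M U Y, ⟨fun _ _ => le_rfl, fun _ _ _ _ _ _ _ _ _ _ => trivial⟩, rfl⟩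

lemma sigma_tensor {Q : Finset I} {i₀ : I} (F : PFData (N k S) i₀) (i : I) (Y : D) :
    F.f i * sigma M U Q F.δ Y ≤ sigma M U Q F.δ (S i ⊗ Y) := by
  have hf := F.f_pos i
  rw [← le_div_iff₀' hf]
  refine csSup_le (nonempty_killed Y) ?_
  rintro x ⟨R', R, h, rfl⟩
  rw [le_div_iff₀' hf]
  have := le_sigma hS dec F.δ_pos (h.shift (S i))
  rw [size_shift hS dec F, size_shift hS dec F] at this
  linarith

lemma sigma_le_sum {Q : Finset I} {δ : I → ℝ} (hδ : ∀ i, 0 < δ i) {Y : D} (d : Dec S Y) :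
    sigma M U Q δ Y ≤ ∑ b, sigma M U Q δ (S (d.t b)) := by
  refine csSup_le (nonempty_killed Y) ?_
  rintro x ⟨R', R, h, rfl⟩
  rw [size_eq_sum_gr hS dec δ R d, size_eq_sum_gr hS dec δ R' d, ← Finset.sum_sub_distrib]
  exact Finset.sum_le_sum fun b _ => le_sigma hS dec hδ (h.gr d b)

end finite2

end SubM

end Pool.Agent.W451.UGR
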