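import Pool.Agent.W451.UGR.Red

/-!
# Weights from the reduction
-/

set_option autoImplicit false
set_option linter.unusedSectionVars false

open CategoryTheory MonoidalCategory TensorProduct

namespace Pool.Agent.W451.UGR

universe v u v₁ u₁ v₂ u₂

section red

variable {O : Type*} [CommRing O] {k : Type*} [Field k] [Algebra O k]
  {B : Type u₂} [Category.{v₂} B] [Preadditive B] [Linear O B] {I : Type*} {Y : I → B}

lemma tm_eq_zero (dec : ∀ U : B, Dec Y U) (hY : SimpleFam O Y) {U : B} {l : I} (m : U ⟶ Y l)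
    (h : ∀ q : Y l ⟶ U, ∃ r : O, q ≫ m = r • 𝟙 (Y l) ∧ algebraMap O k r = 0) :
    BC.tm O k 1 m = 0 := by
  have h1 : ∀ (i : I) (q : Y i ⟶ U), BC.tm O k 1 (q ≫ m) = 0 := by
    intro i q
    by_cases hi : i = l
    · subst hi
      obtain ⟨r, hr, hr0⟩ := h q
      rw [hr, BC.tm_smul, hr0, zero_mul]
      exact TensorProduct.zero_tmul _ _
    · rw [hY.zero hi (q ≫ m), BC.tm_zero]
  let d := dec U
  have h2 : m = ∑ b, d.prj b ≫ d.inc b ≫ m := d.expand_left m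
  have h3 : (BC.incl O k B).map m = 0 := by
    rw [h2, (BC.incl O k B).map_sum]
    refine Finset.sum_eq_zero fun b _ => ?_
    rw [(BC.incl O k B).map_comp]
    exact (congrArg (fun x => (BC.incl O k B).map (d.prj b) ≫ x) (h1 _ (d.inc b))).trans
      Limits.comp_zero
  exact h3

lemma tm_ne_zero (hY : SimpleFam O Y) {U : B} {l : I} (m : U ⟶ Y l) (q : Y l ⟶ U) {r : O}
    (h : q ≫ m = r • 𝟙 (Y l)) (hr : algebraMap O k r ≠ 0) : BC.tm O k 1 m ≠ 0 := by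
  intro h0
  have h1 : BC.tm O k 1 (q ≫ m) = 0 := by
    have h2 := BC.tm_comp (R := O) (S := k) 1 1 q m
    rw [h0, Limits.comp_zero, one_mul] at h2
    exact h2.symm
  rw [h, BC.tm_smul, mul_one] at h1
  have h2 := BC.smul_tm (R := O) (S := k) (algebraMap O k r) 1 (𝟙 (Y l))
  rw [mul_one, h1] at h2
  exact hr ((simpleFam_red k hY).inj (i := l) _ h2)

end red

variable {O K : Type*} [CommRing O] [Field K] [Algebra O K]
  {A : Type u₁} [Category.{v₁} A] [Preadditive A] [Linear O A]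
  {B : Type u₂} [Category.{v₂} B] [Preadditive B] [Linear O B]
  {E : Type u} [Category.{v} E] [Preadditive E] [Linear K E]
  {I : Type*}
  [MonoidalCategory A] [MonoidalPreadditive A] [MonoidalLinear O A]
  [MonoidalCategory B] [MonoidalPreadditive B] [MonoidalLinear O B]
  [MonoidalCategory E] [MonoidalPreadditive E] [MonoidalLinear K E]
  {F : A ⥤ E} [F.Additive] [F.Monoidal] {G : B ⥤ E} [G.Additive] [G.Monoidal]
  {X : I → A} {Y : I → B}
  (fA : Form O K F X) (fB : Form O K G Y) {θ : ∀ i, G.obj (Y i) ≅ F.obj (X i)}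
  (h : Feas (K := K) O θ) (hinj : Function.Injective (algebraMap O K))
  {k : Type*} [Field k] [Algebra O k] (hsurj : Function.Surjective (algebraMap O k))
  (hk : ∀ r : O, algebraMap O k r = 0 ↔ ¬ IsUnit r)

/-- The reduction of a morphism between tensor products of simple objects. -/
noncomputable def rt (O : Type*) [CommRing O] (k : Type*) [Field k] [Algebra O k]
    {B : Type u₂} [Category.{v₂} B] [Preadditive B] [Linear O B] [MonoidalCategory B]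
    [MonoidalPreadditive B] [MonoidalLinear O B] {I : Type*} {Y : I → B} {i j l : I}
    (m : Y i ⊗ Y j ⟶ Y l) : redS O k Y i ⊗ redS O k Y j ⟶ redS O k Y l :=
  BC.tm O k 1 m

/-- The reduction of a morphism from a triple tensor product. -/
noncomputable def rt3 (O : Type*) [CommRing O] (k : Type*) [Field k] [Algebra O k]
    {B : Type u₂} [Category.{v₂} B] [Preadditive B] [Linear O B] [MonoidalCategory B]
    [MonoidalPreadditive B] [MonoidalLinear O B] {I : Type*} {Y : I → B} {i j a l : I}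
    (m : (Y i ⊗ Y j) ⊗ Y a ⟶ Y l) :
    (redS O k Y i ⊗ redS O k Y j) ⊗ redS O k Y a ⟶ redS O k Y l :=
  BC.tm O k 1 m

lemma rt_zero {i j l : I} : rt O k (0 : Y i ⊗ Y j ⟶ Y l) = 0 := BC.tm_zero (R := O) (S := k) 1

lemma rt_add {i j l : I} (m m' : Y i ⊗ Y j ⟶ Y l) : rt O k (m + m') = rt O k m + rt O k m' :=
  BC.tm_add (R := O) (S := k) 1 m m'

lemma rt_smul {i j l : I} (r : O) (m : Y i ⊗ Y j ⟶ Y l) :
    rt O k (r • m) = algebraMap O k r • rt O k m :=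
  (BC.tm_smul (R := O) (S := k) r 1 m).trans (BC.smul_tm (R := O) (S := k) _ 1 m).symm

lemma rt3_sum {i j a l : I} {n : ℕ} (m : Fin n → ((Y i ⊗ Y j) ⊗ Y a ⟶ Y l)) :
    rt3 O k (∑ b, m b) = ∑ b, rt3 O k (m b) := (BC.incl O k B).map_sum _ _

lemma rt_comp_left {l i j a c : I} (m₁ : Y i ⊗ Y j ⟶ Y a) (m₂ : Y l ⊗ Y a ⟶ Y c) :
    (α_ (redS O k Y l) (redS O k Y i) (redS O k Y j)).hom ≫
      redS O k Y l ◁ rt O k m₁ ≫ rt O k m₂ =
      rt3 O k ((α_ (Y l) (Y i) (Y j)).hom ≫ Y l ◁ m₁ ≫ m₂) := by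
  have h1 := BC.tm_whiskerLeft (R := O) (Y l) (1 : k) m₁
  change BC.tm O k 1 (α_ (Y l) (Y i) (Y j)).hom ≫ (⟨Y l⟩ : BC O k B) ◁ BC.tm O k 1 m₁ ≫
    BC.tm O k 1 m₂ = _
  rw [h1, BC.tm_comp, BC.tm_comp, one_mul, one_mul]
  rfl

lemma rt_comp_right {q i j a c : I} (m₁ : Y q ⊗ Y i ⟶ Y a) (m₂ : Y a ⊗ Y j ⟶ Y c) :
    rt O k m₁ ▷ redS O k Y j ≫ rt O k m₂ = rt3 O k (m₁ ▷ Y j ≫ m₂) := by
  have h1 := BC.tm_whiskerRight (R := O) (1 : k) m₁ (Y j)
  change BC.tm O k 1 m₁ ▷ (⟨Y j⟩ : BC O k B) ≫ BC.tm O k 1 m₂ = _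
  rw [h1, BC.tm_comp, one_mul]
  rfl

lemma rt_iso_ne_zero (hY : SimpleFam O Y) {i j l : I} (e : Y i ⊗ Y j ≅ Y l) :
    rt O k e.hom ≠ 0 := by
  refine tm_ne_zero (k := k) hY e.hom e.inv (r := 1) (by simp) ?_
  rw [map_one]; exact one_ne_zero

/-- The reductions of the corresponding morphisms. -/
noncomputable def redM (G : B ⥤ E) (F : A ⥤ E) [G.Additive] [F.Additive]
    [F.Monoidal] [G.Monoidal] {X : I → A}
    {Y : I → B} (fA : Form O K F X) (fB : Form O K G Y)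
    (θ : ∀ i, G.obj (Y i) ≅ F.obj (X i)) (hsurj : Function.Surjective (algebraMap O k))
    (i j l : I) : Submodule k (redS O k Y i ⊗ redS O k Y j ⟶ redS O k Y l) where
  carrier := {x | ∃ m : Y i ⊗ Y j ⟶ Y l, Corr G F θ m ∧ x = rt O k m}
  zero_mem' := ⟨0, ⟨0, by simp⟩, rt_zero.symm⟩
  add_mem' := by
    rintro x y ⟨m, ⟨p, hp⟩, rfl⟩ ⟨m', ⟨p', hp'⟩, rfl⟩
    refine ⟨m + m', ⟨p + p', ?_⟩, (rt_add m m').symm⟩
    rw [G.map_add, F.map_add, Preadditive.add_comp, Preadditive.comp_add, hp, hp']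
  smul_mem' := by
    rintro c x ⟨m, ⟨p, hp⟩, rfl⟩
    obtain ⟨r, rfl⟩ := hsurj c
    refine ⟨r • m, ⟨r • p, ?_⟩, (rt_smul r m).symm⟩
    rw [fB.smul, fA.smul, Linear.smul_comp, Linear.comp_smul, hp]

lemma mem_redM {i j l : I} {x : redS O k Y i ⊗ redS O k Y j ⟶ redS O k Y l} :
    x ∈ redM G F fA fB θ hsurj i j l ↔
      ∃ m : Y i ⊗ Y j ⟶ Y l, Corr G F θ m ∧ x = rt O k m := Iff.rfl

include h hinj in
lemma assocM_redM : AssocM (redM (k := k) G F fA fB θ hsurj) := by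
  rintro l i j a c m₁ ⟨m₁, h₁, rfl⟩ m₂ ⟨m₂, h₂, rfl⟩
  obtain ⟨n, t, m₃, m₄, h₃, h₄, heq⟩ := corr_assoc fA fB h hinj h₁ h₂
  rw [rt_comp_left, heq, rt3_sum]
  refine Submodule.sum_mem _ fun b _ => ?_
  exact Submodule.subset_span ⟨t b, rt O k (m₃ b), ⟨m₃ b, h₃ b, rfl⟩,
    rt O k (m₄ b), ⟨m₄ b, h₄ b, rfl⟩, (rt_comp_right (m₃ b) (m₄ b)).symm⟩

include h hinj hk in
lemma redM_ne_bot_iff (i j l : I) :
    redM (k := k) G F fA fB θ hsurj i j l ≠ ⊥ ↔ Tight (K := K) O θ i j l := by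
  have key : ∀ (q : Y l ⟶ Y i ⊗ Y j) (p : X i ⊗ X j ⟶ X l) (m : Y i ⊗ Y j ⟶ Y l),
      G.map m ≫ (θ l).hom = tens G F (θ i).hom (θ j).hom ≫ F.map p → ∀ r : O,
      G.map q ≫ tens G F (θ i).hom (θ j).hom ≫ F.map p = algebraMap O K r • (θ l).hom →
      q ≫ m = r • 𝟙 (Y l) := by
    intro q p m hm r hr
    apply fB.faithful hinj
    rw [← cancel_mono (θ l).hom, G.map_comp, Category.assoc, hm, hr, fB.smul, G.map_id,
      Linear.smul_comp, Category.id_comp]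
  constructor
  · intro hne
    obtain ⟨x, ⟨m, ⟨p, hp⟩, rfl⟩, hx⟩ := (Submodule.ne_bot_iff _).1 hne
    by_contra hT
    apply hx
    refine tm_eq_zero fB.dec fB.simple m fun q => ?_
    obtain ⟨r, hr⟩ := h i j l q p
    refine ⟨r, key q p m hp r hr, ?_⟩
    rw [hk]
    intro hu
    exact hT ⟨q, p, r, hu, hr⟩
  · rintro ⟨q, p, r, hu, hr⟩ hbot
    obtain ⟨m, hm⟩ := h.left fA fB p
    have h1 : rt O k m ∈ redM (k := k) G F fA fB θ hsurj i j l := ⟨m, ⟨p, hm⟩, rfl⟩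
    rw [hbot, Submodule.mem_bot] at h1
    refine tm_ne_zero (k := k) fB.simple m q (key q p m hm r hr) ?_ h1
    intro h3
    exact (hk r).1 h3 hu

section weights

variable [Fintype I] [DecidableEq I] {i₀ : I} (eA : X i₀ ≅ 𝟙_ A) (eB : Y i₀ ≅ 𝟙_ B)
  (hθ : G.map eB.hom ≫ uu G F = (θ i₀).hom ≫ F.map eA.hom)
  {st : I → I} [∀ i, ExactPairing (Y i) (Y (st i))]

include hθ in
lemma corr_unit_left (j : I) : Corr G F θ (eB.hom ▷ Y j ≫ (λ_ (Y j)).hom) := by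
  refine ⟨eA.hom ▷ X j ≫ (λ_ (X j)).hom, ?_⟩
  rw [G.map_comp, Category.assoc, ← uu_tens, map_whiskerRight_tens_assoc, hθ,
    ← tens_map_whiskerRight_assoc, F.map_comp]

include hθ in
lemma corr_unit_right (j : I) : Corr G F θ (Y j ◁ eB.hom ≫ (ρ_ (Y j)).hom) := by
  refine ⟨X j ◁ eA.hom ≫ (ρ_ (X j)).hom, ?_⟩
  rw [G.map_comp, Category.assoc, ← tens_uu, map_whiskerLeft_tens_assoc, hθ,
    ← tens_map_whiskerLeft_assoc, F.map_comp]

include fA fB h hinj hsurj hk in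
lemma tight_assoc (l i j a c : I) (t1 : Tight (K := K) O θ i j a)
    (t2 : Tight (K := K) O θ l a c) :
    ∃ n, Tight (K := K) O θ l i n ∧ Tight (K := K) O θ n j c := by
  have hT := redM_ne_bot_iff (k := k) fA fB h hinj hsurj hk
  rw [← hT] at t1 t2
  obtain ⟨x₁, ⟨m₁, h₁, rfl⟩, hx₁⟩ := (Submodule.ne_bot_iff _).1 t1
  obtain ⟨x₂, ⟨m₂, h₂, rfl⟩, hx₂⟩ := (Submodule.ne_bot_iff _).1 t2
  obtain ⟨n, t, m₃, m₄, h₃, h₄, heq⟩ := corr_assoc fA fB h hinj h₁ h₂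
  by_contra hcon
  push Not at hcon
  have hz : ∀ b, rt3 O k (m₃ b ▷ Y j ≫ m₄ b) = 0 := by
    intro b
    rw [← rt_comp_right]
    by_cases h3 : rt O k (m₃ b) = 0
    · rw [h3, MonoidalPreadditive.zero_whiskerRight, Limits.zero_comp]
    · have t3 : Tight (K := K) O θ l i (t b) := by
        refine (hT _ _ _).1 fun hbot => h3 ?_
        rw [← Submodule.mem_bot k, ← hbot]
        exact ⟨m₃ b, h₃ b, rfl⟩
      have t4 := hcon _ t3
      have h4 : rt O k (m₄ b) = 0 := by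
        by_contra h4
        refine t4 ((hT _ _ _).1 fun hbot => h4 ?_)
        rw [← Submodule.mem_bot k, ← hbot]
        exact ⟨m₄ b, h₄ b, rfl⟩
      rw [h4, Limits.comp_zero]
  have e3 : rt3 O k ((α_ (Y l) (Y i) (Y j)).hom ≫ Y l ◁ m₁ ≫ m₂) = 0 := by
    rw [heq, rt3_sum]
    exact Finset.sum_eq_zero fun b _ => hz b
  rw [← rt_comp_left] at e3
  obtain ⟨s, hs⟩ := exists_section (simpleFam_red k fB.simple) (redDec k fB.dec _) _ hx₁
  apply hx₂
  have e4 : redS O k Y l ◁ s ≫ (α_ (redS O k Y l) (redS O k Y i) (redS O k Y j)).inv ≫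
      (α_ (redS O k Y l) (redS O k Y i) (redS O k Y j)).hom ≫
      redS O k Y l ◁ rt O k m₁ ≫ rt O k m₂ = rt O k m₂ := by
    rw [Iso.inv_hom_id_assoc, ← MonoidalCategory.whiskerLeft_comp_assoc, hs,
      MonoidalCategory.whiskerLeft_id, Category.id_comp]
  rw [← e4, e3, Limits.comp_zero, Limits.comp_zero]

include fA fB h hinj hsurj hk in
lemma tight_assoc' (q i j a c : I) (t1 : Tight (K := K) O θ q i a)
    (t2 : Tight (K := K) O θ a j c) :
    ∃ n, Tight (K := K) O θ i j n ∧ Tight (K := K) O θ q n c := by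
  have hT := redM_ne_bot_iff (k := k) fA fB h hinj hsurj hk
  rw [← hT] at t1 t2
  obtain ⟨x₁, ⟨m₁, h₁, rfl⟩, hx₁⟩ := (Submodule.ne_bot_iff _).1 t1
  obtain ⟨x₂, ⟨m₂, h₂, rfl⟩, hx₂⟩ := (Submodule.ne_bot_iff _).1 t2
  obtain ⟨n, t, m₃, m₄, h₃, h₄, heq⟩ := corr_assoc' fA fB h hinj h₁ h₂
  by_contra hcon
  push Not at hcon
  have hz : ∀ b, rt3 O k ((α_ (Y q) (Y i) (Y j)).hom ≫ Y q ◁ m₃ b ≫ m₄ b) = 0 := by
    intro b
    rw [← rt_comp_left]
    by_cases h3 : rt O k (m₃ b) = 0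
    · rw [h3, MonoidalPreadditive.whiskerLeft_zero, Limits.zero_comp, Limits.comp_zero]
    · have t3 : Tight (K := K) O θ i j (t b) := by
        refine (hT _ _ _).1 fun hbot => h3 ?_
        rw [← Submodule.mem_bot k, ← hbot]
        exact ⟨m₃ b, h₃ b, rfl⟩
      have t4 := hcon _ t3
      have h4 : rt O k (m₄ b) = 0 := by
        by_contra h4
        refine t4 ((hT _ _ _).1 fun hbot => h4 ?_)
        rw [← Submodule.mem_bot k, ← hbot]
        exact ⟨m₄ b, h₄ b, rfl⟩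
      rw [h4, Limits.comp_zero, Limits.comp_zero]
  have e3 : rt3 O k (m₁ ▷ Y j ≫ m₂) = 0 := by
    rw [heq, Preadditive.comp_sum, rt3_sum]
    exact Finset.sum_eq_zero fun b _ => hz b
  rw [← rt_comp_right] at e3
  obtain ⟨s, hs⟩ := exists_section (simpleFam_red k fB.simple) (redDec k fB.dec _) _ hx₁
  apply hx₂
  have e4 : s ▷ redS O k Y j ≫ rt O k m₁ ▷ redS O k Y j ≫ rt O k m₂ = rt O k m₂ := by
    rw [← comp_whiskerRight_assoc, hs, id_whiskerRight, Category.id_comp]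
  rw [← e4, e3, Limits.comp_zero]

include fB eB in
lemma red_mult_pos (i : I) : 0 < N k (redS O k Y) (st i) i i₀ := by
  have hS := simpleFam_red k fB.simple
  have hf := finite_hom hS (redDec k fB.dec (redS O k Y (st i) ⊗ redS O k Y i))
    (redDec k fB.dec (redS O k Y i₀))
  unfold N
  rw [Nat.cast_pos, Module.finrank_pos_iff_exists_ne_zero]
  refine ⟨rt O k (ε_ (Y i) (Y (st i)) ≫ eB.inv), fun h0 => ?_⟩
  have h1 : BC.tm O k 1 (ε_ (Y i) (Y (st i))) = 0 := by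
    have h2 : BC.tm O k 1 ((ε_ (Y i) (Y (st i)) ≫ eB.inv) ≫ eB.hom) = 0 := by
      have h3 := BC.tm_comp (R := O) (S := k) 1 1 (ε_ (Y i) (Y (st i)) ≫ eB.inv) eB.hom
      rw [one_mul] at h3
      rw [← h3]
      exact (congrArg (· ≫ _) h0).trans Limits.zero_comp
    rwa [Category.assoc, eB.inv_hom_id, Category.comp_id] at h2
  have h2 : BC.tm O k 1 ((λ_ (Y i)).hom ≫ (ρ_ (Y i)).inv) = 0 := by
    rw [← ExactPairing.evaluation_coevaluation (Y i) (Y (st i))]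
    have h3 := BC.tm_comp (R := O) (S := k) 1 1
      (η_ (Y i) (Y (st i)) ▷ Y i ≫ (α_ (Y i) (Y (st i)) (Y i)).hom)
      (Y i ◁ ε_ (Y i) (Y (st i)))
    rw [one_mul, Category.assoc] at h3
    rw [← h3, ← BC.tm_whiskerLeft (Y i) (1 : k) (ε_ (Y i) (Y (st i))), h1]
    exact (congrArg _ MonoidalPreadditive.whiskerLeft_zero).trans Limits.comp_zero
  have h3 : BC.tm O k 1 ((λ_ (Y i)).hom) = 0 := by
    have h4 := BC.tm_comp (R := O) (S := k) 1 1 ((λ_ (Y i)).hom ≫ (ρ_ (Y i)).inv) (ρ_ (Y i)).hom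
    rw [one_mul, h2, Limits.zero_comp, Category.assoc, Iso.inv_hom_id, Category.comp_id] at h4
    exact h4.symm
  refine tm_ne_zero (k := k) fB.simple (λ_ (Y i)).hom (λ_ (Y i)).inv (r := 1) (by simp) ?_ h3
  rw [map_one]; exact one_ne_zero

include fA fB h hinj hsurj hk hθ st in
/-- Weights of simple objects attached to an ideal of the tightness relation. -/
theorem exists_weights (Q : Finset I) (h0 : i₀ ∉ Q)
    (hQ : ∀ i j l, (i ∈ Q ∨ j ∈ Q) → Tight (K := K) O θ i j l → l ∈ Q) :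
    ∃ w : I → ℕ, (∀ i ∉ Q, w i = 0) ∧ (∀ i ∈ Q, 1 ≤ w i) ∧
      ∀ i j l, Tight (K := K) O θ i j l → w i + w j ≤ w l := by
  have hT := redM_ne_bot_iff (k := k) fA fB h hinj hsurj hk
  have hr : ∀ i, Tight (K := K) O θ i i₀ i := by
    intro i
    refine (hT _ _ _).1 fun hbot => ?_
    have h1 : rt O k (Y i ◁ eB.hom ≫ (ρ_ (Y i)).hom) ∈
        redM (k := k) G F fA fB θ hsurj i i₀ i := ⟨_, corr_unit_right eA eB hθ i, rfl⟩
    rw [hbot, Submodule.mem_bot] at h1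
    exact rt_iso_ne_zero (k := k) fB.simple (whiskerLeftIso (Y i) eB ≪≫ ρ_ (Y i)) h1
  refine exists_weight (fun i j l => Tight (K := K) O θ i j l) i₀ Q
    (tight_assoc (k := k) fA fB h hinj hsurj hk) (tight_assoc' (k := k) fA fB h hinj hsurj hk)
    hr hQ ?_
  intro U hU hirr hnk
  refine no_idempotent (k := k) (D := BC O k B) (S := redS O k Y)
    (M := redM (k := k) G F fA fB θ hsurj) (U := U) (simpleFam_red k fB.simple)
    (redDec k fB.dec) ((BC.incl O k B).mapIso eB)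
    (fun i => ⟨st i, red_mult_pos fB eB i⟩) (assocM_redM fA fB h hinj hsurj) ?_ h0 ?_ hU ?_ ?_
  · intro j
    refine ⟨_, corr_unit_left eA eB hθ j, ?_⟩
    have h1 := BC.tm_whiskerRight (R := O) (1 : k) eB.hom (Y j)
    change BC.tm O k 1 eB.hom ▷ (⟨Y j⟩ : BC O k B) ≫ BC.tm O k 1 (λ_ (Y j)).hom = _
    rw [h1, BC.tm_comp, one_mul]
    rfl
  · intro i j l hij hne
    exact hQ i j l hij ((hT _ _ _).1 hne)
  · intro V hV hc
    refine hirr V hV fun i j hj l hl ht => hc i j hj l hl ((hT _ _ _).2 ht)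
  · obtain ⟨i, hi, j, hj, l, hl, ht⟩ := hnk
    exact ⟨i, hi, j, hj, l, hl, (hT _ _ _).2 ht⟩

end weights

end Pool.Agent.W451.UGR
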